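import Pool.Agent.Lib.MP_904b2a_gt.H74.Ops

/-!
# MP_904b2a_gt, module BUN (helper74), part 5: the clutching family over the unreduced suspension
of the unitary group

`BB n = {(M, s) : M^* M = (1 - s²) 1, |s| ≤ 1}`, and the Bott projection
`½ [[1 + s, M^*], [M, 1 - s]]` on `ℂ^n ⊕ ℂ^n`.
-/

open scoped BigOperators Matrix Kronecker ComplexOrder
open Module Bundle

namespace Pool.Agent.Lib.MP_904b2a_gt

noncomputable section

/-- The unreduced suspension of the unitary group `U(n)`. -/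
def BB (n : Type) [Fintype n] [DecidableEq n] : Type :=
  {p : Matrix n n ℂ × ℝ // p.1ᴴ * p.1 = ((1 - p.2 ^ 2 : ℝ) : ℂ) • (1 : Matrix n n ℂ) ∧ |p.2| ≤ 1}

namespace BB

variable {n m : Type} [Fintype n] [DecidableEq n] [Fintype m] [DecidableEq m]

instance : TopologicalSpace (BB n) := inferInstanceAs (TopologicalSpace {p : Matrix n n ℂ × ℝ //
  p.1ᴴ * p.1 = ((1 - p.2 ^ 2 : ℝ) : ℂ) • (1 : Matrix n n ℂ) ∧ |p.2| ≤ 1})

/-- The matrix coordinate. -/
def M (x : BB n) : Matrix n n ℂ := x.1.1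

/-- The height coordinate. -/
def ht (x : BB n) : ℝ := x.1.2

theorem ext {x y : BB n} (h1 : x.M = y.M) (h2 : x.ht = y.ht) : x = y :=
  Subtype.ext (Prod.ext h1 h2)

theorem continuous_M : Continuous (M : BB n → Matrix n n ℂ) :=
  continuous_fst.comp continuous_subtype_val

theorem continuous_ht : Continuous (ht : BB n → ℝ) := continuous_snd.comp continuous_subtype_val

theorem abs_ht (x : BB n) : |x.ht| ≤ 1 := x.2.2

theorem ht_le (x : BB n) : x.ht ≤ 1 := (abs_le.mp x.abs_ht).2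

theorem le_ht (x : BB n) : -1 ≤ x.ht := (abs_le.mp x.abs_ht).1

theorem MhM (x : BB n) : x.Mᴴ * x.M = ((1 - x.ht ^ 2 : ℝ) : ℂ) • (1 : Matrix n n ℂ) := x.2.1

theorem MMh (x : BB n) : x.M * x.Mᴴ = ((1 - x.ht ^ 2 : ℝ) : ℂ) • (1 : Matrix n n ℂ) := by
  by_cases h : ((1 - x.ht ^ 2 : ℝ) : ℂ) = 0
  · have h1 := x.MhM
    rw [h, zero_smul] at h1 ⊢
    have h2 : x.M = 0 := Matrix.conjTranspose_mul_self_eq_zero.mp h1
    rw [h2, Matrix.zero_mul]
  · have h1 : ((((1 - x.ht ^ 2 : ℝ) : ℂ)⁻¹) • x.Mᴴ) * x.M = 1 := by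
      rw [Matrix.smul_mul, x.MhM, smul_smul, inv_mul_cancel₀ h, one_smul]
    have h2 := mul_eq_one_comm.mp h1
    have h3 := congrArg (fun A => ((1 - x.ht ^ 2 : ℝ) : ℂ) • A) h2
    simp only [Matrix.mul_smul, smul_smul, mul_inv_cancel₀ h, one_smul] at h3
    exact h3

/-- Constructor for continuous maps to `BB n`. -/
def lift {X : Type} [TopologicalSpace X] (A : X → Matrix n n ℂ) (s : X → ℝ) (hA : Continuous A)
    (hs : Continuous s) (h1 : ∀ x, (A x)ᴴ * A x = ((1 - s x ^ 2 : ℝ) : ℂ) • (1 : Matrix n n ℂ))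
    (h2 : ∀ x, |s x| ≤ 1) : C(X, BB n) where
  toFun x := ⟨(A x, s x), h1 x, h2 x⟩
  continuous_toFun := (hA.prodMk hs).subtype_mk _

/-- The Bott projection. -/
def bottM (x : BB n) : Matrix (n ⊕ n) (n ⊕ n) ℂ :=
  (1 / 2 : ℂ) • Matrix.fromBlocks ((1 + (x.ht : ℂ)) • (1 : Matrix n n ℂ)) x.Mᴴ x.M
    ((1 - (x.ht : ℂ)) • (1 : Matrix n n ℂ))

theorem bottM_mulVec (x : BB n) (v : n ⊕ n → ℂ) :
    x.bottM *ᵥ v = Sum.elim
      ((1 / 2 : ℂ) • ((1 + (x.ht : ℂ)) • (v ∘ Sum.inl) + x.Mᴴ *ᵥ (v ∘ Sum.inr)))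
      ((1 / 2 : ℂ) • (x.M *ᵥ (v ∘ Sum.inl) + (1 - (x.ht : ℂ)) • (v ∘ Sum.inr))) := by
  rw [bottM, Matrix.smul_mulVec, Matrix.fromBlocks_mulVec]
  funext a
  rcases a with a | a <;>
  simp [Matrix.smul_mulVec, mul_add]

end BB

/-- The **Bott family** `E_n` over the unreduced suspension of `U(n)`. -/
def bott (n : Type) [Fintype n] [DecidableEq n] (r : ℕ) (h : Fintype.card n = r) :
    PF r (BB n) (n ⊕ n) where
  P x := x.bottM
  cont := by
    have h1 : Continuous fun x : BB n => (x.ht : ℂ) := by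
      exact Complex.continuous_ofReal.comp BB.continuous_ht
    have h2 : Continuous fun x : BB n => Matrix.fromBlocks ((1 + (x.ht : ℂ)) •
        (1 : Matrix n n ℂ)) x.Mᴴ x.M ((1 - (x.ht : ℂ)) • (1 : Matrix n n ℂ)) :=
      Continuous.matrix_fromBlocks
      ((continuous_const.add h1).smul continuous_const) BB.continuous_M.matrix_conjTranspose
      BB.continuous_M ((continuous_const.sub h1).smul continuous_const)
    exact h2.const_smul (1 / 2 : ℂ)
  herm x := by
    rw [BB.bottM, Matrix.conjTranspose_smul, Matrix.fromBlocks_conjTranspose,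
      Matrix.conjTranspose_smul, Matrix.conjTranspose_smul, Matrix.conjTranspose_one,
      Matrix.conjTranspose_conjTranspose]
    simp
  idem x := by
    rw [BB.bottM, Matrix.smul_mul, Matrix.mul_smul, Matrix.fromBlocks_multiply, smul_smul]
    simp only [Matrix.smul_mul, Matrix.mul_smul, Matrix.one_mul, Matrix.mul_one, x.MhM, x.MMh,
      smul_smul, ← add_smul]
    rw [Matrix.fromBlocks_smul, Matrix.fromBlocks_smul]
    simp only [smul_smul]
    push_cast
    congr 1
    · congr 1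
      ring
    · congr 1
      ring
    · congr 1
      ring
    · congr 1
      ring
  tr x := by
    rw [BB.bottM, Matrix.trace_smul, trace_fromBlocks', Matrix.trace_smul, Matrix.trace_smul,
      Matrix.trace_one, h]
    simp only [smul_eq_mul]
    ring

theorem bott_P (n : Type) [Fintype n] [DecidableEq n] (r : ℕ) (h : Fintype.card n = r)
    (x : BB n) : (bott n r h).P x = x.bottM := rfl

namespace BB

variable {n m : Type} [Fintype n] [DecidableEq n] [Fintype m] [DecidableEq m]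

/-- The two equations for a vector in the image of the Bott projection. -/
theorem bottM_eq {x : BB n} {v : n ⊕ n → ℂ} (h : x.bottM *ᵥ v = v) :
    x.Mᴴ *ᵥ (v ∘ Sum.inr) = (1 - (x.ht : ℂ)) • (v ∘ Sum.inl) ∧
      x.M *ᵥ (v ∘ Sum.inl) = (1 + (x.ht : ℂ)) • (v ∘ Sum.inr) := by
  rw [bottM_mulVec] at h
  constructor
  · funext a
    have := congrFun h (Sum.inl a)
    simp only [Sum.elim_inl, Pi.smul_apply, Pi.add_apply, smul_eq_mul, Function.comp_apply] at this ⊢
    linear_combination 2 * this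
  · funext a
    have := congrFun h (Sum.inr a)
    simp only [Sum.elim_inr, Pi.smul_apply, Pi.add_apply, smul_eq_mul, Function.comp_apply] at this ⊢
    linear_combination 2 * this

/-- Conversely, the two equations characterise the image. -/
theorem bottM_of_eq {x : BB n} {v : n ⊕ n → ℂ}
    (h1 : x.Mᴴ *ᵥ (v ∘ Sum.inr) = (1 - (x.ht : ℂ)) • (v ∘ Sum.inl))
    (h2 : x.M *ᵥ (v ∘ Sum.inl) = (1 + (x.ht : ℂ)) • (v ∘ Sum.inr)) : x.bottM *ᵥ v = v := by
  rw [bottM_mulVec, h1, h2]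
  funext a
  rcases a with a | a
  · simp only [Sum.elim_inl, Pi.smul_apply, Pi.add_apply, smul_eq_mul, Function.comp_apply]
    ring
  · simp only [Sum.elim_inr, Pi.smul_apply, Pi.add_apply, smul_eq_mul, Function.comp_apply]
    ring

end BB

section cP

variable (𝒞 : ChernTheory) {r s t : ℕ} {X Y : Type} [TopologicalSpace X] [TopologicalSpace Y]
  {n m : Type} [Fintype n] [DecidableEq n] [Fintype m] [DecidableEq m]

/-- The Bott family is trivial over `s > -1`. -/
theorem cP_bott_pos (hn : Fintype.card n = r) (f : C(X, BB n)) (hf : ∀ x, -1 < (f x).ht) {i : ℕ}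
    (hi : 1 ≤ i) : cP 𝒞 ((bott n r hn).pb f) i = 0 := by
  refine cP_eq_zero_of_trivial' 𝒞 _ hn (fun _ => Matrix.fromCols 1 0) continuous_const ?_ hi
  intro x v hv h0
  obtain ⟨h1, h2⟩ := BB.bottM_eq (x := f x) hv
  rw [Matrix.fromCols_mulVec, Matrix.one_mulVec, Matrix.zero_mulVec, add_zero] at h0
  rw [h0, Matrix.mulVec_zero] at h2
  have h3 : (1 + ((f x).ht : ℂ)) ≠ 0 := by
    have := hf x
    norm_cast
    linarith
  have h4 : v ∘ Sum.inr = 0 := (smul_eq_zero.mp h2.symm).resolve_left h3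
  funext a
  rcases a with a | a
  · exact congrFun h0 a
  · exact congrFun h4 a

/-- The Bott family is trivial over `s < 1`. -/
theorem cP_bott_neg (hn : Fintype.card n = r) (f : C(X, BB n)) (hf : ∀ x, (f x).ht < 1) {i : ℕ}
    (hi : 1 ≤ i) : cP 𝒞 ((bott n r hn).pb f) i = 0 := by
  refine cP_eq_zero_of_trivial' 𝒞 _ hn (fun _ => Matrix.fromCols 0 1) continuous_const ?_ hi
  intro x v hv h0
  obtain ⟨h1, h2⟩ := BB.bottM_eq (x := f x) hv
  rw [Matrix.fromCols_mulVec, Matrix.one_mulVec, Matrix.zero_mulVec, zero_add] at h0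
  rw [h0, Matrix.mulVec_zero] at h1
  have h3 : (1 - ((f x).ht : ℂ)) ≠ 0 := by
    have := hf x
    norm_cast
    linarith
  have h4 : v ∘ Sum.inl = 0 := (smul_eq_zero.mp h1.symm).resolve_left h3
  funext a
  rcases a with a | a
  · exact congrFun h4 a
  · exact congrFun h0 a

/-- Multiplication of the clutching function by continuous families of unitary matrices on both
sides (defined on the whole space) does not change the Chern classes. -/
theorem cP_bott_unitary (hn : Fintype.card n = r) (f g : C(X, BB n)) (U V : X → Matrix n n ℂ)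
    (hU : Continuous U) (hV : Continuous V) (hU1 : ∀ x, (U x)ᴴ * U x = 1)
    (hV1 : ∀ x, (V x)ᴴ * V x = 1) (hs : ∀ x, (g x).ht = (f x).ht)
    (hM : ∀ x, (g x).M = U x * (f x).M * (V x)ᴴ) (i : ℕ) :
    cP 𝒞 ((bott n r hn).pb g) i = cP 𝒞 ((bott n r hn).pb f) i := by
  symm
  refine cP_congr 𝒞 _ _ (fun x => Matrix.fromBlocks (V x) 0 0 (U x))
    (hV.matrix_fromBlocks continuous_const continuous_const hU) ?_ ?_ i
  · intro x v hv
    obtain ⟨h1, h2⟩ := BB.bottM_eq (x := f x) hv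
    have e : Matrix.fromBlocks (V x) 0 0 (U x) *ᵥ v =
        Sum.elim (V x *ᵥ (v ∘ Sum.inl)) (U x *ᵥ (v ∘ Sum.inr)) := by
      rw [Matrix.fromBlocks_mulVec]
      simp
    rw [e]
    apply BB.bottM_of_eq
    · rw [Sum.elim_comp_inl, Sum.elim_comp_inr, hM, Matrix.conjTranspose_mul,
        Matrix.conjTranspose_mul, Matrix.conjTranspose_conjTranspose, Matrix.mulVec_mulVec,
        Matrix.mul_assoc, Matrix.mul_assoc, hU1, Matrix.mul_one, ← Matrix.mulVec_mulVec, h1, hs,
        Matrix.mulVec_smul]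
    · rw [Sum.elim_comp_inl, Sum.elim_comp_inr, hM, Matrix.mulVec_mulVec, Matrix.mul_assoc, hV1,
        Matrix.mul_one, ← Matrix.mulVec_mulVec, h2, hs, Matrix.mulVec_smul]
  · intro x v _ h0
    have e : Matrix.fromBlocks ((V x)ᴴ) 0 0 ((U x)ᴴ) *ᵥ (Matrix.fromBlocks (V x) 0 0 (U x) *ᵥ v) =
        v := by
      rw [Matrix.mulVec_mulVec, Matrix.fromBlocks_multiply, hU1, hV1]
      simp
    rw [← e, h0, Matrix.mulVec_zero]

/-- The Bott family of `c(s) U` with `U` a continuous family of unitary matrices which is defined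
on the whole space is trivial. -/
theorem cP_bott_trivial (hn : Fintype.card n = r) (f : C(X, BB n)) (U : X → Matrix n n ℂ)
    (hU : Continuous U) (hU1 : ∀ x, (U x)ᴴ * U x = 1)
    (hM : ∀ x, (f x).M = ((Real.sqrt (1 - (f x).ht ^ 2) : ℝ) : ℂ) • U x) {i : ℕ} (hi : 1 ≤ i) :
    cP 𝒞 ((bott n r hn).pb f) i = 0 := by
  have hht : Continuous fun x => (f x).ht := BB.continuous_ht.comp f.continuous
  refine cP_eq_zero_of_trivial' 𝒞 _ hn
    (fun x => Matrix.fromCols (((Real.sqrt (1 + (f x).ht) : ℝ) : ℂ) • (1 : Matrix n n ℂ))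
      (((Real.sqrt (1 - (f x).ht) : ℝ) : ℂ) • (U x)ᴴ)) ?_ ?_ hi
  · have c1 : Continuous fun x => ((Real.sqrt (1 + (f x).ht) : ℝ) : ℂ) :=
      Complex.continuous_ofReal.comp (Real.continuous_sqrt.comp (continuous_const.add hht))
    have c2 : Continuous fun x => ((Real.sqrt (1 - (f x).ht) : ℝ) : ℂ) :=
      Complex.continuous_ofReal.comp (Real.continuous_sqrt.comp (continuous_const.sub hht))
    have c3 : Continuous fun x => ((Real.sqrt (1 + (f x).ht) : ℝ) : ℂ) • (1 : Matrix n n ℂ) :=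
      c1.smul continuous_const
    have c4 : Continuous fun x => ((Real.sqrt (1 - (f x).ht) : ℝ) : ℂ) • (U x)ᴴ :=
      c2.smul hU.matrix_conjTranspose
    refine continuous_matrix (fun a b => ?_)
    rcases b with b | b
    · exact c3.matrix_elem a b
    · exact c4.matrix_elem a b
  · intro x v hv h0
    obtain ⟨h1, h2⟩ := BB.bottM_eq (x := f x) hv
    set σ : ℝ := (f x).ht with hσ
    have hp : 0 ≤ 1 + σ := by linarith [(f x).le_ht]
    have hm : 0 ≤ 1 - σ := by linarith [(f x).ht_le]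
    have hsq : ((Real.sqrt (1 - σ ^ 2) : ℝ) : ℂ) =
        ((Real.sqrt (1 + σ) : ℝ) : ℂ) * ((Real.sqrt (1 - σ) : ℝ) : ℂ) := by
      rw [← Complex.ofReal_mul, ← Real.sqrt_mul hp]
      congr 2
      ring
    have hpp : ((Real.sqrt (1 + σ) : ℝ) : ℂ) * ((Real.sqrt (1 + σ) : ℝ) : ℂ) = 1 + (σ : ℂ) := by
      rw [← Complex.ofReal_mul, Real.mul_self_sqrt hp]
      push_cast
      ring
    have hmm : ((Real.sqrt (1 - σ) : ℝ) : ℂ) * ((Real.sqrt (1 - σ) : ℝ) : ℂ) = 1 - (σ : ℂ) := by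
      rw [← Complex.ofReal_mul, Real.mul_self_sqrt hm]
      push_cast
      ring
    set a : n → ℂ := v ∘ Sum.inl with ha
    set b : n → ℂ := v ∘ Sum.inr with hb
    set P : ℂ := ((Real.sqrt (1 + σ) : ℝ) : ℂ) with hP
    set Q : ℂ := ((Real.sqrt (1 - σ) : ℝ) : ℂ) with hQ
    rw [Matrix.fromCols_mulVec, Matrix.smul_mulVec, Matrix.one_mulVec, Matrix.smul_mulVec,
      ← ha, ← hb] at h0
    rw [hM x, Matrix.conjTranspose_smul, Matrix.smul_mulVec, ← hσ] at h1
    rw [hM x, Matrix.smul_mulVec, ← hσ] at h2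
    have hstar : star ((Real.sqrt (1 - σ ^ 2) : ℝ) : ℂ) = ((Real.sqrt (1 - σ ^ 2) : ℝ) : ℂ) :=
      Complex.conj_ofReal _
    rw [hstar, hsq] at h1
    rw [hsq] at h2
    -- `P • (P • a + Q • U^* b) = 0`
    have e1 : (2 : ℂ) • a = 0 := by
      have := congrArg (fun w => P • w) h0
      simp only [smul_add, smul_smul, smul_zero] at this
      rw [h1, hpp, ← add_smul] at this
      rw [← this]
      congr 1
      ring
    have ea : a = 0 := (smul_eq_zero.mp e1).resolve_left two_ne_zero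
    have e2 : (1 + (σ : ℂ)) • b = 0 := by
      rw [← h2, ea, Matrix.mulVec_zero, smul_zero]
    have e3 : Q • ((U x)ᴴ *ᵥ b) = 0 := by
      rw [ea, smul_zero, zero_add] at h0
      exact h0
    have e4 : (1 - (σ : ℂ)) • b = 0 := by
      have h5 : U x *ᵥ ((U x)ᴴ *ᵥ b) = b := by
        rw [Matrix.mulVec_mulVec, mul_eq_one_comm.mp (hU1 x), Matrix.one_mulVec]
      have h6 := congrArg (fun w => Q • (U x *ᵥ w)) e3
      simp only [Matrix.mulVec_smul, h5, smul_smul, hmm, Matrix.mulVec_zero, smul_zero] at h6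
      exact h6
    have e5 : (2 : ℂ) • b = 0 := by
      have : (2 : ℂ) • b = (1 + (σ : ℂ)) • b + (1 - (σ : ℂ)) • b := by
        rw [← add_smul]
        congr 1
        ring
      rw [this, e2, e4, add_zero]
    have eb : b = 0 := (smul_eq_zero.mp e5).resolve_left two_ne_zero
    funext c
    rcases c with c | c
    · exact congrFun ea c
    · exact congrFun eb c

/-- The Bott family of a block diagonal clutching function. -/
theorem cP_bott_block (hn : Fintype.card n = r) (hm : Fintype.card m = s)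
    (hnm : Fintype.card (n ⊕ m) = r + s) (f : C(X, BB n)) (g : C(X, BB m)) (h : C(X, BB (n ⊕ m)))
    (h1 : ∀ x, (f x).ht = (h x).ht) (h2 : ∀ x, (g x).ht = (h x).ht)
    (hM : ∀ x, (h x).M = Matrix.fromBlocks (f x).M 0 0 (g x).M) (k : ℕ) :
    cP 𝒞 ((bott (n ⊕ m) (r + s) hnm).pb h) k = ∑ i : Fin (k + 1),
      H.cup (p := 2 * (i : ℕ)) (q := 2 * (k - (i : ℕ))) (n := 2 * k) (by omega)
        (cP 𝒞 ((bott n r hn).pb f) (i : ℕ)) (cP 𝒞 ((bott m s hm).pb g) (k - (i : ℕ))) := by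
  rw [← cP_dsum]
  symm
  -- the permutation of the blocks
  let e : (n ⊕ n) ⊕ (m ⊕ m) ≃ (n ⊕ m) ⊕ (n ⊕ m) := Equiv.sumSumSumComm n n m m
  rw [← cP_reindex 𝒞 _ e k]
  refine cP_congr_P 𝒞 _ _ (fun x => ?_) k
  ext a b
  simp only [PF.reindex, PF.dsum, PF.pb_P, bott_P, BB.bottM, h1, h2, hM, Matrix.reindex_apply,
    Matrix.submatrix_apply]
  rcases a with (a | a) | (a | a) <;> rcases b with (b | b) | (b | b) <;>
    simp [e, Equiv.sumSumSumComm, Matrix.one_apply, Matrix.fromBlocks_conjTranspose]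

/-- Reindexing of the clutching function. -/
theorem cP_bott_reindex (hn : Fintype.card n = r) (hm : Fintype.card m = r) (e : n ≃ m)
    (f : C(X, BB n)) (g : C(X, BB m)) (h1 : ∀ x, (g x).ht = (f x).ht)
    (hM : ∀ x, (g x).M = Matrix.reindex e e (f x).M) (k : ℕ) :
    cP 𝒞 ((bott m r hm).pb g) k = cP 𝒞 ((bott n r hn).pb f) k := by
  symm
  rw [← cP_reindex 𝒞 _ (Equiv.sumCongr e e) k]
  refine cP_congr_P 𝒞 _ _ (fun x => ?_) k
  ext a b
  simp only [PF.reindex, PF.pb_P, bott_P, BB.bottM, h1, hM, Matrix.reindex_apply,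
    Matrix.submatrix_apply]
  rcases a with a | a <;> rcases b with b | b <;>
    simp [Matrix.one_apply, Matrix.conjTranspose_submatrix]

end cP

end

end Pool.Agent.Lib.MP_904b2a_gt
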