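import Pool.Agent.Lib.MP_904b2a_gt.H74.Mul
import Pool.Agent.Lib.MP_904b2a_gt.H83.Comm

/-!
# MP_904b2a_gt, module CHE (helper74), part 2: total Chern classes of families of projections,
multiplicativity for products of clutching functions
-/

open scoped BigOperators Matrix ComplexOrder unitInterval
open Module Bundle

namespace Pool.Agent.Lib.MP_904b2a_gt

open H83

noncomputable section

section

variable (𝒞 : ChernTheory) {r s t : ℕ} {X Y : Type} [TopologicalSpace X] [TopologicalSpace Y]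
  {ι κ : Type} [Fintype ι] [DecidableEq ι] [Fintype κ] [DecidableEq κ]

/-- The total Chern class of a family of projections. -/
def cT (p : PF r X ι) : T X := ∑ i ∈ Finset.range (r + 1), T.of (2 * i) (cP 𝒞 p i)

theorem cT_even (p : PF r X ι) (k : ℕ) : cT 𝒞 p (2 * k) = cP 𝒞 p k := by
  rw [cT, T.sum_apply]
  by_cases hk : k ≤ r
  · rw [Finset.sum_eq_single k]
    · rw [T.of_self]
    · intro i _ hi
      rw [T.of_ne (by omega)]
    · intro h
      exact absurd (Finset.mem_range.mpr (by omega)) h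
  · rw [cP_gt 𝒞 p (by omega)]
    refine Finset.sum_eq_zero (fun i hi => ?_)
    rw [Finset.mem_range] at hi
    rw [T.of_ne (by omega)]

theorem cT_odd (p : PF r X ι) (k : ℕ) (hk : Odd k) : cT 𝒞 p k = 0 := by
  rw [cT, T.sum_apply]
  refine Finset.sum_eq_zero (fun i _ => ?_)
  rw [T.of_ne]
  obtain ⟨m, rfl⟩ := hk
  omega

theorem cT_zero (p : PF r X ι) : cT 𝒞 p 0 = H.one := by
  have := cT_even 𝒞 p 0
  rw [cP_zero] at this
  exact this

theorem T_ext_even {a b : T X} (h : ∀ k, a (2 * k) = b (2 * k))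
    (h' : ∀ k, Odd k → a k = b k) : a = b := by
  ext n
  rcases Nat.even_or_odd n with hn | hn
  · obtain ⟨m, rfl⟩ := hn
    rw [← two_mul]
    exact h m
  · exact h' n hn

theorem cT_map (p : PF r X ι) (q : PF r Y κ) (f : C(X, Y)) (T' : X → Matrix κ ι ℂ)
    (hT : Continuous T') (h1 : ∀ x v, p.P x *ᵥ v = v → q.P (f x) *ᵥ (T' x *ᵥ v) = T' x *ᵥ v)
    (h2 : ∀ x v, p.P x *ᵥ v = v → T' x *ᵥ v = 0 → v = 0) :
    cT 𝒞 p = T.map f (cT 𝒞 q) := by
  rw [cT, cT, map_sum]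
  refine Finset.sum_congr rfl (fun i _ => ?_)
  rw [T.map_of, cP_map 𝒞 p q f T' hT h1 h2]

theorem cT_pb (q : PF r Y ι) (f : C(X, Y)) : cT 𝒞 (q.pb f) = T.map f (cT 𝒞 q) := by
  rw [cT, cT, map_sum]
  refine Finset.sum_congr rfl (fun i _ => ?_)
  rw [T.map_of, cP_pb]

theorem cT_congr (p : PF r X ι) (q : PF r X κ) (T' : X → Matrix κ ι ℂ)
    (hT : Continuous T') (h1 : ∀ x v, p.P x *ᵥ v = v → q.P x *ᵥ (T' x *ᵥ v) = T' x *ᵥ v)
    (h2 : ∀ x v, p.P x *ᵥ v = v → T' x *ᵥ v = 0 → v = 0) : cT 𝒞 p = cT 𝒞 q := by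
  rw [cT, cT]
  refine Finset.sum_congr rfl (fun i _ => ?_)
  rw [cP_congr 𝒞 p q T' hT h1 h2]

theorem cT_congr_P (p q : PF r X ι) (h : ∀ x, p.P x = q.P x) : cT 𝒞 p = cT 𝒞 q := by
  rw [cT, cT]
  refine Finset.sum_congr rfl (fun i _ => ?_)
  rw [cP_congr_P 𝒞 p q h]

theorem cT_castRank {r' : ℕ} (p : PF r X ι) (h : r = r') : cT 𝒞 (p.castRank h) = cT 𝒞 p := by
  subst h
  rfl

/-- If the classes of positive degree vanish then the total Chern class is one. -/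
theorem cT_eq_one (p : PF r X ι) (h : ∀ i, 1 ≤ i → cP 𝒞 p i = 0) : cT 𝒞 p = 1 := by
  rw [cT, Finset.sum_range_succ']
  rw [Finset.sum_eq_zero (fun i _ => by rw [h (i + 1) (by omega), map_zero]), zero_add,
    T.one_def, cP_zero]

/-- A sum over pairs of even degrees. -/
theorem T_mul_even {a b : T X} (ha : ∀ k, Odd k → a k = 0) (k : ℕ) :
    (a * b) (2 * k) = ∑ i : Fin (k + 1),
      H.cup (p := 2 * (i : ℕ)) (q := 2 * (k - (i : ℕ))) (n := 2 * k) (by omega)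
        (a (2 * (i : ℕ))) (b (2 * (k - (i : ℕ)))) := by
  rw [T.mul_apply]
  symm
  refine Finset.sum_of_injOn (fun i : Fin (k + 1) => ((2 * (i : ℕ), 2 * (k - (i : ℕ))) : ℕ × ℕ))
    ?_ ?_ ?_ ?_
  · intro i _ j _ hij
    simp only [Prod.mk.injEq] at hij
    apply Fin.ext
    omega
  · intro i _
    simp only [Finset.mem_coe, Finset.HasAntidiagonal.mem_antidiagonal]
    have := i.2
    omega
  · rintro ⟨p, q⟩ hx hn
    rw [Finset.HasAntidiagonal.mem_antidiagonal] at hx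
    simp only at hx
    rcases Nat.even_or_odd p with hp | hp
    · exfalso
      obtain ⟨m, rfl⟩ := hp
      apply hn
      refine ⟨⟨m, by omega⟩, by simp, ?_⟩
      simp only [Prod.mk.injEq]
      omega
    · rw [ha p hp, map_zero, AddMonoidHom.zero_apply]
  · intro i _
    rw [cup0_eq]

theorem T_mul_odd {a b : T X} (ha : ∀ k, Odd k → a k = 0) (hb : ∀ k, Odd k → b k = 0) (n : ℕ)
    (hn : Odd n) : (a * b) n = 0 := by
  rw [T.mul_apply]
  refine Finset.sum_eq_zero (fun x hx => ?_)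
  rw [Finset.HasAntidiagonal.mem_antidiagonal] at hx
  rcases Nat.even_or_odd x.1 with h | h
  · have : Odd x.2 := by
      rw [← hx] at hn
      rcases Nat.even_or_odd x.2 with h' | h'
      · exact absurd (h.add h') (Nat.not_even_iff_odd.mpr hn)
      · exact h'
    rw [hb _ this, map_zero]
  · rw [ha _ h, map_zero, AddMonoidHom.zero_apply]

/-- The Whitney sum formula. -/
theorem cT_whitney (p : PF t X ι) (p₁ : PF r X ι) (p₂ : PF s X ι)
    (h : ∀ x, p.P x = p₁.P x + p₂.P x) : cT 𝒞 p = cT 𝒞 p₁ * cT 𝒞 p₂ := by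
  apply T_ext_even
  · intro k
    rw [cT_even, cP_whitney 𝒞 p p₁ p₂ h k, T_mul_even (fun k hk => cT_odd 𝒞 _ k hk)]
    simp only [cT_even]
  · intro k hk
    rw [cT_odd 𝒞 p k hk, T_mul_odd (fun k hk => cT_odd 𝒞 _ k hk) (fun k hk => cT_odd 𝒞 _ k hk) k hk]

theorem cT_dsum (p : PF r X ι) (q : PF s X κ) : cT 𝒞 (p.dsum q) = cT 𝒞 p * cT 𝒞 q := by
  apply T_ext_even
  · intro k
    rw [cT_even, cP_dsum, T_mul_even (fun k hk => cT_odd 𝒞 _ k hk)]
    simp only [cT_even]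
  · intro k hk
    rw [cT_odd 𝒞 _ k hk, T_mul_odd (fun k hk => cT_odd 𝒞 _ k hk) (fun k hk => cT_odd 𝒞 _ k hk) k hk]

theorem cT_unit (h : Fintype.card κ = r) : cT 𝒞 (PF.unit r X κ h) = 1 :=
  cT_eq_one 𝒞 _ (fun _ hi => cP_unit 𝒞 h hi)

theorem cT_compl (p : PF r X ι) (h : r + s = Fintype.card ι) :
    cT 𝒞 p * cT 𝒞 (p.compl s h) = 1 := by
  rw [← cT_whitney 𝒞 (PF.unit (r + s) X ι h.symm) p (p.compl s h) (fun x => by
    simp [PF.unit, PF.compl])]
  exact cT_unit 𝒞 _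

end

/-! ### Clutching functions -/

section

variable (𝒞 : ChernTheory) {X Y : Type} [TopologicalSpace X] [TopologicalSpace Y]
  {n m : Type} [Fintype n] [DecidableEq n] [Fintype m] [DecidableEq m]

/-- The total Chern class of the bundle with the clutching function `f`. -/
def cB (f : C(X, BB n)) : T X := cT 𝒞 ((bott n (Fintype.card n) rfl).pb f)

theorem cB_comp (g : C(Y, BB n)) (f : C(X, Y)) : cB 𝒞 (g.comp f) = T.map f (cB 𝒞 g) :=
  cT_pb 𝒞 ((bott n (Fintype.card n) rfl).pb g) f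

theorem cB_homotopic {f g : C(X, BB n)} (h : f.Homotopic g) : cB 𝒞 f = cB 𝒞 g := by
  rw [cB, cB, cT_pb, cT_pb]
  ext k
  exact H.pb_eq_of_homotopic h _

theorem cB_even (f : C(X, BB n)) (k : ℕ) :
    cB 𝒞 f (2 * k) = cP 𝒞 ((bott n (Fintype.card n) rfl).pb f) k := cT_even 𝒞 _ k

theorem cB_odd (f : C(X, BB n)) (k : ℕ) (hk : Odd k) : cB 𝒞 f k = 0 := cT_odd 𝒞 _ k hk

theorem cB_pos {f : C(X, BB n)} (hf : ∀ x, -1 < (f x).ht) : cB 𝒞 f = 1 :=
  cT_eq_one 𝒞 _ (fun _ hi => cP_bott_pos 𝒞 rfl f hf hi)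

theorem cB_neg {f : C(X, BB n)} (hf : ∀ x, (f x).ht < 1) : cB 𝒞 f = 1 :=
  cT_eq_one 𝒞 _ (fun _ hi => cP_bott_neg 𝒞 rfl f hf hi)

theorem cB_trivial (f : C(X, BB n)) (U : X → Matrix n n ℂ)
    (hU : Continuous U) (hU1 : ∀ x, (U x)ᴴ * U x = 1)
    (hM : ∀ x, (f x).M = ((BB.rad (f x).ht : ℝ) : ℂ) • U x) : cB 𝒞 f = 1 :=
  cT_eq_one 𝒞 _ (fun _ hi => cP_bott_trivial 𝒞 rfl f U hU hU1 hM hi)

theorem cB_unit (f : C(X, BB n)) : cB 𝒞 (BB.unit m f) = 1 :=
  cB_trivial 𝒞 _ (fun _ => 1) continuous_const (fun _ => by simp) (fun x => BB.unit_M f x)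

theorem cB_diag (f : C(X, BB n)) (g : C(X, BB m)) (h : ∀ x, (f x).ht = (g x).ht) :
    cB 𝒞 (BB.diag f g h) = cB 𝒞 f * cB 𝒞 g := by
  have hc : Fintype.card (n ⊕ m) = Fintype.card n + Fintype.card m := Fintype.card_sum
  have e : cB 𝒞 (BB.diag f g h) =
      cT 𝒞 ((bott (n ⊕ m) (Fintype.card n + Fintype.card m) hc).pb (BB.diag f g h)) := by
    have e2 : ∀ (r : ℕ) (h' : Fintype.card (n ⊕ m) = r),
        cT 𝒞 ((bott (n ⊕ m) (Fintype.card (n ⊕ m)) rfl).pb (BB.diag f g h)) =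
          cT 𝒞 ((bott (n ⊕ m) r h').pb (BB.diag f g h)) := by
      intro r h'
      subst h'
      rfl
    exact e2 _ hc
  rw [e]
  apply T_ext_even
  · intro k
    rw [cT_even, cP_bott_block 𝒞 rfl rfl hc f g (BB.diag f g h) (fun _ => rfl)
      (fun x => (h x).symm) (fun _ => rfl) k]
    refine Eq.trans ?_ (T_mul_even (a := cB 𝒞 f) (b := cB 𝒞 g) (cB_odd 𝒞 f) k).symm
    simp only [cB_even]
  · intro k hk
    rw [cT_odd 𝒞 _ k hk]
    exact (T_mul_odd (a := cB 𝒞 f) (b := cB 𝒞 g) (cB_odd 𝒞 f) (cB_odd 𝒞 g) k hk).symm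

/-- **Multiplicativity of the total Chern class for products of clutching functions.** -/
theorem cB_mul (f g : C(X, BB n)) (h : ∀ x, (f x).ht = (g x).ht) :
    cB 𝒞 (BB.mul f g h) = cB 𝒞 f * cB 𝒞 g := by
  have h1 := cB_homotopic 𝒞 (BB.diag_mul_homotopic f g h)
  rw [cB_diag, cB_diag, cB_unit, mul_one] at h1
  exact h1

theorem cB_unitary (f g : C(X, BB n)) (U V : X → Matrix n n ℂ)
    (hU : Continuous U) (hV : Continuous V) (hU1 : ∀ x, (U x)ᴴ * U x = 1)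
    (hV1 : ∀ x, (V x)ᴴ * V x = 1) (hs : ∀ x, (g x).ht = (f x).ht)
    (hM : ∀ x, (g x).M = U x * (f x).M * (V x)ᴴ) : cB 𝒞 g = cB 𝒞 f := by
  rw [cB, cB, cT, cT]
  refine Finset.sum_congr rfl (fun i _ => ?_)
  rw [cP_bott_unitary 𝒞 rfl f g U V hU hV hU1 hV1 hs hM]

theorem cB_reindex (e : n ≃ m) (f : C(X, BB n)) (g : C(X, BB m))
    (h1 : ∀ x, (g x).ht = (f x).ht) (hM : ∀ x, (g x).M = Matrix.reindex e e (f x).M) :
    cB 𝒞 g = cB 𝒞 f := by
  apply T_ext_even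
  · intro k
    rw [cB_even, cB_even]
    exact cP_bott_reindex 𝒞 (Fintype.card_congr e) rfl e f g h1 hM k ▸ by
      have : ∀ (r : ℕ) (h' : Fintype.card n = r), cP 𝒞 ((bott n r h').pb f) k =
          cP 𝒞 ((bott n (Fintype.card n) rfl).pb f) k := by
        intro r h'
        subst h'
        rfl
      exact this _ _
  · intro k hk
    rw [cB, cB, cT_odd 𝒞 _ k hk, cT_odd 𝒞 _ k hk]

end

end

end Pool.Agent.Lib.MP_904b2a_gt
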