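import Pool.Agent.Lib.MP_904b2a_gt.H74.Dim
import Pool.Agent.Lib.MP_904b2a_gt.H78.Che

/-!
# MP_904b2a_gt, module CHE: assembly
-/

open scoped BigOperators Matrix
open Set

namespace Pool.Agent.Lib.MP_904b2a_gt

noncomputable section

theorem dimStatement : DimStatement := fun ι _ n hn u => dimLe_circle_pi ι n hn u

/-- **CHE**. -/
theorem cheStatement (hK : KunnethStatement) (hS : SphereCohStatement) : CheStatement := by
  intro 𝒞 r
  refine ⟨cheData 𝒞 r, fun j hj => ?_⟩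
  have h1 : H.pb (blkC (lowE (Nat.succ_le_of_lt hj))) ((cheData 𝒞 r).x j) = xr 𝒞 (j + 1) j :=
    xr_blk 𝒞 _ j
  refine nonempty_cheFac hK hS dimStatement (cheData 𝒞 r) hj ?_ (fZ j) ?_ ?_
  · rw [h1]
    exact (xr_blk 𝒞 (succE j) j).trans (xr_eq_zero 𝒞 le_rfl)
  · rintro ⟨t, z⟩ ht
    obtain rfl : t = 1 := ht
    exact fZ_one j z
  · rw [h1]
    intro h0
    exact xr_fZ_ne 𝒞 j one_ne_zero (by rw [h0, smul_zero])

end

end Pool.Agent.Lib.MP_904b2a_gt
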