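import Pool.Agent.Lib.MP_904b2a_gt.H74.XClass
import Pool.Agent.Lib.MP_904b2a_gt.Interfaces2

/-!
# MP_904b2a_gt, module CHE (helper74): the structure `CheData`
-/

open scoped BigOperators Matrix
open Set

namespace Pool.Agent.Lib.MP_904b2a_gt

noncomputable section

variable (𝒞 : ChernTheory)

theorem cP_bott_rank {n : Type} [Fintype n] [DecidableEq n] {r : ℕ} (h : Fintype.card n = r)
    (k : ℕ) : cP 𝒞 (bott n r h) k = cP 𝒞 (bott n (Fintype.card n) rfl) k := by
  subst h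
  rfl

/-- The class `c_{k+1}` of the universal clutching bundle. -/
theorem cU'_eq {n : Type} [Fintype n] [DecidableEq n] (k : ℕ) :
    cU' 𝒞 n k = cP 𝒞 (bott n (Fintype.card n) rfl) (k + 1) := by
  have h := cB_even 𝒞 (ContinuousMap.id (BB n)) (k + 1)
  rw [cP_pb, H.pb_id] at h
  exact h

/-- The class `x_k` on `U(r)`. -/
def xr (r k : ℕ) : H (2 * k + 1) (UG r) ℤ := xU 𝒞 (Fin r) k

/-- **The data of module CHE.** -/
def cheData (r : ℕ) : CheData 𝒞 r where
  x := xr 𝒞 r
  mv j _ := by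
    have h := xU_mv 𝒞 (n := Fin r) j
    rw [cU'_eq, ← cP_bott_rank 𝒞 (Fintype.card_fin r)] at h
    exact h
  prim Y _ u v j _ := xU_mul 𝒞 u v j

end

end Pool.Agent.Lib.MP_904b2a_gt
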