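import Pool.Agent.Lib.MP_904b2a_gt.H74.ImB
import Pool.Agent.Lib.MP_904b2a_gt.Coh

/-!
# MP_904b2a_gt, module BUN (helper74), part 3: Chern classes of families of projections
-/

open scoped BigOperators Matrix
open Module Bundle

namespace Pool.Agent.Lib.MP_904b2a_gt

noncomputable section

/-! ### Pullbacks in cohomology -/

theorem H.pb_id' {X A : Type*} [TopologicalSpace X] [AddCommGroup A] {n : ℕ} (u : H n X A) :
    H.pb (ContinuousMap.id X) u = u := by
  obtain ⟨z, rfl⟩ := H.mk_surjective n u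
  rw [H.pb_mk]
  congr 1

theorem H.pb_pb' {X Y Z A : Type*} [TopologicalSpace X] [TopologicalSpace Y] [TopologicalSpace Z]
    [AddCommGroup A] {n : ℕ} (f : C(X, Y)) (g : C(Y, Z)) (u : H n Z A) :
    H.pb f (H.pb g u) = H.pb (g.comp f) u := by
  obtain ⟨z, rfl⟩ := H.mk_surjective n u
  rw [H.pb_mk, H.pb_mk, H.pb_mk]
  congr 1

/-- The cohomology of a point vanishes in positive degrees (for spaces with at most one point). -/
theorem H.eq_zero_of_subsingleton' {X A : Type*} [TopologicalSpace X] [Subsingleton X]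
    [AddCommGroup A] {n : ℕ} (hn : 1 ≤ n) (u : H n X A) : u = 0 := by
  obtain ⟨m, rfl⟩ : ∃ m, n = m + 1 := ⟨n - 1, by omega⟩
  exact H.eq_zero_of_subsingleton m u

/-! ### Maps to trivial bundles -/

/-- Composition of a map to a trivial bundle with a continuous family of matrices. -/
def TMap.mul {r : ℕ} {X : Type} [TopologicalSpace X] {V : CVB r X} {ι κ : Type} [Fintype ι]
    [Fintype κ] (G : TMap V ι) (T : X → Matrix κ ι ℂ) (hT : Continuous T) : TMap V κ where
  app x := (T x).mulVecLin ∘ₗ G.app x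
  cont := (hT.comp (FiberBundle.continuous_proj _ _)).matrix_mulVec G.cont

theorem CVB.embeddable_of_TMap {r : ℕ} {X : Type} [TopologicalSpace X] {V : CVB r X} {ι : Type}
    [Fintype ι] (G : TMap V ι) (hG : ∀ x, Function.Injective (G.app x)) : V.Embeddable := by
  classical
  refine ⟨Fintype.card ι, ⟨fun x => (LinearMap.funLeft ℂ ℂ (Fintype.equivFin ι).symm) ∘ₗ G.app x,
    ?_⟩, ?_⟩
  · refine continuous_pi (fun a => ?_)
    exact (continuous_apply ((Fintype.equivFin ι).symm a)).comp G.cont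
  · intro x v w h
    apply hG x
    funext a
    have := congrFun h (Fintype.equivFin ι a)
    simpa [LinearMap.funLeft_apply] using this

namespace PF

variable {r s : ℕ} {X Y : Type} [TopologicalSpace X] [TopologicalSpace Y]
  {ι κ : Type} [Fintype ι] [DecidableEq ι] [Fintype κ] [DecidableEq κ]

theorem embeddable (p : PF r X ι) : p.imB.Embeddable :=
  CVB.embeddable_of_TMap p.toT p.toT_injective

/-- Pullback of a family of projections. -/
def pb (p : PF r X ι) (f : C(Y, X)) : PF r Y ι where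
  P y := p.P (f y)
  cont := p.cont.comp f.continuous
  herm _ := p.herm _
  idem _ := p.idem _
  tr _ := p.tr _

@[simp] theorem pb_P (p : PF r X ι) (f : C(Y, X)) (y : Y) : (p.pb f).P y = p.P (f y) := rfl

/-- The map of bundles of images given by a continuous family of matrices. -/
def bmap (p : PF r X ι) (q : PF s Y κ) (f : C(X, Y)) (T : X → Matrix κ ι ℂ) (hT : Continuous T)
    (h : ∀ x v, p.P x *ᵥ v = v → q.P (f x) *ᵥ (T x *ᵥ v) = T x *ᵥ v) :
    BMap p.imB q.imB f :=
  q.lift p.imB f (p.toT.mul T hT) (fun x v => h x _ (p.P_mulVec_toT x v))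

theorem toT_bmap (p : PF r X ι) (q : PF s Y κ) (f : C(X, Y)) (T : X → Matrix κ ι ℂ)
    (hT : Continuous T) (h : ∀ x v, p.P x *ᵥ v = v → q.P (f x) *ᵥ (T x *ᵥ v) = T x *ᵥ v) (x : X)
    (v : p.imB.fib x) :
    q.toT.app (f x) ((p.bmap q f T hT h).app x v) = T x *ᵥ p.toT.app x v :=
  q.toT_lift _ _ _ _ _ _

end PF

/-- A map between bundles of the same rank which is injective on the fibres is bijective on the
fibres. -/
theorem BMap.bijective_of_injective {r : ℕ} {X Y : Type} [TopologicalSpace X] [TopologicalSpace Y]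
    {V : CVB r X} {W : CVB r Y} {f : C(X, Y)} (F : BMap V W f) {x : X}
    (h : Function.Injective (F.app x)) : Function.Bijective (F.app x) := by
  have e1 : V.fib x ≃ₗ[ℂ] (Fin r → ℂ) := (VectorBundle.continuousLinearEquivAt ℂ (Fin r → ℂ) V.fib x).toLinearEquiv
  have e2 : W.fib (f x) ≃ₗ[ℂ] (Fin r → ℂ) :=
    (VectorBundle.continuousLinearEquivAt ℂ (Fin r → ℂ) W.fib (f x)).toLinearEquiv
  have f1 : Module.Finite ℂ (V.fib x) := Module.Finite.equiv e1.symm
  have f2 : Module.Finite ℂ (W.fib (f x)) := Module.Finite.equiv e2.symm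
  refine ⟨h, ?_⟩
  rw [← LinearMap.injective_iff_surjective_of_finrank_eq_finrank]
  · exact h
  · rw [e1.finrank_eq, e2.finrank_eq]

/-- The `i`-th Chern class of the bundle of images of a family of projections. -/
def cP (𝒞 : ChernTheory) {r : ℕ} {X : Type} [TopologicalSpace X] {ι : Type} [Fintype ι]
    [DecidableEq ι] (p : PF r X ι) (i : ℕ) : H (2 * i) X ℤ := 𝒞.c p.imB i

section cP

variable (𝒞 : ChernTheory) {r s t : ℕ} {X Y : Type} [TopologicalSpace X] [TopologicalSpace Y]
  {ι κ : Type} [Fintype ι] [DecidableEq ι] [Fintype κ] [DecidableEq κ]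

theorem cP_zero (p : PF r X ι) : cP 𝒞 p 0 = H.one := 𝒞.c_zero _ p.embeddable

theorem cP_gt (p : PF r X ι) {i : ℕ} (h : r < i) : cP 𝒞 p i = 0 := 𝒞.c_gt _ p.embeddable i h

/-- The Chern classes of a bundle which is embedded with the given images. -/
theorem c_eq_cP (V : CVB r X) (p : PF r X ι) (G : TMap V ι)
    (hinj : ∀ x, Function.Injective (G.app x))
    (hrng : ∀ x v, p.P x *ᵥ G.app x v = G.app x v) (i : ℕ) : 𝒞.c V i = cP 𝒞 p i := by
  have hinj' : ∀ x, Function.Injective ((p.lift V (ContinuousMap.id X) G hrng).app x) := by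
    intro x v w h
    apply hinj x
    have h2 := congrArg (p.toT.app x) h
    exact ((p.toT_lift V (ContinuousMap.id X) G hrng x v).symm.trans h2).trans
      (p.toT_lift V (ContinuousMap.id X) G hrng x w)
  have h := 𝒞.natural V p.imB (ContinuousMap.id X) (p.lift V (ContinuousMap.id X) G hrng)
    p.embeddable (fun x => BMap.bijective_of_injective _ (hinj' x)) i
  rw [H.pb_id'] at h
  exact h

/-- Naturality and invariance under isomorphisms in one statement. -/
theorem cP_map (p : PF r X ι) (q : PF r Y κ) (f : C(X, Y)) (T : X → Matrix κ ι ℂ)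
    (hT : Continuous T) (h1 : ∀ x v, p.P x *ᵥ v = v → q.P (f x) *ᵥ (T x *ᵥ v) = T x *ᵥ v)
    (h2 : ∀ x v, p.P x *ᵥ v = v → T x *ᵥ v = 0 → v = 0) (i : ℕ) :
    cP 𝒞 p i = H.pb f (cP 𝒞 q i) := by
  refine 𝒞.natural p.imB q.imB f (p.bmap q f T hT h1) q.embeddable (fun x => ?_) i
  apply BMap.bijective_of_injective
  rw [← LinearMap.ker_eq_bot, LinearMap.ker_eq_bot']
  intro v hv
  apply p.toT_injective x
  rw [map_zero]
  apply h2 x _ (p.P_mulVec_toT x v)
  rw [← p.toT_bmap q f T hT h1 x v, hv, map_zero]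

/-- Naturality. -/
theorem cP_pb (q : PF r Y ι) (f : C(X, Y)) (i : ℕ) : cP 𝒞 (q.pb f) i = H.pb f (cP 𝒞 q i) :=
  cP_map 𝒞 (q.pb f) q f (fun _ => 1) continuous_const
    (fun x v h => by rw [Matrix.one_mulVec]; exact h)
    (fun x v _ h => by rwa [Matrix.one_mulVec] at h) i

/-- Invariance under isomorphisms. -/
theorem cP_congr (p : PF r X ι) (q : PF r X κ) (T : X → Matrix κ ι ℂ)
    (hT : Continuous T) (h1 : ∀ x v, p.P x *ᵥ v = v → q.P x *ᵥ (T x *ᵥ v) = T x *ᵥ v)
    (h2 : ∀ x v, p.P x *ᵥ v = v → T x *ᵥ v = 0 → v = 0) (i : ℕ) :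
    cP 𝒞 p i = cP 𝒞 q i := by
  rw [cP_map 𝒞 p q (ContinuousMap.id X) T hT h1 h2 i, H.pb_id']

/-- Families of projections which are pointwise equal. -/
theorem cP_congr_P (p q : PF r X ι) (h : ∀ x, p.P x = q.P x) (i : ℕ) :
    cP 𝒞 p i = cP 𝒞 q i :=
  cP_congr 𝒞 p q (fun _ => 1) continuous_const
    (fun x v hv => by rw [Matrix.one_mulVec, ← h]; exact hv)
    (fun x v _ h => by rwa [Matrix.one_mulVec] at h) i

/-- The **Whitney sum formula** for `P = P₁ + P₂`. -/
theorem cP_whitney (p : PF t X ι) (p₁ : PF r X ι) (p₂ : PF s X ι)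
    (h : ∀ x, p.P x = p₁.P x + p₂.P x) (k : ℕ) :
    cP 𝒞 p k = ∑ i : Fin (k + 1),
      H.cup (p := 2 * (i : ℕ)) (q := 2 * (k - (i : ℕ))) (n := 2 * k) (by omega)
        (cP 𝒞 p₁ (i : ℕ)) (cP 𝒞 p₂ (k - (i : ℕ))) := by
  -- orthogonality
  have hor : ∀ x, p₁.P x * p₂.P x = 0 ∧ p₂.P x * p₁.P x = 0 := by
    intro x
    have e := p.idem x
    rw [h x] at e
    set a := p₁.P x with ha
    set b := p₂.P x with hb
    have ia : a * a = a := p₁.idem x
    have ib : b * b = b := p₂.idem x
    have e1 : a * b + b * a = 0 := by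
      have : (a + b) * (a + b) = a * a + b * b + (a * b + b * a) := by noncomm_ring
      rw [this, ia, ib] at e
      exact left_eq_add.mp e.symm
    have e2 : a * b = - (a * b * a) := by
      have := congrArg (fun m => a * m) e1
      simp only [mul_add, mul_zero, ← mul_assoc, ia] at this
      exact eq_neg_of_add_eq_zero_left this
    have e3 : a * b * a = 0 := by
      have h3 : a * b * a = - (a * b * a) := by
        have := congrArg (fun m => m * a) e2
        simp only [neg_mul, mul_assoc, ia] at this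
        simpa only [mul_assoc] using this
      ext i j
      have := congrFun (congrFun h3 i) j
      exact self_eq_neg.mp this
    have e4 : a * b = 0 := by rw [e2, e3, neg_zero]
    refine ⟨e4, ?_⟩
    rw [e4, zero_add] at e1
    exact e1
  have hm1 : ∀ x v, p₁.P x *ᵥ v = v → p.P x *ᵥ v = v := by
    intro x v hv
    rw [h x, Matrix.add_mulVec, hv]
    have : p₂.P x *ᵥ v = 0 := by
      rw [← hv, Matrix.mulVec_mulVec, (hor x).2, Matrix.zero_mulVec]
    rw [this, add_zero]
  have hm2 : ∀ x v, p₂.P x *ᵥ v = v → p.P x *ᵥ v = v := by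
    intro x v hv
    rw [h x, Matrix.add_mulVec, hv]
    have : p₁.P x *ᵥ v = 0 := by
      rw [← hv, Matrix.mulVec_mulVec, (hor x).1, Matrix.zero_mulVec]
    rw [this, zero_add]
  let F₁ : BMap p₁.imB p.imB (ContinuousMap.id X) := p₁.bmap p (ContinuousMap.id X) (fun _ => 1)
    continuous_const (fun x v hv => by rw [Matrix.one_mulVec]; exact hm1 x v hv)
  let F₂ : BMap p₂.imB p.imB (ContinuousMap.id X) := p₂.bmap p (ContinuousMap.id X) (fun _ => 1)
    continuous_const (fun x v hv => by rw [Matrix.one_mulVec]; exact hm2 x v hv)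
  have hF₁ : ∀ x v, p.toT.app (ContinuousMap.id X x) (F₁.app x v) = p₁.toT.app x v := by
    intro x v
    have := p₁.toT_bmap p (ContinuousMap.id X) (fun _ => 1) continuous_const
      (fun x v hv => by rw [Matrix.one_mulVec]; exact hm1 x v hv) x v
    rw [Matrix.one_mulVec] at this
    exact this
  have hF₂ : ∀ x v, p.toT.app (ContinuousMap.id X x) (F₂.app x v) = p₂.toT.app x v := by
    intro x v
    have := p₂.toT_bmap p (ContinuousMap.id X) (fun _ => 1) continuous_const
      (fun x v hv => by rw [Matrix.one_mulVec]; exact hm2 x v hv) x v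
    rw [Matrix.one_mulVec] at this
    exact this
  refine 𝒞.whitney p.imB p₁.imB p₂.imB F₁ F₂ p.embeddable (fun x => ?_) k
  have k12 : ∀ v, p₁.P x *ᵥ p₂.toT.app x v = 0 := by
    intro v
    rw [← p₂.P_mulVec_toT x v, Matrix.mulVec_mulVec, (hor x).1, Matrix.zero_mulVec]
  have k21 : ∀ v, p₂.P x *ᵥ p₁.toT.app x v = 0 := by
    intro v
    rw [← p₁.P_mulVec_toT x v, Matrix.mulVec_mulVec, (hor x).2, Matrix.zero_mulVec]
  constructor
  · rintro ⟨v₁, v₂⟩ ⟨w₁, w₂⟩ hvw
    have hvw' := congrArg (p.toT.app (ContinuousMap.id X x)) hvw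
    simp only at hvw'
    rw [map_add, map_add, hF₁ x v₁, hF₂ x v₂, hF₁ x w₁, hF₂ x w₂] at hvw'
    have a1 := congrArg (fun u => p₁.P x *ᵥ u) hvw'
    have a2 := congrArg (fun u => p₂.P x *ᵥ u) hvw'
    simp only [Matrix.mulVec_add, k12, k21, p₁.P_mulVec_toT, p₂.P_mulVec_toT, add_zero,
      zero_add] at a1 a2
    rw [p₁.toT_injective x a1, p₂.toT_injective x a2]
  · intro u
    obtain ⟨v₁, hv₁⟩ := p₁.exists_toT
      (p₁.mulVec_mem_rng x (p.toT.app (ContinuousMap.id X x) u))
    obtain ⟨v₂, hv₂⟩ := p₂.exists_toT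
      (p₂.mulVec_mem_rng x (p.toT.app (ContinuousMap.id X x) u))
    refine ⟨(v₁, v₂), ?_⟩
    apply p.toT_injective (ContinuousMap.id X x)
    simp only
    rw [map_add, hF₁ x v₁, hF₂ x v₂, hv₁, hv₂, ← Matrix.add_mulVec, ← h x]
    exact p.P_mulVec_toT x u

/-- The Chern classes of a constant family vanish in positive degrees. -/
theorem cP_const (p : PF r X ι) (h : ∀ x y, p.P x = p.P y) {i : ℕ} (hi : 1 ≤ i) :
    cP 𝒞 p i = 0 := by
  by_cases hX : Nonempty X
  · obtain ⟨x₀⟩ := hX
    let q : PF r Unit ι := p.pb (ContinuousMap.const _ x₀)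
    have e : cP 𝒞 p i = cP 𝒞 (q.pb (ContinuousMap.const X ())) i :=
      cP_congr_P 𝒞 _ _ (fun x => h x x₀) i
    rw [e, cP_pb, H.eq_zero_of_subsingleton' (show 1 ≤ 2 * i by omega) (cP 𝒞 q i), map_zero]
  · have : Subsingleton X := ⟨fun x => (hX ⟨x⟩).elim⟩
    exact H.eq_zero_of_subsingleton' (show 1 ≤ 2 * i by omega) _

end cP

/-- The constant family `1`. -/
def PF.one (r : ℕ) (X : Type) [TopologicalSpace X] : PF r X (Fin r) where
  P _ := 1
  cont := continuous_const
  herm _ := Matrix.conjTranspose_one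
  idem _ := one_mul _
  tr _ := by simp

section cP

variable (𝒞 : ChernTheory) {r s t : ℕ} {X Y : Type} [TopologicalSpace X] [TopologicalSpace Y]
  {ι κ : Type} [Fintype ι] [DecidableEq ι] [Fintype κ] [DecidableEq κ]

/-- The Chern classes of a family with a global trivialisation vanish in positive degrees. -/
theorem cP_eq_zero_of_trivial (p : PF r X ι) (T : X → Matrix (Fin r) ι ℂ) (hT : Continuous T)
    (h : ∀ x v, p.P x *ᵥ v = v → T x *ᵥ v = 0 → v = 0) {i : ℕ} (hi : 1 ≤ i) :
    cP 𝒞 p i = 0 := by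
  rw [cP_congr 𝒞 p (PF.one r X) T hT (fun x v _ => Matrix.one_mulVec _) h i]
  exact cP_const 𝒞 _ (fun _ _ => rfl) hi

end cP

/-- The tautological family over the projective line. -/
def PF.taut : PF 1 CP1 (Fin 2) where
  P x := x.1
  cont := continuous_subtype_val
  herm x := x.2.1
  idem x := x.2.2.1
  tr x := by rw [x.2.2.2, Nat.cast_one]

/-- **Normalisation**: `c_1` of the tautological family generates `H²(ℂP¹;ℤ)`. -/
theorem cP_taut (𝒞 : ChernTheory) (u : H (2 * 1) CP1 ℤ) :
    ∃ n : ℤ, u = n • cP 𝒞 PF.taut 1 :=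
  𝒞.normalization PF.taut.imB PF.taut.toT
    (fun P => ⟨PF.taut.toT_injective P, PF.taut.range_toT P⟩) u

end

end Pool.Agent.Lib.MP_904b2a_gt
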