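import Pool.Agent.Lib.MP_904b2a_gt.H74.NonVan

/-!
# MP_904b2a_gt, module CHE (helper74): the cohomological dimension of `S¹ × (ℂP¹)^j`
-/

open scoped BigOperators Matrix
open Set

namespace Pool.Agent.Lib.MP_904b2a_gt

open H83

noncomputable section

/-- The integral cohomology vanishes above the degree `d`. -/
def DimLe (d : ℕ) (X : Type) [TopologicalSpace X] : Prop := ∀ n, d < n → ∀ u : H n X ℤ, u = 0

section

variable {X Y : Type} [TopologicalSpace X] [TopologicalSpace Y]

theorem DimLe.mono {d e : ℕ} (h : DimLe d X) (hde : d ≤ e) : DimLe e X :=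
  fun n hn u => h n (by omega) u

theorem DimLe.of_retract {d : ℕ} (h : DimLe d Y) (f : C(X, Y)) (g : C(Y, X))
    (hgf : g.comp f = ContinuousMap.id X) : DimLe d X := by
  intro n hn u
  rw [← H.pb_id u, ← hgf, ← H.pb_comp, h n hn (H.pb g u), map_zero]

theorem DimLe.of_subsingleton [Subsingleton X] : DimLe 0 X := by
  intro n hn u
  exact H.eq_zero_of_subsingleton' hn u

theorem DimLe.of_split {I : Type} [TopologicalSpace I] {q : ℕ} {κ : H q I ℤ}
    (hκ : Split2 I (T.of q κ)) {d : ℕ} (h : DimLe d X) : DimLe (d + q) (X × I) := by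
  intro n hn u
  obtain ⟨⟨a, b⟩, hab⟩ := (hκ X).2 (T.of n u)
  simp only at hab
  have h1 := congrFun hab n
  rw [T.of_self, T.add_apply, T.map_apply, h n (by omega) (a n), map_zero, zero_add,
    T.mul_apply] at h1
  rw [← h1]
  refine Finset.sum_eq_zero (fun p hp => ?_)
  rw [Finset.HasAntidiagonal.mem_antidiagonal] at hp
  by_cases h2 : p.1 = q
  · have h3 : (T.map (pr1 X I) b) p.2 = 0 := by
      rw [T.map_apply, h p.2 (by omega) (b p.2), map_zero]
    rw [h3, map_zero]
  · have h3 : (T.map (pr2 X I) (T.of q κ)) p.1 = 0 := by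
      rw [T.map_apply, T.of_ne h2, map_zero]
    rw [h3, map_zero, AddMonoidHom.zero_apply]

end

theorem exists_split_CP1 : ∃ c : H 2 CP1 ℤ, Split2 CP1 (T.of 2 c) := by
  obtain ⟨c, hc⟩ := exists_split_BB1
  have h := hc.of_bij ofCP1 (fun X _ => idX_bij_of_homotopic (g := toCP1)
    (by rw [toCP1_ofCP1]) (by rw [ofCP1_toCP1]) X)
  rw [T.map_of] at h
  exact ⟨_, h⟩

theorem dimLe_fin : ∀ j : ℕ, DimLe (2 * j) (Fin j → CP1)
  | 0 => DimLe.of_subsingleton
  | (j + 1) => by
    obtain ⟨c, hc⟩ := exists_split_CP1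
    exact (DimLe.of_split hc (dimLe_fin j)).of_retract (zsplit j) (zjoin j) (zjoin_zsplit j)

/-- Reindexing. -/
def rdx {ι κ : Type} (e : ι → κ) : C(κ → CP1, ι → CP1) :=
  ⟨fun z i => z (e i), continuous_pi fun i => continuous_apply (e i)⟩

theorem dimLe_pi (ι : Type) [Fintype ι] : DimLe (2 * Fintype.card ι) (ι → CP1) := by
  have e := Fintype.equivFin ι
  refine (dimLe_fin (Fintype.card ι)).of_retract (rdx e.symm) (rdx e) ?_
  ext z : 1
  funext i
  change z (e.symm (e i)) = z i
  rw [e.symm_apply_apply]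

theorem DimLe.circle_prod {X : Type} [TopologicalSpace X] {d : ℕ} (h : DimLe d X) :
    DimLe (d + 1) (Circle × X) := by
  obtain ⟨θ, hθ⟩ := exists_split_Circle
  refine (DimLe.of_split hθ h).of_retract (⟨fun p => (p.2, p.1), by fun_prop⟩ : C(Circle × X,
    X × Circle)) (⟨fun p => (p.2, p.1), by fun_prop⟩) ?_
  rfl

/-- The dimension of `S¹ × (ℂP¹)^ι`. -/
theorem dimLe_circle_pi (ι : Type) [Fintype ι] :
    DimLe (2 * Fintype.card ι + 1) (Circle × (ι → CP1)) := (dimLe_pi ι).circle_prod

theorem fU_one {Y : Type} [TopologicalSpace Y] {ι : Type} [Fintype ι] [DecidableEq ι]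
    (L : PF 1 Y ι) (y : Y) : fU L (1, y) = 1 := by
  apply Subtype.ext
  rw [fU_val]
  change cv 1 • L.P y + (1 : ℂ) • (1 - L.P y) = 1
  have h : cv 1 = 1 := rfl
  rw [h, one_smul, one_smul]
  abel

theorem fZ_one (j : ℕ) (z : Fin j → CP1) : fZ j (1, z) = 1 := fU_one _ z

/-- The map which replaces the `k`-th coordinate by the point `p`. -/
def updZ {j : ℕ} (k : Fin j) (p : CP1) : C(Circle × (Fin j → CP1), Circle × (Fin j → CP1)) :=
  ⟨fun q => (q.1, Function.update q.2 k p), by fun_prop⟩

/-- The map which replaces the coordinate in the circle by the point `t`. -/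
def updC (j : ℕ) (t : Circle) : C(Circle × (Fin j → CP1), Circle × (Fin j → CP1)) :=
  ⟨fun q => (t, q.2), by fun_prop⟩

/-- **Vanishing** of classes of degree `≥ 2 j` after the replacement of a coordinate. -/
theorem pb_updZ {j : ℕ} (k : Fin j) (p : CP1) {n : ℕ} (hn : 2 * j ≤ n)
    (u : H n (Circle × (Fin j → CP1)) ℤ) : H.pb (updZ k p) u = 0 := by
  let r : C(Circle × (Fin j → CP1), Circle × ({l : Fin j // l ≠ k} → CP1)) :=
    ⟨fun q => (q.1, fun l => q.2 l.1), by fun_prop⟩
  let i : C(Circle × ({l : Fin j // l ≠ k} → CP1), Circle × (Fin j → CP1)) :=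
    ⟨fun q => (q.1, fun l => if h : l ≠ k then q.2 ⟨l, h⟩ else p), by
      refine continuous_fst.prodMk (continuous_pi fun l => ?_)
      by_cases h : l ≠ k
      · simp only [dif_pos h]
        exact (continuous_apply (⟨l, h⟩ : {l : Fin j // l ≠ k})).comp continuous_snd
      · simp only [dif_neg h]
        exact continuous_const⟩
  have e : updZ k p = i.comp r := by
    ext q : 1
    refine Prod.ext rfl ?_
    funext l
    change Function.update q.2 k p l = if h : l ≠ k then q.2 l else p
    by_cases h : l = k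
    · subst h
      simp
    · rw [Function.update_of_ne h, dif_pos h]
  have hd := dimLe_circle_pi {l : Fin j // l ≠ k}
  have hcard : Fintype.card {l : Fin j // l ≠ k} = j - 1 := by
    rw [Fintype.card_subtype_compl, Fintype.card_fin, Fintype.card_subtype_eq]
  rw [hcard] at hd
  have hj : 1 ≤ j := by
    have := k.2
    omega
  rw [e, ← H.pb_comp, hd n (by omega) (H.pb i u), map_zero]

/-- **Vanishing** of classes of degree `> 2 j` after the replacement of the coordinate in the
circle. -/
theorem pb_updC (j : ℕ) (t : Circle) {n : ℕ} (hn : 2 * j < n)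
    (u : H n (Circle × (Fin j → CP1)) ℤ) : H.pb (updC j t) u = 0 := by
  let r : C(Circle × (Fin j → CP1), Fin j → CP1) := ⟨Prod.snd, continuous_snd⟩
  let i : C(Fin j → CP1, Circle × (Fin j → CP1)) := ⟨fun z => (t, z), by fun_prop⟩
  have e : updC j t = i.comp r := rfl
  rw [e, ← H.pb_comp, dimLe_fin j n hn (H.pb i u), map_zero]

end

end Pool.Agent.Lib.MP_904b2a_gt
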