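import Pool.Agent.Lib.MP_904b2a_gt.H74.ProjFam

/-!
# MP_904b2a_gt, module BUN (helper74), part 2: the bundle of images of a family of projections
-/

open scoped BigOperators Matrix
open Module Bundle

namespace Pool.Agent.Lib.MP_904b2a_gt

noncomputable section

namespace PF

variable {r : ℕ} {X : Type} [TopologicalSpace X] {ι : Type} [Fintype ι] [DecidableEq ι]

/-- The vector bundle core of the bundle of images. -/
def core (p : PF r X ι) : VectorBundleCore ℂ X (Fin r → ℂ) X where
  baseSet := p.dom
  isOpen_baseSet := p.isOpen_dom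
  indexAt := id
  mem_baseSet_at := p.self_mem_dom
  coordChange i j x := LinearMap.toContinuousLinearMap (p.C j * p.fr i x).mulVecLin
  coordChange_self i x hx v := by
    change (p.C i * p.fr i x) *ᵥ v = v
    rw [← Matrix.mulVec_mulVec, p.C_mulVec_fr hx]
  continuousOn_coordChange i j := by
    let L : Matrix (Fin r) (Fin r) ℂ →ₗ[ℂ] ((Fin r → ℂ) →L[ℂ] (Fin r → ℂ)) :=
      LinearMap.toContinuousLinearMap.toLinearMap ∘ₗ
        (Matrix.toLin' : Matrix (Fin r) (Fin r) ℂ ≃ₗ[ℂ] _).toLinearMap
    have hL : Continuous L := L.continuous_of_finiteDimensional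
    have h1 : ContinuousOn (fun x => p.C j * p.fr i x) (p.dom i) := by
      have h2 := p.continuousOn_fr i
      rw [continuousOn_iff_continuous_domRestrict] at h2 ⊢
      exact continuous_const.matrix_mul h2
    exact hL.comp_continuousOn (h1.mono Set.inter_subset_left)
  coordChange_comp i j k x hx v := by
    change (p.C k * p.fr j x) *ᵥ ((p.C j * p.fr i x) *ᵥ v) = (p.C k * p.fr i x) *ᵥ v
    rw [← Matrix.mulVec_mulVec, ← Matrix.mulVec_mulVec, ← Matrix.mulVec_mulVec,
      p.fr_mulVec_C hx.1.2 (p.fr_mulVec_mem i x v)]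

/-- The vector of `ℂ^ι` given by a point of the total space. -/
def vec (p : PF r X ι) (q : p.core.TotalSpace) : ι → ℂ :=
  (p.fr q.1 q.1).mulVecLin (show Fin r → ℂ from q.2)

theorem vec_mem (p : PF r X ι) (q : p.core.TotalSpace) : p.vec q ∈ p.rng q.1 :=
  p.fr_mulVec_mem _ _ _

/-- The local coordinates of a point of the total space. -/
def crd (p : PF r X ι) (i : X) (q : p.core.TotalSpace) : Fin r → ℂ := (p.core.localTriv i q).2

theorem crd_eq (p : PF r X ι) (i : X) (q : p.core.TotalSpace) :
    p.crd i q = p.C i *ᵥ p.vec q := by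
  change (p.C i * p.fr q.1 q.1) *ᵥ (show Fin r → ℂ from q.2) =
    p.C i *ᵥ (p.fr q.1 q.1 *ᵥ (show Fin r → ℂ from q.2))
  rw [← Matrix.mulVec_mulVec]

theorem fr_mulVec_crd (p : PF r X ι) (i : X) (q : p.core.TotalSpace) (h : q.1 ∈ p.dom i) :
    p.fr i q.1 *ᵥ p.crd i q = p.vec q := by
  rw [p.crd_eq, p.fr_mulVec_C h (p.vec_mem q)]

theorem continuousOn_crd (p : PF r X ι) (i : X) :
    ContinuousOn (p.crd i) (p.core.localTriv i).source :=
  continuous_snd.comp_continuousOn (p.core.localTriv i).continuousOn

theorem continuous_vec (p : PF r X ι) : Continuous p.vec := by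
  rw [continuous_iff_continuousAt]
  intro q₀
  set i : X := q₀.1 with hi
  have hU : (p.core.localTriv i).source ∈ nhds q₀ :=
    (p.core.localTriv i).open_source.mem_nhds (p.self_mem_dom i)
  have h1 : ContinuousOn (fun q : p.core.TotalSpace => p.fr i q.1 *ᵥ p.crd i q)
      (p.core.localTriv i).source := by
    have h2 := p.continuousOn_crd i
    have h3 : ContinuousOn (fun q : p.core.TotalSpace => p.fr i q.1)
        (p.core.localTriv i).source :=
      (p.continuousOn_fr i).comp p.core.continuous_proj.continuousOn (fun q hq => hq)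
    rw [continuousOn_iff_continuous_domRestrict] at h2 h3 ⊢
    exact h3.matrix_mulVec h2
  exact (h1.continuousAt hU).congr
    (Filter.eventually_of_mem hU (fun q hq => p.fr_mulVec_crd i q hq))

/-- **The bundle of images** of a continuous family of orthogonal projections. -/
def imB (p : PF r X ι) : CVB r X where
  fib := p.core.Fiber

/-- The inclusion of the bundle of images into the trivial bundle with fibre `ℂ^ι`. -/
def toT (p : PF r X ι) : TMap p.imB ι where
  app x := (p.fr x x).mulVecLin
  cont := p.continuous_vec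

theorem toT_injective (p : PF r X ι) (x : X) : Function.Injective (p.toT.app x) :=
  p.fr_injective (p.self_mem_dom x)

theorem range_toT (p : PF r X ι) (x : X) :
    Set.range (p.toT.app x) = Set.range (fun v => p.P x *ᵥ v) :=
  p.range_fr (p.self_mem_dom x)

theorem P_mulVec_toT (p : PF r X ι) (x : X) (v : p.imB.fib x) :
    p.P x *ᵥ p.toT.app x v = p.toT.app x v :=
  p.P_mulVec_fr x x v

theorem toT_mem (p : PF r X ι) (x : X) (v : p.imB.fib x) : p.toT.app x v ∈ p.rng x :=
  p.fr_mulVec_mem x x v

theorem exists_toT (p : PF r X ι) {x : X} {v : ι → ℂ} (hv : v ∈ p.rng x) :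
    ∃ w, p.toT.app x w = v :=
  ⟨p.C x *ᵥ v, p.fr_mulVec_C (p.self_mem_dom x) hv⟩

/-- The universal property of the bundle of images: a family of linear maps from the fibres of a
bundle `V` to the images of the projections gives a map of bundles. -/
def lift {s : ℕ} {Y : Type} [TopologicalSpace Y] (p : PF r X ι) (V : CVB s Y) (f : C(Y, X))
    (G : TMap V ι) (hG : ∀ y v, p.P (f y) *ᵥ G.app y v = G.app y v) : BMap V p.imB f where
  app y := (p.C (f y)).mulVecLin ∘ₗ G.app y
  cont := by
    have hvec : ∀ q : V.Tot,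
        p.vec (⟨f q.1, (p.C (f q.1)).mulVecLin (G.app q.1 q.2)⟩ : p.core.TotalSpace) =
          G.app q.1 q.2 := by
      intro q
      exact p.fr_mulVec_C (p.self_mem_dom _) (p.mem_rng.mpr (hG q.1 q.2))
    have hmain : Continuous (fun q : V.Tot =>
        (⟨f q.1, (p.C (f q.1)).mulVecLin (G.app q.1 q.2)⟩ : p.core.TotalSpace)) := by
      rw [continuous_iff_continuousAt]
      intro q₀
      rw [FiberBundle.continuousAt_totalSpace]
      constructor
      · exact (f.continuous.comp (FiberBundle.continuous_proj _ _)).continuousAt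
      · have h : (fun q : V.Tot => p.crd (f q₀.1)
            (⟨f q.1, (p.C (f q.1)).mulVecLin (G.app q.1 q.2)⟩ : p.core.TotalSpace)) =
            fun q : V.Tot => p.C (f q₀.1) *ᵥ G.app q.1 q.2 := by
          funext q
          rw [crd_eq, hvec]
        change ContinuousAt (fun q : V.Tot => p.crd (f q₀.1)
            (⟨f q.1, (p.C (f q.1)).mulVecLin (G.app q.1 q.2)⟩ : p.core.TotalSpace)) q₀
        rw [h]
        exact (continuous_const.matrix_mulVec G.cont).continuousAt
    exact hmain

theorem toT_lift {s : ℕ} {Y : Type} [TopologicalSpace Y] (p : PF r X ι) (V : CVB s Y)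
    (f : C(Y, X)) (G : TMap V ι) (hG : ∀ y v, p.P (f y) *ᵥ G.app y v = G.app y v) (y : Y)
    (v : V.fib y) : p.toT.app (f y) ((p.lift V f G hG).app y v) = G.app y v :=
  p.fr_mulVec_C (p.self_mem_dom _) (p.mem_rng.mpr (hG y v))

end PF

end

end Pool.Agent.Lib.MP_904b2a_gt
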