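import Pool.Agent.Lib.MP_904b2a_gt.H74.Norm
import Pool.Agent.Lib.MP_904b2a_gt.H83.CP

/-!
# MP_904b2a_gt, module CHE (helper74): the family of lines over `(ℂP¹)^j` in `ℂ^{j+1}`, given by
the multiplication of polynomials
-/

open scoped BigOperators Matrix Kronecker
open Set Polynomial

namespace Pool.Agent.Lib.MP_904b2a_gt

open H83

noncomputable section

/-- The matrix of the multiplication of polynomials of degree `≤ j` with polynomials of
degree `≤ 1`. -/
def polyB (j : ℕ) : Matrix (Fin (j + 2)) (Fin (j + 1) × Fin 2) ℂ :=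
  Matrix.of fun d p => if (p.1 : ℕ) + (p.2 : ℕ) = (d : ℕ) then 1 else 0

/-- The tensor product of two vectors. -/
def tensV {ι κ : Type} (v : ι → ℂ) (e : κ → ℂ) : ι × κ → ℂ := fun p => v p.1 * e p.2

theorem kron_mulVec_tensV {ι κ ι' κ' : Type} [Fintype ι] [Fintype κ] (A : Matrix ι' ι ℂ)
    (B : Matrix κ' κ ℂ) (v : ι → ℂ) (e : κ → ℂ) :
    (A ⊗ₖ B) *ᵥ tensV v e = tensV (A *ᵥ v) (B *ᵥ e) := by
  funext p
  obtain ⟨a, b⟩ := p
  simp only [Matrix.mulVec, dotProduct, Matrix.kroneckerMap_apply, tensV, Fintype.sum_prod_type]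
  rw [Finset.sum_mul_sum]
  refine Finset.sum_congr rfl (fun i _ => Finset.sum_congr rfl (fun k _ => ?_))
  ring

theorem polyB_mulVec (j : ℕ) (u : Fin (j + 1) → ℂ) (v : Fin 2 → ℂ) (d : Fin (j + 2)) :
    (polyB j *ᵥ tensV u v) d =
      ∑ i : Fin (j + 1), ∑ k : Fin 2, if (i : ℕ) + (k : ℕ) = (d : ℕ) then u i * v k else 0 := by
  simp only [Matrix.mulVec, dotProduct, tensV, Fintype.sum_prod_type, polyB, Matrix.of_apply]
  refine Finset.sum_congr rfl (fun i _ => Finset.sum_congr rfl (fun k _ => ?_))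
  split_ifs <;> simp

/-- The polynomial ring has no zero divisors. -/
theorem polyB_ne_zero {j : ℕ} {u : Fin (j + 1) → ℂ} {v : Fin 2 → ℂ} (hu : u ≠ 0) (hv : v ≠ 0) :
    polyB j *ᵥ tensV u v ≠ 0 := by
  intro h
  set p : ℂ[X] := ∑ i : Fin (j + 1), monomial (i : ℕ) (u i) with hp
  set q : ℂ[X] := ∑ k : Fin 2, monomial (k : ℕ) (v k) with hq
  have hc : ∀ d : ℕ, (p * q).coeff d =
      ∑ i : Fin (j + 1), ∑ k : Fin 2, if (i : ℕ) + (k : ℕ) = d then u i * v k else 0 := by
    intro d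
    rw [hp, hq, Finset.sum_mul_sum, finsetSum_coeff]
    refine Finset.sum_congr rfl (fun i _ => ?_)
    rw [finsetSum_coeff]
    refine Finset.sum_congr rfl (fun k _ => ?_)
    rw [monomial_mul_monomial, coeff_monomial]
  have h0 : p * q = 0 := by
    ext d
    rw [hc, coeff_zero]
    by_cases hd : d < j + 2
    · have h2 := congrFun h ⟨d, hd⟩
      rw [polyB_mulVec] at h2
      exact h2
    · refine Finset.sum_eq_zero (fun i _ => Finset.sum_eq_zero (fun k _ => ?_))
      rw [if_neg]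
      have := i.2
      have := k.2
      omega
  have hpi : ∀ i : Fin (j + 1), p.coeff (i : ℕ) = u i := by
    intro i
    rw [hp, finsetSum_coeff, Finset.sum_eq_single i]
    · rw [coeff_monomial, if_pos rfl]
    · intro b _ hb
      rw [coeff_monomial, if_neg (fun h => hb (Fin.ext h))]
    · intro h
      exact absurd (Finset.mem_univ i) h
  have hqk : ∀ k : Fin 2, q.coeff (k : ℕ) = v k := by
    intro k
    rw [hq, finsetSum_coeff, Finset.sum_eq_single k]
    · rw [coeff_monomial, if_pos rfl]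
    · intro b _ hb
      rw [coeff_monomial, if_neg (fun h => hb (Fin.ext h))]
    · intro h
      exact absurd (Finset.mem_univ k) h
  rcases mul_eq_zero.mp h0 with h1 | h1
  · apply hu
    funext i
    rw [← hpi, h1, coeff_zero]
    rfl
  · apply hv
    funext k
    rw [← hqk, h1, coeff_zero]
    rfl

section

variable {Y : Type} [TopologicalSpace Y] {j : ℕ} (L : PF 1 Y (Fin (j + 1)))

/-- The family of tensor products. -/
def kronL : PF 1 (Y × CP1) (Fin (j + 1) × Fin 2) :=
  ((L.pb (pr1 Y CP1)).kron (PF.taut.pb (pr2 Y CP1))).castRank (one_mul 1)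

theorem kronL_P (y : Y × CP1) : (kronL L).P y = L.P y.1 ⊗ₖ y.2.mat := rfl

theorem PF.ne_zero {ι : Type} [Fintype ι] [DecidableEq ι] (p : PF 1 Y ι) (y : Y) : p.P y ≠ 0 := by
  intro h
  have h2 := p.tr y
  rw [h, Matrix.trace_zero, Nat.cast_one] at h2
  exact zero_ne_one h2

theorem CP1.mat_ne_zero (w : CP1) : w.mat ≠ 0 := by
  intro h
  have h2 := w.tr
  rw [h, Matrix.trace_zero] at h2
  exact zero_ne_one h2

/-- A nonzero matrix has a nonzero column. -/
theorem exists_col {ι κ : Type} {A : Matrix ι κ ℂ} (h : A ≠ 0) : ∃ a : κ, (fun i => A i a) ≠ 0 := by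
  by_contra hc
  push Not at hc
  apply h
  ext i a
  exact congrFun (hc a) i

theorem polyB_mul_ne_zero (y : Y × CP1) : polyB j * (kronL L).P y ≠ 0 := by
  obtain ⟨a, ha⟩ := exists_col (PF.ne_zero L y.1)
  obtain ⟨b, hb⟩ := exists_col (CP1.mat_ne_zero y.2)
  intro h
  apply polyB_ne_zero ha hb
  funext d
  have h2 := congrFun (congrFun h d) (a, b)
  exact h2

/-- The multiplication of lines of polynomials. -/
def symL : PF 1 (Y × CP1) (Fin (j + 2)) :=
  (uni 1 (Fin (j + 2))).pb ⟨fun y => CP.push (polyB j) (cls (kronL L) y) (polyB_mul_ne_zero L y),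
    CP.continuous_push continuous_const (cls (kronL L)).continuous (polyB_mul_ne_zero L)⟩

theorem symL_mul (y : Y × CP1) :
    (symL L).P y * (polyB j * (kronL L).P y) = polyB j * (kronL L).P y :=
  CP.push_mul (polyB j) (cls (kronL L) y) (polyB_mul_ne_zero L y)

theorem symL_mulVec (y : Y × CP1) (v : Fin (j + 1) → ℂ) (e : Fin 2 → ℂ) (hv : L.P y.1 *ᵥ v = v)
    (he : y.2.mat *ᵥ e = e) :
    (symL L).P y *ᵥ (polyB j *ᵥ tensV v e) = polyB j *ᵥ tensV v e := by
  have h1 : (kronL L).P y *ᵥ tensV v e = tensV v e := by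
    rw [kronL_P, kron_mulVec_tensV, hv, he]
  have h2 : polyB j *ᵥ tensV v e = (polyB j * (kronL L).P y) *ᵥ tensV v e := by
    rw [← Matrix.mulVec_mulVec, h1]
  rw [h2, Matrix.mulVec_mulVec, symL_mul]

/-- The multiplication with a fixed linear polynomial. -/
def polyR (j : ℕ) (e : Fin 2 → ℂ) : Matrix (Fin (j + 2)) (Fin (j + 1)) ℂ :=
  Matrix.of fun d i => ∑ k : Fin 2, polyB j d (i, k) * e k

theorem polyR_mulVec (j : ℕ) (e : Fin 2 → ℂ) (v : Fin (j + 1) → ℂ) :
    polyR j e *ᵥ v = polyB j *ᵥ tensV v e := by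
  funext d
  simp only [Matrix.mulVec, dotProduct, tensV, Fintype.sum_prod_type, polyR, Matrix.of_apply]
  refine Finset.sum_congr rfl (fun i _ => ?_)
  rw [Finset.sum_mul]
  refine Finset.sum_congr rfl (fun k _ => ?_)
  ring

/-- The multiplication with a fixed polynomial of degree `≤ j`. -/
def polyL (j : ℕ) (v : Fin (j + 1) → ℂ) : Matrix (Fin (j + 2)) (Fin 2) ℂ :=
  Matrix.of fun d k => ∑ i : Fin (j + 1), polyB j d (i, k) * v i

theorem polyL_mulVec (j : ℕ) (e : Fin 2 → ℂ) (v : Fin (j + 1) → ℂ) :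
    polyL j v *ᵥ e = polyB j *ᵥ tensV v e := by
  funext d
  simp only [Matrix.mulVec, dotProduct, tensV, Fintype.sum_prod_type, polyL, Matrix.of_apply]
  rw [Finset.sum_comm]
  refine Finset.sum_congr rfl (fun k _ => ?_)
  rw [Finset.sum_mul]
  refine Finset.sum_congr rfl (fun i _ => ?_)
  ring

theorem exists_vec {ι : Type} [Fintype ι] [DecidableEq ι] (A : Matrix ι ι ℂ) (hA : A * A = A)
    (h0 : A ≠ 0) : ∃ e : ι → ℂ, e ≠ 0 ∧ A *ᵥ e = e := by
  obtain ⟨a, ha⟩ := exists_col h0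
  refine ⟨_, ha, ?_⟩
  funext i
  exact congrFun (congrFun hA i) a

variable (𝒞 : ChernTheory)

/-- **The first Chern class of the product of lines.** -/
theorem c1_symL (w₀ : CP1) :
    c1 𝒞 (symL L) = T.map (pr1 Y CP1) (c1 𝒞 L) + T.map (pr2 Y CP1) (c1 𝒞 PF.taut) := by
  refine c1_of_slices 𝒞 (split_CP1 𝒞) w₀ (symL L) L ?_ ?_
  · obtain ⟨e, he0, he⟩ := exists_vec w₀.mat w₀.idem w₀.mat_ne_zero
    symm
    refine cP_congr 𝒞 _ _ (fun _ => polyR j e) continuous_const ?_ ?_ 1
    · intro y v hv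
      rw [polyR_mulVec]
      exact symL_mulVec L (y, w₀) v e hv he
    · intro y v _ h
      rw [polyR_mulVec] at h
      by_contra hv0
      exact polyB_ne_zero hv0 he0 h
  · intro y
    obtain ⟨v, hv0, hv⟩ := exists_vec (L.P y) (L.idem y) (PF.ne_zero L y)
    symm
    refine cP_congr 𝒞 _ _ (fun _ => polyL j v) continuous_const ?_ ?_ 1
    · intro w e he
      rw [polyL_mulVec]
      exact symL_mulVec L (y, w) v e hv he
    · intro w e _ h
      rw [polyL_mulVec] at h
      by_contra he0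
      exact polyB_ne_zero hv0 he0 h

end

/-! ## Powers of the first Chern class -/

/-- Powers of `x + t` if `t² = 0`. -/
theorem add_pow_of_sq {R : Type*} [Ring R] {x t : R} (hc : x * t = t * x) (ht : t * t = 0) (n : ℕ) :
    (x + t) ^ (n + 1) = x ^ (n + 1) + (n + 1) • (t * x ^ n) := by
  induction n with
  | zero => simp
  | succ n ih =>
    have h1 : t * x ^ n * t = 0 := by
      have h2 : x ^ n * t = t * x ^ n := (Commute.pow_left (show Commute x t from hc) n).eq
      rw [mul_assoc, h2, ← mul_assoc, ht, zero_mul]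
    have h3 : x ^ (n + 1) * t = t * x ^ (n + 1) :=
      (Commute.pow_left (show Commute x t from hc) (n + 1)).eq
    rw [pow_succ (x + t) (n + 1), ih, add_mul, mul_add, ← pow_succ, h3, smul_mul_assoc, mul_add,
      h1, add_zero, mul_assoc t, ← pow_succ, succ_nsmul _ (n + 1)]
    abel

theorem T.map_injective_of_left_inv {X Y : Type} [TopologicalSpace X] [TopologicalSpace Y]
    {f : C(X, Y)} {g : C(Y, X)} (h : f.comp g = ContinuousMap.id Y) :
    Function.Injective (T.map f) := by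
  intro a b hab
  have h2 := congrArg (T.map g) hab
  rwa [T.map_map, T.map_map, h, T.map_id, T.map_id] at h2

section

variable (𝒞 : ChernTheory)

theorem taut_sq : c1 𝒞 PF.taut * c1 𝒞 PF.taut = 0 := by
  apply T.map_injective_of_left_inv toCP1_ofCP1
  rw [map_mul, map_zero, ← c1_pb]
  exact (BB.susp (Fin 1)).mul_eq_zero (T.of_ne (by norm_num) _) (T.of_ne (by norm_num) _)

/-- A point of the projective line. -/
def pt₀ : CP1 := toCP1 (Classical.arbitrary (BB (Fin 1)))

instance : Nonempty CP1 := ⟨pt₀⟩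

/-- The powers of the first Chern class are as large as possible. -/
structure Big {Y : Type} [TopologicalSpace Y] {ι : Type} [Fintype ι] [DecidableEq ι] (j : ℕ)
    (L : PF 1 Y ι) : Prop where
  nt : ∀ m : ℤ, m ≠ 0 → m • (c1 𝒞 L) ^ j ≠ 0
  van : (c1 𝒞 L) ^ (j + 1) = 0

theorem Big.symL {Y : Type} [TopologicalSpace Y] {j : ℕ} {L : PF 1 Y (Fin (j + 1))}
    (h : Big 𝒞 j L) : Big 𝒞 (j + 1) (symL L) := by
  have hc := c1_symL L 𝒞 pt₀
  set x := T.map (pr1 Y CP1) (c1 𝒞 L) with hx
  set t := T.map (pr2 Y CP1) (c1 𝒞 PF.taut) with ht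
  have htt : t * t = 0 := by rw [ht, ← map_mul, taut_sq, map_zero]
  have hxt : x * t = t * x := by
    have h2 : T.IsHom 2 t := (c1_hom 𝒞 PF.taut).map _
    exact (T.comm_of_even even_two h2 x).symm
  have hp := fun n => add_pow_of_sq hxt htt n
  have hxn : ∀ n, x ^ n = T.map (pr1 Y CP1) (c1 𝒞 L ^ n) := fun n => by rw [hx, map_pow]
  constructor
  · intro m hm h0
    rw [hc, hp j, hxn, h.van, map_zero, zero_add, hxn] at h0
    have h3 := (split_CP1 𝒞).zero_of_eq_zero (X := Y) (a := 0)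
      (b := (m * ((j + 1 : ℕ) : ℤ)) • (c1 𝒞 L) ^ j) (by
        rw [map_zero, zero_add, map_zsmul, mul_smul_comm, mul_smul, natCast_zsmul]
        exact h0)
    exact h.nt (m * ((j + 1 : ℕ) : ℤ)) (mul_ne_zero hm (by exact_mod_cast Nat.succ_ne_zero j)) h3.2
  · rw [hc, hp (j + 1), hxn, hxn, h.van, map_zero, mul_zero, smul_zero, add_zero, pow_succ, h.van,
      zero_mul, map_zero]

theorem Big.pb {X Y : Type} [TopologicalSpace X] [TopologicalSpace Y] {ι : Type} [Fintype ι]
    [DecidableEq ι] {j : ℕ} {L : PF 1 Y ι} (h : Big 𝒞 j L) (f : C(X, Y)) (g : C(Y, X))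
    (hfg : f.comp g = ContinuousMap.id Y) : Big 𝒞 j (L.pb f) := by
  constructor
  · intro m hm h0
    rw [c1_pb, ← map_pow, ← map_zsmul] at h0
    apply h.nt m hm
    apply T.map_injective_of_left_inv hfg
    rw [h0, map_zero]
  · rw [c1_pb, ← map_pow, h.van, map_zero]

end

/-- Splitting off the last coordinate. -/
def zsplit (j : ℕ) : C(Fin (j + 1) → CP1, (Fin j → CP1) × CP1) :=
  ⟨fun z => (fun k => z k.castSucc, z (Fin.last j)),
    (continuous_pi fun k => continuous_apply k.castSucc).prodMk (continuous_apply (Fin.last j))⟩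

/-- Adding a last coordinate. -/
def zjoin (j : ℕ) : C((Fin j → CP1) × CP1, Fin (j + 1) → CP1) :=
  ⟨fun p => Fin.snoc (α := fun _ => CP1) p.1 p.2, by
    refine continuous_pi fun k => ?_
    refine Fin.lastCases ?_ (fun k => ?_) k
    · simp only [Fin.snoc_last]
      exact continuous_snd
    · simp only [Fin.snoc_castSucc]
      exact (continuous_apply k).comp continuous_fst⟩

theorem zsplit_zjoin (j : ℕ) : (zsplit j).comp (zjoin j) = ContinuousMap.id _ := by
  ext p : 1
  refine Prod.ext ?_ ?_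
  · funext k
    exact Fin.snoc_castSucc (α := fun _ => CP1) _ _ _
  · exact Fin.snoc_last (α := fun _ => CP1) _ _

theorem zjoin_zsplit (j : ℕ) : (zjoin j).comp (zsplit j) = ContinuousMap.id _ := by
  ext z : 1
  funext k
  refine Fin.lastCases ?_ (fun k => ?_) k
  · exact Fin.snoc_last (α := fun _ => CP1) _ _
  · exact Fin.snoc_castSucc (α := fun _ => CP1) _ _ _

/-- The family of lines over `(ℂP¹)^j` in `ℂ^{j+1}`. -/
def zL : ∀ j : ℕ, PF 1 (Fin j → CP1) (Fin (j + 1))
  | 0 => PF.one 1 _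
  | (j + 1) => (symL (zL j)).pb (zsplit j)

theorem big_zL (𝒞 : ChernTheory) : ∀ j : ℕ, Big 𝒞 j (zL j)
  | 0 => by
    constructor
    · intro m hm h0
      rw [pow_zero] at h0
      exact hm (T.one_torsion_free h0)
    · have h : cP 𝒞 (zL 0) 1 = 0 := cP_const 𝒞 _ (fun _ _ => rfl) le_rfl
      have h2 : c1 𝒞 (zL 0) = 0 := by rw [c1, h, map_zero]
      rw [h2, pow_succ, mul_zero]
  | (j + 1) => ((big_zL 𝒞 j).symL 𝒞).pb 𝒞 (zsplit j) (zjoin j) (zsplit_zjoin j)

end

end Pool.Agent.Lib.MP_904b2a_gt
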