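import Pool.Agent.Lib.MP_904b2a_gt.H74.Bott

/-!
# MP_904b2a_gt, module CHE (helper74), part 1: products of clutching functions
-/

open scoped BigOperators Matrix ComplexOrder unitInterval
open Module Bundle

namespace Pool.Agent.Lib.MP_904b2a_gt

noncomputable section

namespace BB

variable {n m : Type} [Fintype n] [DecidableEq n] [Fintype m] [DecidableEq m]

/-- The radius `√(1 - s²)`. -/
def rad (s : ℝ) : ℝ := Real.sqrt (1 - s ^ 2)

theorem continuous_rad : Continuous rad :=
  Real.continuous_sqrt.comp (continuous_const.sub (continuous_id.pow 2))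

theorem rad_nonneg (s : ℝ) : 0 ≤ rad s := Real.sqrt_nonneg _

theorem rad_sq {s : ℝ} (h : |s| ≤ 1) : rad s * rad s = 1 - s ^ 2 := by
  rw [rad, Real.mul_self_sqrt]
  rw [← sq_le_one_iff_abs_le_one] at h
  linarith

theorem rad_neg (s : ℝ) : rad (-s) = rad s := by
  rw [rad, rad]
  congr 1
  ring

theorem rad_zero : rad 0 = 1 := by simp [rad]

theorem MhM' (x : BB n) : x.Mᴴ * x.M = ((rad x.ht : ℝ) : ℂ) • ((rad x.ht : ℝ) : ℂ) • (1 : Matrix n n ℂ) := by
  rw [x.MhM, smul_smul, ← Complex.ofReal_mul, rad_sq x.abs_ht]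

theorem norm_M_le (x : BB n) (i j : n) : ‖x.M i j‖ ≤ rad x.ht := by
  have h := congrFun (congrFun x.MhM j) j
  rw [Matrix.mul_apply] at h
  simp only [Matrix.conjTranspose_apply, Matrix.smul_apply, Matrix.one_apply_eq, smul_eq_mul,
    mul_one] at h
  have h2 : ∀ k, star (x.M k j) * x.M k j = ((‖x.M k j‖ ^ 2 : ℝ) : ℂ) := by
    intro k
    rw [Complex.star_def, Complex.conj_mul']
    push_cast
    rfl
  rw [Finset.sum_congr rfl (fun k _ => h2 k), ← Complex.ofReal_sum] at h
  have h3 : ∑ k, ‖x.M k j‖ ^ 2 = 1 - x.ht ^ 2 := by exact_mod_cast h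
  have h4 : ‖x.M i j‖ ^ 2 ≤ 1 - x.ht ^ 2 := by
    rw [← h3]
    exact Finset.single_le_sum (f := fun k => ‖x.M k j‖ ^ 2) (fun k _ => sq_nonneg _)
      (Finset.mem_univ i)
  exact Real.le_sqrt_of_sq_le h4

theorem M_eq_zero (x : BB n) (h : rad x.ht = 0) : x.M = 0 := by
  ext i j
  have := x.norm_M_le i j
  rw [h] at this
  simpa using norm_le_zero_iff.mp this

/-- The scaled identity `√(1 - s²) 1`. -/
def cst {X : Type} [TopologicalSpace X] (n : Type) [Fintype n] [DecidableEq n] (s : C(X, ℝ))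
    (hs : ∀ x, |s x| ≤ 1) : C(X, BB n) :=
  lift (fun x => ((rad (s x) : ℝ) : ℂ) • (1 : Matrix n n ℂ)) s
    ((Complex.continuous_ofReal.comp (continuous_rad.comp s.continuous)).smul continuous_const)
    s.continuous (fun x => by
      rw [Matrix.conjTranspose_smul, Matrix.conjTranspose_one, Matrix.smul_mul, Matrix.one_mul,
        smul_smul, Complex.star_def, Complex.conj_ofReal, ← Complex.ofReal_mul, rad_sq (hs x)]) hs

theorem cst_M {X : Type} [TopologicalSpace X] (s : C(X, ℝ)) (hs : ∀ x, |s x| ≤ 1) (x : X) :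
    (cst n s hs x).M = ((rad (s x) : ℝ) : ℂ) • (1 : Matrix n n ℂ) := rfl

theorem cst_ht {X : Type} [TopologicalSpace X] (s : C(X, ℝ)) (hs : ∀ x, |s x| ≤ 1) (x : X) :
    (cst n s hs x).ht = s x := rfl

section maps

variable {X : Type} [TopologicalSpace X]

/-- The product of clutching functions `M₁ M₂ / √(1 - s²)`. -/
def mul (f g : C(X, BB n)) (h : ∀ x, (f x).ht = (g x).ht) : C(X, BB n) :=
  lift (fun x => (((rad (f x).ht : ℝ) : ℂ)⁻¹) • ((f x).M * (g x).M)) (fun x => (f x).ht)
    (by
      have hM : Continuous fun x => (f x).M * (g x).M :=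
        (continuous_M.comp f.continuous).matrix_mul (continuous_M.comp g.continuous)
      have hr : Continuous fun x => ((rad (f x).ht : ℝ) : ℂ) :=
        Complex.continuous_ofReal.comp (continuous_rad.comp (continuous_ht.comp f.continuous))
      refine continuous_matrix (fun i j => ?_)
      rw [continuous_iff_continuousAt]
      intro x
      by_cases h0 : ((rad (f x).ht : ℝ) : ℂ) = 0
      · -- squeeze
        have hb : ∀ y, ‖((((rad (f y).ht : ℝ) : ℂ)⁻¹) • ((f y).M * (g y).M)) i j‖ ≤
            (Fintype.card n : ℝ) * rad (f y).ht := by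
          intro y
          rw [Matrix.smul_apply, norm_smul, norm_inv, Complex.norm_real, Real.norm_eq_abs,
            abs_of_nonneg (rad_nonneg _), Matrix.mul_apply]
          have h1 : ‖∑ k, (f y).M i k * (g y).M k j‖ ≤
              (Fintype.card n : ℝ) * (rad (f y).ht * rad (f y).ht) := by
            calc _ ≤ ∑ k, ‖(f y).M i k * (g y).M k j‖ := norm_sum_le _ _
              _ ≤ ∑ _k : n, rad (f y).ht * rad (f y).ht := by
                refine Finset.sum_le_sum (fun k _ => ?_)
                rw [norm_mul]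
                refine mul_le_mul ((f y).norm_M_le i k) ?_ (norm_nonneg _) (rad_nonneg _)
                rw [h y]
                exact (g y).norm_M_le k j
              _ = _ := by
                rw [Finset.sum_const, Finset.card_univ, nsmul_eq_mul]
          by_cases hr0 : rad (f y).ht = 0
          · rw [hr0, inv_zero, zero_mul, mul_zero]
          · calc _ ≤ (rad (f y).ht)⁻¹ * ((Fintype.card n : ℝ) * (rad (f y).ht * rad (f y).ht)) :=
                  mul_le_mul_of_nonneg_left h1 (inv_nonneg.mpr (rad_nonneg _))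
              _ = _ := by field_simp
        have hz : ((((rad (f x).ht : ℝ) : ℂ)⁻¹) • ((f x).M * (g x).M)) i j = 0 := by
          rw [h0, inv_zero, zero_smul]
          rfl
        rw [ContinuousAt, hz]
        refine squeeze_zero_norm hb ?_
        have hlim : Continuous fun y => (Fintype.card n : ℝ) * rad (f y).ht :=
          continuous_const.mul (continuous_rad.comp (continuous_ht.comp f.continuous))
        have := hlim.tendsto x
        rw [show rad (f x).ht = 0 by exact_mod_cast h0, mul_zero] at this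
        exact this
      · exact ((hr.continuousAt.inv₀ h0)).smul ((hM.matrix_elem i j).continuousAt))
    (continuous_ht.comp f.continuous)
    (fun x => by
      have hg := (g x).MhM'
      rw [← h x] at hg
      have hf := (f x).MhM'
      set c : ℂ := ((rad (f x).ht : ℝ) : ℂ) with hc
      have hcs : star c = c := Complex.conj_ofReal _
      have e : (c⁻¹ • ((f x).M * (g x).M))ᴴ * (c⁻¹ • ((f x).M * (g x).M)) =
          (c⁻¹ * c⁻¹) • ((g x).Mᴴ * ((f x).Mᴴ * (f x).M) * (g x).M) := by
        rw [Matrix.conjTranspose_smul, Matrix.conjTranspose_mul, star_inv₀, hcs, Matrix.smul_mul,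
          Matrix.mul_smul, smul_smul]
        simp only [Matrix.mul_assoc]
      rw [e, hf]
      simp only [Matrix.mul_smul, Matrix.smul_mul, Matrix.mul_one, hg, smul_smul]
      congr 1
      have h2 : ((1 - (f x).ht ^ 2 : ℝ) : ℂ) = c * c := by
        rw [hc, ← Complex.ofReal_mul, rad_sq (f x).abs_ht]
      rw [h2]
      by_cases h0 : c = 0
      · rw [h0]
        simp
      · field_simp)
    (fun x => (f x).abs_ht)

theorem mul_M (f g : C(X, BB n)) (h : ∀ x, (f x).ht = (g x).ht) (x : X) :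
    (mul f g h x).M = (((rad (f x).ht : ℝ) : ℂ)⁻¹) • ((f x).M * (g x).M) := rfl

theorem mul_ht (f g : C(X, BB n)) (h : ∀ x, (f x).ht = (g x).ht) (x : X) :
    (mul f g h x).ht = (f x).ht := rfl

/-- The block diagonal sum of clutching functions. -/
def diag (f : C(X, BB n)) (g : C(X, BB m)) (h : ∀ x, (f x).ht = (g x).ht) : C(X, BB (n ⊕ m)) :=
  lift (fun x => Matrix.fromBlocks (f x).M 0 0 (g x).M) (fun x => (f x).ht)
    (Continuous.matrix_fromBlocks (continuous_M.comp f.continuous) continuous_const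
      continuous_const (continuous_M.comp g.continuous))
    (continuous_ht.comp f.continuous)
    (fun x => by
      rw [Matrix.fromBlocks_conjTranspose, Matrix.fromBlocks_multiply, (f x).MhM, (g x).MhM, h x]
      rw [← Matrix.fromBlocks_one, Matrix.fromBlocks_smul]
      simp)
    (fun x => (f x).abs_ht)

theorem diag_M (f : C(X, BB n)) (g : C(X, BB m)) (h : ∀ x, (f x).ht = (g x).ht) (x : X) :
    (diag f g h x).M = Matrix.fromBlocks (f x).M 0 0 (g x).M := rfl

theorem diag_ht (f : C(X, BB n)) (g : C(X, BB m)) (h : ∀ x, (f x).ht = (g x).ht) (x : X) :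
    (diag f g h x).ht = (f x).ht := rfl

/-- Conjugation of a clutching function by a family of unitary matrices. -/
def conj (U : C(X, Matrix n n ℂ)) (hU : ∀ x, (U x)ᴴ * U x = 1) (f : C(X, BB n)) : C(X, BB n) :=
  lift (fun x => U x * (f x).M * (U x)ᴴ) (fun x => (f x).ht)
    ((U.continuous.matrix_mul (continuous_M.comp f.continuous)).matrix_mul
      U.continuous.matrix_conjTranspose)
    (continuous_ht.comp f.continuous)
    (fun x => by
      have e : (U x * (f x).M * (U x)ᴴ)ᴴ * (U x * (f x).M * (U x)ᴴ) =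
          U x * ((f x).Mᴴ * ((U x)ᴴ * U x) * (f x).M) * (U x)ᴴ := by
        rw [Matrix.conjTranspose_mul, Matrix.conjTranspose_mul, Matrix.conjTranspose_conjTranspose]
        simp only [Matrix.mul_assoc]
      rw [e, hU, Matrix.mul_one, (f x).MhM, Matrix.mul_smul, Matrix.smul_mul, Matrix.mul_one,
        mul_eq_one_comm.mp (hU x)])
    (fun x => (f x).abs_ht)

theorem conj_M (U : C(X, Matrix n n ℂ)) (hU : ∀ x, (U x)ᴴ * U x = 1) (f : C(X, BB n)) (x : X) :
    (conj U hU f x).M = U x * (f x).M * (U x)ᴴ := rfl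

theorem conj_ht (U : C(X, Matrix n n ℂ)) (hU : ∀ x, (U x)ᴴ * U x = 1) (f : C(X, BB n)) (x : X) :
    (conj U hU f x).ht = (f x).ht := rfl

/-- The height function of a map to `BB n`. -/
def hC (f : C(X, BB n)) : C(X, ℝ) := ⟨fun x => (f x).ht, continuous_ht.comp f.continuous⟩

end maps

/-! ### The rotation homotopy -/

/-- The rotation by the angle `θ` in `ℂ^n ⊕ ℂ^n`. -/
def rot (n : Type) [Fintype n] [DecidableEq n] (θ : ℝ) : Matrix (n ⊕ n) (n ⊕ n) ℂ :=
  Matrix.fromBlocks ((Real.cos θ : ℂ) • 1) (-(Real.sin θ : ℂ) • 1) ((Real.sin θ : ℂ) • 1)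
    ((Real.cos θ : ℂ) • 1)

theorem continuous_rot : Continuous (rot n) := by
  have h1 : Continuous fun θ : ℝ => ((Real.cos θ : ℝ) : ℂ) :=
    Complex.continuous_ofReal.comp Real.continuous_cos
  have h2 : Continuous fun θ : ℝ => ((Real.sin θ : ℝ) : ℂ) :=
    Complex.continuous_ofReal.comp Real.continuous_sin
  exact Continuous.matrix_fromBlocks (h1.smul continuous_const) (h2.neg.smul continuous_const)
    (h2.smul continuous_const) (h1.smul continuous_const)

theorem rot_conjTranspose (θ : ℝ) : (rot n θ)ᴴ =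
    Matrix.fromBlocks ((Real.cos θ : ℂ) • 1) ((Real.sin θ : ℂ) • 1) (-(Real.sin θ : ℂ) • 1)
    ((Real.cos θ : ℂ) • 1) := by
  have h1 : star ((Real.cos θ : ℝ) : ℂ) = ((Real.cos θ : ℝ) : ℂ) := Complex.conj_ofReal _
  have h2 : star ((Real.sin θ : ℝ) : ℂ) = ((Real.sin θ : ℝ) : ℂ) := Complex.conj_ofReal _
  rw [rot, Matrix.fromBlocks_conjTranspose]
  simp only [Matrix.conjTranspose_smul, Matrix.conjTranspose_one, star_neg, h1, h2]

theorem rot_unitary (θ : ℝ) : (rot n θ)ᴴ * rot n θ = 1 := by
  rw [rot_conjTranspose, rot, Matrix.fromBlocks_multiply, ← Matrix.fromBlocks_one]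
  have hcs : ((Real.cos θ : ℝ) : ℂ) * ((Real.cos θ : ℝ) : ℂ) +
      ((Real.sin θ : ℝ) : ℂ) * ((Real.sin θ : ℝ) : ℂ) = 1 := by
    rw [← Complex.ofReal_mul, ← Complex.ofReal_mul, ← Complex.ofReal_add]
    have := Real.cos_sq_add_sin_sq θ
    rw [pow_two, pow_two] at this
    rw [this, Complex.ofReal_one]
  simp only [Matrix.smul_mul, Matrix.mul_smul, Matrix.one_mul, smul_smul, ← add_smul]
  congr 1
  · rw [hcs, one_smul]
  · rw [show -(Real.sin θ : ℂ) * (Real.cos θ : ℂ) + (Real.cos θ : ℂ) * (Real.sin θ : ℂ) = 0 by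
        ring, zero_smul]
  · rw [show (Real.cos θ : ℂ) * -(Real.sin θ : ℂ) + (Real.sin θ : ℂ) * (Real.cos θ : ℂ) = 0 by
        ring, zero_smul]
  · rw [← one_smul ℂ (1 : Matrix n n ℂ), smul_smul, mul_one, ← hcs]
    congr 1
    ring

theorem rot_zero : rot n 0 = 1 := by
  rw [rot, ← Matrix.fromBlocks_one]
  simp

theorem rot_half_conj (A B : Matrix n n ℂ) :
    rot n (Real.pi / 2) * Matrix.fromBlocks A 0 0 B * (rot n (Real.pi / 2))ᴴ =
      Matrix.fromBlocks B 0 0 A := by
  rw [rot_conjTranspose, rot, Real.cos_pi_div_two, Real.sin_pi_div_two,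
    Matrix.fromBlocks_multiply, Matrix.fromBlocks_multiply]
  simp

section hom

variable {X : Type} [TopologicalSpace X]

/-- The scaled identity with the same height as `f`. -/
def unit (m : Type) [Fintype m] [DecidableEq m] (f : C(X, BB n)) : C(X, BB m) :=
  cst m (hC f) (fun x => (f x).abs_ht)

theorem unit_M (f : C(X, BB n)) (x : X) :
    (unit m f x).M = ((rad (f x).ht : ℝ) : ℂ) • (1 : Matrix m m ℂ) := rfl

theorem unit_ht (f : C(X, BB n)) (x : X) : (unit m f x).ht = (f x).ht := rfl

theorem mul_unit_ht (f g : C(X, BB n)) (h : ∀ x, (f x).ht = (g x).ht) (x : X) :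
    (mul f g h x).ht = (unit m f x).ht := rfl

/-- The homotopy between `diag(M₁ M₂ / c, c)` and `diag(M₁, M₂)`. -/
theorem diag_mul_homotopic (f g : C(X, BB n)) (h : ∀ x, (f x).ht = (g x).ht) :
    (diag (mul f g h) (unit n f) (mul_unit_ht f g h)).Homotopic (diag f g h) := by
  have hfc : ∀ x, (f x).ht = (unit n f x).ht := fun x => (unit_ht f x).symm
  have hgc : ∀ x, (g x).ht = (unit n f x).ht := fun x => (h x).symm.trans (unit_ht f x).symm
  let f' : C(I × X, BB (n ⊕ n)) := (diag f (unit n f) hfc).comp ⟨Prod.snd, continuous_snd⟩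
  let g' : C(I × X, BB (n ⊕ n)) := (diag g (unit n f) hgc).comp ⟨Prod.snd, continuous_snd⟩
  let R : C(I × X, Matrix (n ⊕ n) (n ⊕ n) ℂ) :=
    ⟨fun p => rot n (Real.pi / 2 * (p.1 : ℝ)), continuous_rot.comp
      (continuous_const.mul (continuous_subtype_val.comp continuous_fst))⟩
  have hR : ∀ p, (R p)ᴴ * R p = 1 := fun p => rot_unitary _
  let K : C(I × X, BB (n ⊕ n)) := mul f' (conj R hR g') (fun p => h p.2)
  refine ⟨⟨K, fun x => ?_, fun x => ?_⟩⟩
  · apply BB.ext
    · change (((rad (f x).ht : ℝ) : ℂ)⁻¹) • (Matrix.fromBlocks (f x).M 0 0 (unit n f x).M *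
        (rot n (Real.pi / 2 * ((0 : I) : ℝ)) * Matrix.fromBlocks (g x).M 0 0 (unit n f x).M *
          (rot n (Real.pi / 2 * ((0 : I) : ℝ)))ᴴ)) = _
      rw [Set.Icc.coe_zero, mul_zero, rot_zero, Matrix.conjTranspose_one, Matrix.one_mul,
        Matrix.mul_one, diag_M, Matrix.fromBlocks_multiply,
        Matrix.fromBlocks_smul, mul_M]
      simp only [Matrix.mul_zero, Matrix.zero_mul, add_zero, zero_add, smul_zero]
      congr 1
      rw [unit_M, Matrix.smul_mul, Matrix.one_mul, smul_smul, smul_smul]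
      congr 1
      by_cases h0 : ((rad (f x).ht : ℝ) : ℂ) = 0
      · rw [h0]
        simp
      · field_simp
    · rfl
  · apply BB.ext
    · change (((rad (f x).ht : ℝ) : ℂ)⁻¹) • (Matrix.fromBlocks (f x).M 0 0 (unit n f x).M *
        (rot n (Real.pi / 2 * ((1 : I) : ℝ)) * Matrix.fromBlocks (g x).M 0 0 (unit n f x).M *
          (rot n (Real.pi / 2 * ((1 : I) : ℝ)))ᴴ)) = _
      rw [Set.Icc.coe_one, mul_one, rot_half_conj, diag_M,
        Matrix.fromBlocks_multiply, Matrix.fromBlocks_smul]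
      simp only [Matrix.mul_zero, Matrix.zero_mul, add_zero, zero_add, smul_zero]
      rw [unit_M, Matrix.mul_smul, Matrix.smul_mul, Matrix.one_mul, Matrix.mul_one, smul_smul,
        smul_smul]
      by_cases h0 : ((rad (f x).ht : ℝ) : ℂ) = 0
      · have e1 : (f x).M = 0 := (f x).M_eq_zero (by exact_mod_cast h0)
        have e2 : (g x).M = 0 := (g x).M_eq_zero (by rw [← h x]; exact_mod_cast h0)
        rw [e1, e2]
        simp
      · rw [inv_mul_cancel₀ h0, one_smul, one_smul]
    · rfl

end hom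

end BB

end

end Pool.Agent.Lib.MP_904b2a_gt
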