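import Pool.Agent.Lib.MP_904b2a_gt.H74.Twist

/-!
# MP_904b2a_gt, module CHE (helper74): non-vanishing of the classes `x_j` (C4)
-/

open scoped BigOperators Matrix
open Set

namespace Pool.Agent.Lib.MP_904b2a_gt

open H83

noncomputable section

section

variable {Y : Type} [TopologicalSpace Y] {ι : Type} [Fintype ι] [DecidableEq ι] (L : PF 1 Y ι)

theorem proj_calc {P : Matrix ι ι ℂ} (hP : P * P = P) (a b c d : ℂ) :
    (a • P + b • (1 - P)) * (c • P + d • (1 - P)) = (a * c) • P + (b * d) • (1 - P) := by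
  have h1 : P * (1 - P) = 0 := by rw [mul_sub, mul_one, hP, sub_self]
  have h2 : (1 - P) * P = 0 := by rw [sub_mul, one_mul, hP, sub_self]
  have h3 : (1 - P) * (1 - P) = 1 - P := by rw [mul_sub, mul_one, h2, sub_zero]
  simp only [add_mul, mul_add, Matrix.smul_mul, Matrix.mul_smul, hP, h1, h2, h3, smul_zero,
    add_zero, zero_add, smul_smul]
  rw [mul_comm c a, mul_comm d b]

omit [Fintype ι] in
theorem proj_herm {P : Matrix ι ι ℂ} (hP : Pᴴ = P) (a b : ℂ) :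
    (a • P + b • (1 - P))ᴴ = star a • P + star b • (1 - P) := by
  rw [Matrix.conjTranspose_add, Matrix.conjTranspose_smul, Matrix.conjTranspose_smul,
    Matrix.conjTranspose_sub, Matrix.conjTranspose_one, hP]

/-- The clutching function `u π + c (1 - π)`. -/
def Phi : C(Y × BB (Fin 1), BB ι) :=
  BB.lift (fun q => q.2.u • L.P q.1 + ((BB.rad q.2.ht : ℝ) : ℂ) • (1 - L.P q.1))
    (fun q => q.2.ht)
    (((BB.continuous_u.comp continuous_snd).smul (L.cont.comp continuous_fst)).add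
      ((Complex.continuous_ofReal.comp (BB.continuous_rad.comp (BB.continuous_ht.comp
        continuous_snd))).smul (continuous_const.sub (L.cont.comp continuous_fst))))
    (BB.continuous_ht.comp continuous_snd)
    (fun q => by
      have hst : star ((BB.rad q.2.ht : ℝ) : ℂ) = ((BB.rad q.2.ht : ℝ) : ℂ) :=
        Complex.conj_ofReal _
      rw [proj_herm (L.herm q.1), proj_calc (L.idem q.1), hst, q.2.star_u_mul,
        ← Complex.ofReal_mul, BB.rad_sq q.2.abs_ht, ← smul_add]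
      congr 1
      abel)
    (fun q => q.2.abs_ht)

theorem Phi_M (q : Y × BB (Fin 1)) :
    (Phi L q).M = q.2.u • L.P q.1 + ((BB.rad q.2.ht : ℝ) : ℂ) • (1 - L.P q.1) := rfl

theorem Phi_ht (q : Y × BB (Fin 1)) : (Phi L q).ht = q.2.ht := rfl

/-- The map `(t, y) ↦ t π_y + (1 - π_y)` to the unitary group. -/
def fU : C(Circle × Y, UGt ι) where
  toFun q := ⟨cv q.1 • L.P q.2 + (1 : ℂ) • (1 - L.P q.2), by
    rw [Matrix.mem_unitaryGroup_iff', Matrix.star_eq_conjTranspose, proj_herm (L.herm q.2),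
      proj_calc (L.idem q.2), star_cv_mul, star_one, one_mul, one_smul, one_smul]
    abel⟩
  continuous_toFun := by
    refine Continuous.subtype_mk ?_ _
    have h1 : Continuous fun q : Circle × Y => L.P q.2 := L.cont.comp continuous_snd
    have h2 : Continuous fun q : Circle × Y => (1 : ℂ) • (1 - L.P q.2) :=
      (continuous_const.sub h1).const_smul (1 : ℂ)
    exact ((cv.continuous.comp continuous_fst).smul h1).add h2

theorem fU_val (q : Circle × Y) :
    (fU L q).1 = cv q.1 • L.P q.2 + (1 : ℂ) • (1 - L.P q.2) := rfl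

variable (𝒞 : ChernTheory)

theorem cB_Phi {s : ℕ} (h : 1 + s = Fintype.card ι) :
    cB 𝒞 (Phi L) = 1 + T.map (pr2 Y (BB (Fin 1))) (c1 𝒞 (bott (Fin 1) 1 rfl)) *
      T.map (pr1 Y (BB (Fin 1))) (cT 𝒞 (L.compl s h)) := by
  set g : C(Y × BB (Fin 1), BB (Fin 1)) := BB.unit (Fin 1) (pr2 Y (BB (Fin 1))) with hg
  have hg1 : ∀ q, (g q).ht = q.2.ht := fun q => rfl
  have hg2 : ∀ q, (g q).u = ((BB.rad q.2.ht : ℝ) : ℂ) := by
    intro q
    change (((BB.rad q.2.ht : ℝ) : ℂ) • (1 : Matrix (Fin 1) (Fin 1) ℂ)) 0 0 = _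
    simp
  have h1 : cB 𝒞 (Phi L) = cT 𝒞 (tw (pr2 Y (BB (Fin 1))) (L.pb (pr1 Y (BB (Fin 1))))) *
      cT 𝒞 (tw g ((L.compl s h).pb (pr1 Y (BB (Fin 1))))) := by
    refine cT_whitney 𝒞 _ _ _ (fun q => ?_)
    rw [PF.pb_P, bott_P, tw_P, tw_P, hg1, hg2, ← smul_add, Matrix.fromBlocks_add, BB.bottM,
      Phi_M, Phi_ht, proj_herm (L.herm q.1)]
    change _ = (1 / 2 : ℂ) • Matrix.fromBlocks
      ((1 + (q.2.ht : ℂ)) • L.P q.1 + (1 + (q.2.ht : ℂ)) • (1 - L.P q.1))
      (star q.2.u • L.P q.1 + star ((BB.rad q.2.ht : ℝ) : ℂ) • (1 - L.P q.1))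
      (q.2.u • L.P q.1 + ((BB.rad q.2.ht : ℝ) : ℂ) • (1 - L.P q.1))
      ((1 - (q.2.ht : ℂ)) • L.P q.1 + (1 - (q.2.ht : ℂ)) • (1 - L.P q.1))
    congr 2
    · rw [← smul_add]
      congr 1
      abel
    · rw [← smul_add]
      congr 1
      abel
  have h2 : cT 𝒞 (tw g ((L.compl s h).pb (pr1 Y (BB (Fin 1))))) =
      T.map (pr1 Y (BB (Fin 1))) (cT 𝒞 (L.compl s h)) := by
    rw [cT_tw_trivial 𝒞 g (fun q => by rw [hg1, hg2]), cT_pb]
  have h3 := congrArg (T.map (pr1 Y (BB (Fin 1)))) (cT_compl 𝒞 L h)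
  rw [map_mul, map_one, cT_line, map_add, map_one] at h3
  rw [h1, h2, cT_line, c1_tw, ← add_assoc, add_mul, h3]

/-- The top class of the complement. -/
theorem cT_compl_top {s : ℕ} (h : 1 + s = Fintype.card ι) (hL : Big 𝒞 s L) :
    T.of (2 * s) (cT 𝒞 (L.compl s h) (2 * s)) = (-c1 𝒞 L) ^ s := by
  set x := c1 𝒞 L with hx
  have h1 := cT_compl 𝒞 L h
  rw [cT_line, ← hx] at h1
  -- the finite geometric series
  have h2 : (∑ i ∈ Finset.range (s + 1), (-x) ^ i) * (1 + x) = 1 := by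
    have h3 := geom_sum_mul_neg (-x) (s + 1)
    rw [sub_neg_eq_add] at h3
    rw [h3, neg_pow, hL.van, mul_zero, sub_zero]
  have h4 : cT 𝒞 (L.compl s h) = ∑ i ∈ Finset.range (s + 1), (-x) ^ i := by
    calc cT 𝒞 (L.compl s h) = 1 * cT 𝒞 (L.compl s h) := (one_mul _).symm
      _ = _ := by rw [← h2, mul_assoc, h1, mul_one]
  have hh : ∀ i, T.IsHom (i * 2) ((-x) ^ i) := by
    intro i
    refine T.IsHom.pow ?_ i
    intro m hm
    rw [T.neg_apply, hx, c1_hom 𝒞 L m hm, neg_zero]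
  rw [h4, T.sum_apply, Finset.sum_eq_single s]
  · have h5 := (hh s).eq_of
    rw [mul_comm s 2] at h5
    exact h5.symm
  · intro i _ hi
    exact hh i _ (by omega)
  · intro hs
    exact absurd (Finset.mem_range.mpr (Nat.lt_succ_self s)) hs

theorem T_neg_pow_eq_zero {X : Type} [TopologicalSpace X] {x : T X} {s : ℕ} {m : ℤ}
    (h : m • (-x) ^ s = 0) : m • x ^ s = 0 := by
  rcases Nat.even_or_odd s with hs | hs
  · rwa [hs.neg_pow] at h
  · rw [hs.neg_pow, smul_neg, neg_eq_zero] at h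
    exact h

/-- The top class of the clutching bundle does not vanish. -/
theorem cB_Phi_ne {s : ℕ} (h : 1 + s = Fintype.card ι) (hL : Big 𝒞 s L) {m : ℤ} (hm : m ≠ 0) :
    m • (cB 𝒞 (Phi L)) (2 * s + 1 + 1) ≠ 0 := by
  intro h0
  set κ := c1 𝒞 (bott (Fin 1) 1 rfl) with hκ
  set c := cT 𝒞 (L.compl s h) with hc
  have h1 : (cB 𝒞 (Phi L)) (2 * s + 1 + 1) = (T.map (pr2 Y (BB (Fin 1))) κ *
      T.map (pr1 Y (BB (Fin 1))) (T.of (2 * s) (c (2 * s)))) (2 * s + 1 + 1) := by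
    rw [cB_Phi L 𝒞 h, T.add_apply, T.one_def, T.of_ne (by omega), zero_add, T.mul_apply,
      T.mul_apply]
    refine Finset.sum_congr rfl (fun p hp => ?_)
    rw [Finset.HasAntidiagonal.mem_antidiagonal] at hp
    by_cases h2 : p.1 = 2
    · have h3 : p.2 = 2 * s := by omega
      obtain ⟨a, b⟩ := p
      simp only at h2 h3
      subst h2 h3
      rw [T.map_apply (pr1 Y (BB (Fin 1))) (T.of (2 * s) (c (2 * s))), T.of_self]
      rfl
    · have h3 : (T.map (pr2 Y (BB (Fin 1))) κ) p.1 = 0 := by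
        rw [T.map_apply, hκ, c1_hom 𝒞 _ _ h2, map_zero]
      rw [h3, map_zero, AddMonoidHom.zero_apply, AddMonoidHom.zero_apply]
  have hh : T.IsHom (2 + 2 * s) (T.map (pr2 Y (BB (Fin 1))) κ *
      T.map (pr1 Y (BB (Fin 1))) (T.of (2 * s) (c (2 * s)))) :=
    ((c1_hom 𝒞 _).map _).mul ((T.isHom_of _ _).map _)
  have h2 : m • (T.map (pr2 Y (BB (Fin 1))) κ *
      T.map (pr1 Y (BB (Fin 1))) (T.of (2 * s) (c (2 * s)))) = 0 := by
    ext k
    by_cases hk : k = 2 * s + 1 + 1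
    · subst hk
      rw [h1] at h0
      exact (map_zsmul (T.proj _) _ _).trans h0
    · have h3 := hh k (by omega)
      refine (map_zsmul (T.proj k) _ _).trans ?_
      rw [T.proj_apply, h3, smul_zero]
      rfl
  have h3 := (split_BB1 𝒞).zero_of_eq_zero (X := Y) (a := 0)
    (b := m • T.of (2 * s) (c (2 * s))) (by
      rw [map_zero, zero_add, map_zsmul, mul_smul_comm]
      exact h2)
  rw [hc, cT_compl_top L 𝒞 h hL] at h3
  exact hL.nt m hm (T_neg_pow_eq_zero h3.2)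

/-- **Non-vanishing of `x_s` on `U(s + 1)`.** -/
theorem xU_fU_ne {s : ℕ} (h : 1 + s = Fintype.card ι) (hL : Big 𝒞 s L) {m : ℤ} (hm : m ≠ 0) :
    m • H.pb (fU L) (xU 𝒞 ι s) ≠ 0 := by
  intro h0
  apply cB_Phi_ne L 𝒞 h hL hm
  set U : Set (Y × BB (Fin 1)) := {q | -1 < q.2.ht} with hU
  set V : Set (Y × BB (Fin 1)) := {q | q.2.ht < 1} with hV
  have hc : Continuous fun q : Y × BB (Fin 1) => q.2.ht := BB.continuous_ht.comp continuous_snd
  have hUo : IsOpen U := isOpen_lt continuous_const hc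
  have hVo : IsOpen V := isOpen_lt hc continuous_const
  have hUV : U ∪ V = univ := by
    ext q
    simp only [mem_union, mem_univ, iff_true]
    by_cases h : -1 < q.2.ht
    · exact Or.inl h
    · right
      have : q.2.ht ≤ -1 := not_lt.mp h
      change q.2.ht < 1
      linarith
  have hS : SmallC U V ℤ := smallC hUo hVo hUV
  have g1 : MapsTo (Phi L) U (BB.susp ι).Ap := fun q hq => hq
  have g2 : MapsTo (Phi L) V (BB.susp ι).Am := fun q hq => hq
  have h1 := ((xU_mv 𝒞 (n := ι) s).pb (Phi L) g1 g2).zsmul m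
  -- the projection to the circle
  let ρ : C(↥(U ∩ V), Circle × Y) :=
    ⟨fun q => (circU (prU (Fin 1) ⟨q.1.2, q.2.1, q.2.2⟩), q.1.1), by
      refine Continuous.prodMk ?_ (continuous_fst.comp continuous_subtype_val)
      refine circU.continuous.comp ((prU (Fin 1)).continuous.comp ?_)
      exact Continuous.subtype_mk (continuous_snd.comp continuous_subtype_val) _⟩
  have h2 : (prU ι).comp (resMap (Phi L) (g1.inter_inter g2)) = (fU L).comp ρ := by
    ext q : 1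
    apply Subtype.ext
    change (((BB.rad q.1.2.ht)⁻¹ : ℝ) : ℂ) •
      (q.1.2.u • L.P q.1.1 + ((BB.rad q.1.2.ht : ℝ) : ℂ) • (1 - L.P q.1.1)) =
      ((((BB.rad q.1.2.ht)⁻¹ : ℝ) : ℂ) * q.1.2.u) • L.P q.1.1 + (1 : ℂ) • (1 - L.P q.1.1)
    have h3 : ((BB.rad q.1.2.ht : ℝ) : ℂ) ≠ 0 := by
      exact_mod_cast (rad_pos q.2.1 q.2.2).ne'
    rw [smul_add, smul_smul, smul_smul, Complex.ofReal_inv, inv_mul_cancel₀ h3]
  rw [H.pb_comp, h2, ← H.pb_comp, ← map_zsmul (H.pb ρ), h0, map_zero] at h1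
  have h3 := MV.eq_zero hS h1
  have h4 : H.pb (Phi L) (cU' 𝒞 ι s) = cB 𝒞 (Phi L) (2 * s + 1 + 1) :=
    (congrFun (cB_eq_map 𝒞 (Phi L)) (2 * s + 1 + 1)).symm
  rw [← h4]
  exact h3

end

/-- The test map `S¹ × (ℂP¹)^j → U(j + 1)`. -/
def fZ (j : ℕ) : C(Circle × (Fin j → CP1), UG (j + 1)) := fU (zL j)

/-- **C4**: the class `f_j^* x_j` is not a torsion class. -/
theorem xr_fZ_ne (𝒞 : ChernTheory) (j : ℕ) {m : ℤ} (hm : m ≠ 0) :
    m • H.pb (fZ j) (xr 𝒞 (j + 1) j) ≠ 0 :=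
  xU_fU_ne (zL j) 𝒞 (by rw [Fintype.card_fin]; ring) (big_zL 𝒞 j) hm

end

end Pool.Agent.Lib.MP_904b2a_gt
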