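import Pool.Agent.Lib.MP_904b2a_gt.H74.Sph2

/-!
# MP_904b2a_gt, module CHE (helper74): the normalised generators of `H²(ℂP¹)` and of
`H²(BB (Fin 1))`
-/

open scoped BigOperators Matrix
open Set

namespace Pool.Agent.Lib.MP_904b2a_gt

open H83

noncomputable section

theorem H.one_torsion_free {X : Type} [TopologicalSpace X] [Nonempty X] {m : ℤ}
    (h : m • (H.one : H 0 X ℤ) = 0) : m = 0 := by
  obtain ⟨x⟩ := (inferInstance : Nonempty X)
  rw [H.one, ← map_zsmul, H.mk_eq_zero] at h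
  have h2 := congrFun (show ((m • (⟨fun _ => 1, _⟩ : cocycles X ℤ 0) : cocycles X ℤ 0) :
    Coch 0 X ℤ) = 0 from h) (cs 0 x)
  change m • (1 : ℤ) = 0 at h2
  simpa using h2

theorem H.const_torsion_free {X : Type} [TopologicalSpace X] [Nonempty X] {m : ℤ}
    (h : H.const X m = 0) : m = 0 := by
  obtain ⟨x⟩ := (inferInstance : Nonempty X)
  rw [H.const, H.mk_eq_zero] at h
  exact congrFun (show (fun _ => m : Coch 0 X ℤ) = 0 from h) (cs 0 x)

theorem T.one_torsion_free {X : Type} [TopologicalSpace X] [Nonempty X] {m : ℤ}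
    (h : m • (1 : T X) = 0) : m = 0 := by
  have h2 := congrArg (T.proj 0) h
  rw [map_zsmul, map_zero] at h2
  apply H.one_torsion_free (X := X)
  rw [← h2]
  congr 1

/-- Degree zero classes are determined by their values at the points. -/
theorem H0_ext {X : Type} [TopologicalSpace X] {b b' : H 0 X ℤ}
    (h : ∀ x : X, H.pb (ContinuousMap.const Unit x) b = H.pb (ContinuousMap.const Unit x) b') :
    b = b' := by
  obtain ⟨φ, rfl⟩ := H.mk_surjective 0 b
  obtain ⟨ψ, rfl⟩ := H.mk_surjective 0 b'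
  congr 1
  apply Subtype.ext
  funext σ
  rw [zero_simplex_eq σ]
  have h2 := h (σ (stdSimplex.vertex 0))
  rw [H.pb_mk, H.pb_mk, H.mk_eq_mk] at h2
  have h3 : pbC 0 (ContinuousMap.const Unit (σ (stdSimplex.vertex 0))) φ.1 -
      pbC 0 (ContinuousMap.const Unit (σ (stdSimplex.vertex 0))) ψ.1 = 0 := h2
  exact congrFun (sub_eq_zero.1 h3) (cs 0 ())

theorem H0_Unit (b : H 0 Unit ℤ) : ∃ n : ℤ, b = n • H.one := H0_of_pathConnected b

/-- Pullbacks along constant maps vanish in positive degrees. -/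
theorem H.pb_constMap {X Y : Type} [TopologicalSpace X] [TopologicalSpace Y] (y : Y) {n : ℕ}
    (hn : 1 ≤ n) (u : H n Y ℤ) : H.pb (ContinuousMap.const X y) u = 0 := by
  have e : ContinuousMap.const X y =
      (ContinuousMap.const Unit y).comp (ContinuousMap.const X ()) := rfl
  rw [e, ← H.pb_comp, H.eq_zero_of_subsingleton' hn (H.pb (ContinuousMap.const Unit y) u),
    map_zero]

theorem H83.Split2.neg {I : Type} [TopologicalSpace I] {κ : T I} (h : Split2 I κ) :
    Split2 I (-κ) := by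
  intro X _
  have h2 : Function.Bijective (fun p : T X × T X => (p.1, -p.2)) :=
    (Equiv.prodCongr (Equiv.refl (T X)) (Equiv.neg (T X))).bijective
  have h3 := (h X).comp h2
  convert h3 using 2 with p
  simp only [Function.comp, map_neg, neg_mul, mul_neg]

/-- The slice `x ↦ (x, i)`. -/
def sl1 (X : Type) {I : Type} [TopologicalSpace X] [TopologicalSpace I] (i : I) : C(X, X × I) :=
  ⟨fun x => (x, i), by fun_prop⟩

/-- The slice `i ↦ (x, i)`. -/
def sl2 {X : Type} (I : Type) [TopologicalSpace X] [TopologicalSpace I] (x : X) : C(I, X × I) :=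
  ⟨fun i => (x, i), by fun_prop⟩

theorem pr1_sl1 {X I : Type} [TopologicalSpace X] [TopologicalSpace I] (i : I) :
    (pr1 X I).comp (sl1 X i) = ContinuousMap.id X := rfl

theorem pr2_sl1 {X I : Type} [TopologicalSpace X] [TopologicalSpace I] (i : I) :
    (pr2 X I).comp (sl1 X i) = ContinuousMap.const X i := rfl

theorem pr1_sl2 {X I : Type} [TopologicalSpace X] [TopologicalSpace I] (x : X) :
    (pr1 X I).comp (sl2 I x) = ContinuousMap.const I x := rfl

theorem pr2_sl2 {X I : Type} [TopologicalSpace X] [TopologicalSpace I] (x : X) :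
    (pr2 X I).comp (sl2 I x) = ContinuousMap.id I := rfl

/-- The components of the splitting of a class in the degree of `κ`. -/
theorem H83.Split2.exists_deg {I : Type} [TopologicalSpace I] {n : ℕ} {κ : H n I ℤ}
    (hκ : Split2 I (T.of n κ)) {X : Type} [TopologicalSpace X] (y : H n (X × I) ℤ) :
    ∃ (a : H n X ℤ) (b : H 0 X ℤ),
      y = H.pb (pr1 X I) a + H.cup (add_zero n) (H.pb (pr2 X I) κ) (H.pb (pr1 X I) b) := by
  obtain ⟨⟨a, b⟩, hab⟩ := (hκ X).2 (T.of n y)
  simp only at hab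
  refine ⟨a n, b 0, ?_⟩
  have h := congrFun hab n
  rw [T.of_self, T.add_apply, T.map_apply, T.map_of, T.mul_apply, Finset.sum_eq_single (n, 0)] at h
  · rw [T.of_self, cup0_eq (add_zero n)] at h
    exact h.symm
  · rintro ⟨p, q⟩ hx hne
    rw [Finset.HasAntidiagonal.mem_antidiagonal] at hx
    simp only at hx
    have hp : p ≠ n := by
      intro hp
      apply hne
      rw [Prod.mk.injEq]
      omega
    rw [T.of_ne hp, map_zero, AddMonoidHom.zero_apply]
  · intro hx
    exact absurd (Finset.HasAntidiagonal.mem_antidiagonal.2 (add_zero n)) hx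

/-- In positive degree `κ` is a generator. -/
theorem H83.Split2.exists_mul {I : Type} [TopologicalSpace I] {n : ℕ} (hn : 1 ≤ n) {κ : H n I ℤ}
    (hκ : Split2 I (T.of n κ)) (u : H n I ℤ) : ∃ l : ℤ, u = l • κ := by
  obtain ⟨a, b, hab⟩ := hκ.exists_deg (X := Unit) (H.pb (pr2 Unit I) u)
  obtain ⟨l, rfl⟩ := H0_Unit b
  refine ⟨l, ?_⟩
  have h := congrArg (H.pb (sl2 I ())) hab
  rw [map_add, H.pb_comp, H.pb_comp, pr2_sl2, H.pb_id, pr1_sl2, H.pb_constMap _ hn, zero_add,
    H.pb_cup, H.pb_comp, pr2_sl2, H.pb_id, map_zsmul, map_zsmul, H.pb_one, H.pb_one,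
    map_zsmul, H83.H.cup_one] at h
  exact h

/-- The generator is torsion free. -/
theorem H83.Split2.torsion_free {I : Type} [TopologicalSpace I] {κ : T I} (hκ : Split2 I κ) {m : ℤ}
    (h : m • κ = 0) : m = 0 := by
  have h2 := hκ.zero_of_eq_zero (X := Unit) (a := 0) (b := m • 1) (by
    rw [map_zero, zero_add, map_zsmul, map_one, mul_smul_comm, mul_one, ← map_zsmul, h, map_zero])
  exact T.one_torsion_free h2.2

theorem H83.Split2.of_gen {I : Type} [TopologicalSpace I] {n : ℕ} (hn : 1 ≤ n) {κ τ : H n I ℤ}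
    (hκ : Split2 I (T.of n κ)) (hτ : ∃ k : ℤ, κ = k • τ) : Split2 I (T.of n τ) := by
  obtain ⟨k, hk⟩ := hτ
  obtain ⟨l, hl⟩ := hκ.exists_mul hn τ
  have h1 : (1 - k * l) • κ = 0 := by
    rw [sub_smul, one_smul, sub_eq_zero, mul_smul, ← hl, ← hk]
  have h2 : 1 - k * l = 0 := by
    apply hκ.torsion_free
    rw [← map_zsmul, h1, map_zero]
  have h3 : k * l = 1 := by linarith
  have h4 : l * k = 1 := by rw [mul_comm]; exact h3
  rcases Int.isUnit_iff.mp (IsUnit.of_mul_eq_one k h4) with h | h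
  · rw [h, one_smul] at hl
    rw [hl]
    exact hκ
  · rw [h, neg_one_zsmul] at hl
    rw [hl, map_neg]
    exact hκ.neg

section

variable (𝒞 : ChernTheory)

/-- The class `c_1` of a family of lines, in the total cohomology ring. -/
def c1 {X : Type} [TopologicalSpace X] {ι : Type} [Fintype ι] [DecidableEq ι] (p : PF 1 X ι) :
    T X := T.of 2 (cP 𝒞 p 1)

theorem cT_line {X : Type} [TopologicalSpace X] {ι : Type} [Fintype ι] [DecidableEq ι]
    (p : PF 1 X ι) : cT 𝒞 p = 1 + c1 𝒞 p := by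
  rw [cT, Finset.sum_range_succ, Finset.sum_range_one, cP_zero]
  rfl

theorem c1_pb {X Y : Type} [TopologicalSpace X] [TopologicalSpace Y] {ι : Type} [Fintype ι]
    [DecidableEq ι] (q : PF 1 Y ι) (f : C(X, Y)) : c1 𝒞 (q.pb f) = T.map f (c1 𝒞 q) := by
  rw [c1, c1, T.map_of, cP_pb]

theorem c1_hom {X : Type} [TopologicalSpace X] {ι : Type} [Fintype ι] [DecidableEq ι]
    (p : PF 1 X ι) : T.IsHom 2 (c1 𝒞 p) := T.isHom_of _ _

/-- **The projective line**. -/
theorem split_CP1 : Split2 CP1 (c1 𝒞 PF.taut) := by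
  obtain ⟨c, hc⟩ := exists_split_BB1
  have h := hc.of_bij ofCP1 (fun X _ => idX_bij_of_homotopic (g := toCP1)
    (by rw [toCP1_ofCP1]) (by rw [ofCP1_toCP1]) X)
  rw [T.map_of] at h
  exact h.of_gen (by norm_num) (cP_taut 𝒞 _)

theorem cP_toCP1 : cP 𝒞 (PF.taut.pb toCP1) 1 = cP 𝒞 (bott (Fin 1) 1 rfl) 1 := by
  rw [← cP_reindex 𝒞 (bott (Fin 1) 1 rfl) finSumFinEquiv 1]
  exact cP_congr_P 𝒞 _ _ (fun x => rfl) 1

/-- **The suspension of `U(1)`**. -/
theorem split_BB1 : Split2 (BB (Fin 1)) (c1 𝒞 (bott (Fin 1) 1 rfl)) := by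
  have h := (split_CP1 𝒞).of_bij toCP1 (fun X _ => idX_bij_of_homotopic (g := ofCP1)
    (by rw [ofCP1_toCP1]) (by rw [toCP1_ofCP1]) X)
  have e : H.pb toCP1 (cP 𝒞 PF.taut 1) = cP 𝒞 (bott (Fin 1) 1 rfl) 1 :=
    (cP_pb 𝒞 PF.taut toCP1 1).symm.trans (cP_toCP1 𝒞)
  have e2 : T.map toCP1 (c1 𝒞 PF.taut) = c1 𝒞 (bott (Fin 1) 1 rfl) := by
    rw [c1, T.map_of]
    exact congrArg (T.of 2) e
  rwa [e2] at h

/-- A class of degree two on `X × I` with given restrictions to the slices. -/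
theorem eq_of_slices {I : Type} [TopologicalSpace I] {κ : H 2 I ℤ}
    (hκ : Split2 I (T.of 2 κ)) {X : Type} [TopologicalSpace X] (i₀ : I) {y : H 2 (X × I) ℤ}
    {a : H 2 X ℤ} (ha : H.pb (sl1 X i₀) y = a) (hb : ∀ x : X, H.pb (sl2 I x) y = κ) :
    y = H.pb (pr1 X I) a + H.pb (pr2 X I) κ := by
  obtain ⟨a', b, hab⟩ := hκ.exists_deg y
  have h1 : a = a' := by
    have h := congrArg (H.pb (sl1 X i₀)) hab
    rw [ha, map_add, H.pb_comp, pr1_sl1, H.pb_id, H.pb_cup, H.pb_comp, pr2_sl1,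
      H.pb_constMap _ (by norm_num), map_zero, AddMonoidHom.zero_apply, add_zero] at h
    exact h
  have h2 : b = H.one := by
    apply H0_ext
    intro x
    obtain ⟨l, hl⟩ := H0_Unit (H.pb (ContinuousMap.const Unit x) b)
    have h := congrArg (H.pb (sl2 I x)) hab
    have e : H.pb (ContinuousMap.const I x) b = l • H.one := by
      have e1 : ContinuousMap.const I x =
        (ContinuousMap.const Unit x).comp (ContinuousMap.const I ()) := rfl
      rw [e1, ← H.pb_comp, hl, map_zsmul, H.pb_one]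
    rw [hb, map_add, H.pb_comp, pr1_sl2, H.pb_constMap _ (by norm_num), zero_add, H.pb_cup,
      H.pb_comp, pr2_sl2, H.pb_id, H.pb_comp, pr1_sl2, e, map_zsmul, H83.H.cup_one] at h
    have h3 : 1 - l = 0 := by
      apply hκ.torsion_free
      rw [← map_zsmul, sub_smul, one_smul, ← h, sub_self, map_zero]
    have h4 : l = 1 := by linarith
    rw [hl, h4, one_smul, H.pb_one]
  rw [hab, h1, h2, H.pb_one, H83.H.cup_one]

/-- The class `c_1` of a family of lines on `X × I` with given restrictions to the slices. -/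
theorem c1_of_slices {I : Type} [TopologicalSpace I] {ι ι' ι'' : Type} [Fintype ι] [DecidableEq ι]
    [Fintype ι'] [DecidableEq ι'] [Fintype ι''] [DecidableEq ι''] {p : PF 1 I ι}
    (hp : Split2 I (c1 𝒞 p)) {X : Type} [TopologicalSpace X] (i₀ : I) (q : PF 1 (X × I) ι')
    (r : PF 1 X ι'') (h1 : cP 𝒞 (q.pb (sl1 X i₀)) 1 = cP 𝒞 r 1)
    (h2 : ∀ x : X, cP 𝒞 (q.pb (sl2 I x)) 1 = cP 𝒞 p 1) :
    c1 𝒞 q = T.map (pr1 X I) (c1 𝒞 r) + T.map (pr2 X I) (c1 𝒞 p) := by
  rw [c1, c1, c1, T.map_of, T.map_of, ← map_add]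
  congr 1
  refine eq_of_slices (i₀ := i₀) hp ?_ ?_
  · rw [← h1, cP_pb]
  · intro x
    rw [← h2 x, cP_pb]

end

end

end Pool.Agent.Lib.MP_904b2a_gt
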