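import Pool.Agent.Lib.MP_904b2a_gt.H74.ChernP

/-!
# MP_904b2a_gt, module BUN (helper74), part 4: direct sums, tensor products, complements
-/

open scoped BigOperators Matrix Kronecker
open Module Bundle

namespace Pool.Agent.Lib.MP_904b2a_gt

noncomputable section

theorem trace_fromBlocks' {m n : Type*} [Fintype m] [Fintype n] (A : Matrix m m ℂ)
    (B : Matrix m n ℂ) (C : Matrix n m ℂ) (D : Matrix n n ℂ) :
    (Matrix.fromBlocks A B C D).trace = A.trace + D.trace := by
  simp [Matrix.trace, Fintype.sum_sum_type]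

namespace PF

variable {r s : ℕ} {X Y : Type} [TopologicalSpace X] [TopologicalSpace Y]
  {ι κ : Type} [Fintype ι] [DecidableEq ι] [Fintype κ] [DecidableEq κ]

/-- The constant family `1` on `ℂ^κ`. -/
def unit (r : ℕ) (X : Type) [TopologicalSpace X] (κ : Type) [Fintype κ] [DecidableEq κ]
    (h : Fintype.card κ = r) : PF r X κ where
  P _ := 1
  cont := continuous_const
  herm _ := Matrix.conjTranspose_one
  idem _ := one_mul _
  tr _ := by rw [Matrix.trace_one, h]

/-- The family `P ⊕ Q` on `ℂ^ι ⊕ ℂ^κ`. -/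
def dsum (p : PF r X ι) (q : PF s X κ) : PF (r + s) X (ι ⊕ κ) where
  P x := Matrix.fromBlocks (p.P x) 0 0 (q.P x)
  cont := p.cont.matrix_fromBlocks continuous_const continuous_const q.cont
  herm x := by
    rw [Matrix.fromBlocks_conjTranspose, p.herm, q.herm, Matrix.conjTranspose_zero,
      Matrix.conjTranspose_zero]
  idem x := by
    rw [Matrix.fromBlocks_multiply]
    simp [p.idem, q.idem]
  tr x := by
    rw [trace_fromBlocks', p.tr, q.tr, Nat.cast_add]

/-- The family `P ⊕ 0`. -/
def inl (p : PF r X ι) (κ : Type) [Fintype κ] [DecidableEq κ] : PF r X (ι ⊕ κ) where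
  P x := Matrix.fromBlocks (p.P x) 0 0 0
  cont := p.cont.matrix_fromBlocks continuous_const continuous_const continuous_const
  herm x := by
    rw [Matrix.fromBlocks_conjTranspose, p.herm]
    simp
  idem x := by
    rw [Matrix.fromBlocks_multiply]
    simp [p.idem]
  tr x := by
    rw [trace_fromBlocks', p.tr, Matrix.trace_zero, add_zero]

/-- The family `0 ⊕ Q`. -/
def inr (q : PF s X κ) (ι : Type) [Fintype ι] [DecidableEq ι] : PF s X (ι ⊕ κ) where
  P x := Matrix.fromBlocks 0 0 0 (q.P x)
  cont := continuous_const.matrix_fromBlocks continuous_const continuous_const q.cont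
  herm x := by
    rw [Matrix.fromBlocks_conjTranspose, q.herm]
    simp
  idem x := by
    rw [Matrix.fromBlocks_multiply]
    simp [q.idem]
  tr x := by
    rw [trace_fromBlocks', q.tr, Matrix.trace_zero, zero_add]

/-- The tensor product of two families of projections. -/
def kron (p : PF r X ι) (q : PF s X κ) : PF (r * s) X (ι × κ) where
  P x := p.P x ⊗ₖ q.P x
  cont := by
    refine continuous_matrix (fun a b => ?_)
    exact (p.cont.matrix_elem a.1 b.1).mul (q.cont.matrix_elem a.2 b.2)
  herm x := by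
    rw [Matrix.conjTranspose_kronecker, p.herm, q.herm]
  idem x := by
    rw [← Matrix.mul_kronecker_mul, p.idem, q.idem]
  tr x := by
    rw [Matrix.trace_kronecker, p.tr, q.tr, Nat.cast_mul]

/-- The complementary family `1 - P`. -/
def compl (p : PF r X ι) (s : ℕ) (h : r + s = Fintype.card ι) : PF s X ι where
  P x := 1 - p.P x
  cont := continuous_const.sub p.cont
  herm x := by
    rw [Matrix.conjTranspose_sub, p.herm, Matrix.conjTranspose_one]
  idem x := by
    rw [sub_mul, one_mul, mul_sub, mul_one, p.idem, sub_self, sub_zero]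
  tr x := by
    rw [Matrix.trace_sub, p.tr, Matrix.trace_one, ← h, Nat.cast_add]
    ring

/-- Reindexing of the ambient space. -/
def reindex (p : PF r X ι) (e : ι ≃ κ) : PF r X κ where
  P x := Matrix.reindex e e (p.P x)
  cont := p.cont.matrix_reindex e e
  herm x := by
    rw [Matrix.conjTranspose_reindex, p.herm]
  idem x := by
    simp only [Matrix.reindex_apply]
    rw [Matrix.submatrix_mul_equiv, p.idem]
  tr x := by
    rw [Matrix.reindex_apply, ← p.tr x]
    exact (e.symm.sum_comp (fun a => p.P x a a))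

/-- Change of the rank along an equality. -/
def castRank {r' : ℕ} (p : PF r X ι) (h : r = r') : PF r' X ι where
  P := p.P
  cont := p.cont
  herm := p.herm
  idem := p.idem
  tr x := by rw [p.tr x, h]

/-- Conjugation by a continuous family of unitary matrices. -/
def conj (p : PF r X ι) (U : X → Matrix ι ι ℂ) (hU : Continuous U)
    (h : ∀ x, (U x)ᴴ * U x = 1) : PF r X ι where
  P x := U x * p.P x * (U x)ᴴ
  cont := (hU.matrix_mul p.cont).matrix_mul hU.matrix_conjTranspose
  herm x := by
    rw [Matrix.conjTranspose_mul, Matrix.conjTranspose_mul, Matrix.conjTranspose_conjTranspose,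
      p.herm, Matrix.mul_assoc]
  idem x := by
    have e : U x * p.P x * (U x)ᴴ * (U x * p.P x * (U x)ᴴ) =
        U x * (p.P x * (((U x)ᴴ * U x) * p.P x)) * (U x)ᴴ := by
      simp only [Matrix.mul_assoc]
    rw [e, h, Matrix.one_mul, p.idem]
  tr x := by
    rw [Matrix.mul_assoc, Matrix.trace_mul_comm, Matrix.mul_assoc, h, Matrix.mul_one, p.tr]

end PF

section

variable (𝒞 : ChernTheory) {r s t : ℕ} {X Y : Type} [TopologicalSpace X] [TopologicalSpace Y]
  {ι κ : Type} [Fintype ι] [DecidableEq ι] [Fintype κ] [DecidableEq κ]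

theorem cP_castRank {r' : ℕ} (p : PF r X ι) (h : r = r') (i : ℕ) :
    cP 𝒞 (p.castRank h) i = cP 𝒞 p i := by
  subst h
  rfl

theorem cP_unit (h : Fintype.card κ = r) {i : ℕ} (hi : 1 ≤ i) :
    cP 𝒞 (PF.unit r X κ h) i = 0 :=
  cP_const 𝒞 _ (fun _ _ => rfl) hi

/-- The Chern classes of a family with a global trivialisation vanish in positive degrees. -/
theorem cP_eq_zero_of_trivial' (p : PF r X ι) (hκ : Fintype.card κ = r) (T : X → Matrix κ ι ℂ)
    (hT : Continuous T)
    (h : ∀ x v, p.P x *ᵥ v = v → T x *ᵥ v = 0 → v = 0) {i : ℕ} (hi : 1 ≤ i) :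
    cP 𝒞 p i = 0 := by
  rw [cP_congr 𝒞 p (PF.unit r X κ hκ) T hT (fun x v _ => Matrix.one_mulVec _) h i]
  exact cP_unit 𝒞 hκ hi

theorem cP_inl (p : PF r X ι) (i : ℕ) : cP 𝒞 (p.inl κ) i = cP 𝒞 p i := by
  symm
  refine cP_congr 𝒞 p (p.inl κ) (fun _ => Matrix.fromRows 1 0) continuous_const ?_ ?_ i
  · intro x v hv
    simp only [PF.inl, Matrix.fromRows_mulVec, Matrix.one_mulVec, Matrix.zero_mulVec,
      Matrix.fromBlocks_mulVec]
    funext a
    cases a <;> simp [Function.comp_def, hv]
  · intro x v _ h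
    rw [Matrix.fromRows_mulVec, Matrix.one_mulVec] at h
    funext a
    exact congrFun h (Sum.inl a)

theorem cP_inr (q : PF s X κ) (i : ℕ) : cP 𝒞 (q.inr ι) i = cP 𝒞 q i := by
  symm
  refine cP_congr 𝒞 q (q.inr ι) (fun _ => Matrix.fromRows 0 1) continuous_const ?_ ?_ i
  · intro x v hv
    simp only [PF.inr, Matrix.fromRows_mulVec, Matrix.one_mulVec, Matrix.zero_mulVec,
      Matrix.fromBlocks_mulVec]
    funext a
    cases a <;> simp [Function.comp_def, hv]
  · intro x v _ h
    rw [Matrix.fromRows_mulVec, Matrix.one_mulVec] at h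
    funext a
    exact congrFun h (Sum.inr a)

/-- The Whitney sum formula for the direct sum. -/
theorem cP_dsum (p : PF r X ι) (q : PF s X κ) (k : ℕ) :
    cP 𝒞 (p.dsum q) k = ∑ i : Fin (k + 1),
      H.cup (p := 2 * (i : ℕ)) (q := 2 * (k - (i : ℕ))) (n := 2 * k) (by omega)
        (cP 𝒞 p (i : ℕ)) (cP 𝒞 q (k - (i : ℕ))) := by
  rw [cP_whitney 𝒞 (p.dsum q) (p.inl κ) (q.inr ι) (fun x => by
    simp [PF.dsum, PF.inl, PF.inr, Matrix.fromBlocks_add]) k]
  simp only [cP_inl, cP_inr]

/-- The Whitney sum formula for a family and its complement. -/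
theorem cP_compl (p : PF r X ι) (h : r + s = Fintype.card ι) {k : ℕ} (hk : 1 ≤ k) :
    ∑ i : Fin (k + 1),
      H.cup (p := 2 * (i : ℕ)) (q := 2 * (k - (i : ℕ))) (n := 2 * k) (by omega)
        (cP 𝒞 p (i : ℕ)) (cP 𝒞 (p.compl s h) (k - (i : ℕ))) = 0 := by
  rw [← cP_whitney 𝒞 (PF.unit (r + s) X ι h.symm) p (p.compl s h) (fun x => by
    simp [PF.unit, PF.compl]) k]
  exact cP_unit 𝒞 _ hk

theorem cP_conj (p : PF r X ι) (U : X → Matrix ι ι ℂ) (hU : Continuous U)
    (h : ∀ x, (U x)ᴴ * U x = 1) (i : ℕ) : cP 𝒞 (p.conj U hU h) i = cP 𝒞 p i := by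
  symm
  refine cP_congr 𝒞 p (p.conj U hU h) U hU ?_ ?_ i
  · intro x v hv
    simp only [PF.conj]
    rw [Matrix.mulVec_mulVec, Matrix.mul_assoc, h, Matrix.mul_one, ← Matrix.mulVec_mulVec, hv]
  · intro x v _ hv
    have := congrArg (fun w => (U x)ᴴ *ᵥ w) hv
    simpa only [Matrix.mulVec_mulVec, h, Matrix.one_mulVec, Matrix.mulVec_zero] using this

theorem cP_reindex (p : PF r X ι) (e : ι ≃ κ) (i : ℕ) :
    cP 𝒞 (p.reindex e) i = cP 𝒞 p i := by
  symm
  have key : ∀ v : ι → ℂ, ((1 : Matrix ι ι ℂ).submatrix e.symm id) *ᵥ v = v ∘ e.symm := by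
    intro v
    funext a
    simp [Matrix.mulVec, dotProduct, Matrix.submatrix_apply, Matrix.one_apply]
  refine cP_congr 𝒞 p (p.reindex e) (fun _ => (1 : Matrix ι ι ℂ).submatrix e.symm id)
    continuous_const ?_ ?_ i
  · intro x v hv
    rw [key]
    simp only [PF.reindex, Matrix.reindex_apply]
    rw [Matrix.submatrix_mulVec_equiv]
    simp only [Function.comp_def, Equiv.symm_symm, Equiv.symm_apply_apply]
    funext a
    exact congrFun hv (e.symm a)
  · intro x v _ h
    rw [key] at h
    funext a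
    have := congrFun h (e a)
    simpa using this

end

end

end Pool.Agent.Lib.MP_904b2a_gt
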