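import Pool.Agent.Lib.MP_904b2a_gt.Chern

/-!
# MP_904b2a_gt, module BUN (helper74), part 1: continuous families of projections

`PF r X ι` : continuous families of orthogonal projections of rank `r` of `ℂ^ι`, parametrised by
the space `X`. Local frames.
-/

open scoped BigOperators Matrix
open Module

namespace Pool.Agent.Lib.MP_904b2a_gt

noncomputable section

/-- A continuous family of orthogonal projections of rank `r` of `ℂ^ι` over `X`. -/
structure PF (r : ℕ) (X : Type) [TopologicalSpace X] (ι : Type) [Fintype ι] [DecidableEq ι] where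
  /-- the projections -/
  P : X → Matrix ι ι ℂ
  cont : Continuous P
  herm : ∀ x, (P x)ᴴ = P x
  idem : ∀ x, P x * P x = P x
  tr : ∀ x, (P x).trace = r

namespace PF

variable {r : ℕ} {X : Type} [TopologicalSpace X] {ι : Type} [Fintype ι] [DecidableEq ι]

theorem mul_mulVec_self (p : PF r X ι) (x : X) (v : ι → ℂ) :
    p.P x *ᵥ (p.P x *ᵥ v) = p.P x *ᵥ v := by
  rw [Matrix.mulVec_mulVec, p.idem]

/-- The range of the projection. -/
def rng (p : PF r X ι) (x : X) : Submodule ℂ (ι → ℂ) := LinearMap.range (p.P x).mulVecLin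

theorem mem_rng (p : PF r X ι) {x : X} {v : ι → ℂ} : v ∈ p.rng x ↔ p.P x *ᵥ v = v := by
  constructor
  · rintro ⟨w, rfl⟩
    simp only [Matrix.mulVecLin_apply]
    exact p.mul_mulVec_self x w
  · intro h
    exact ⟨v, h⟩

theorem mulVec_mem_rng (p : PF r X ι) (x : X) (v : ι → ℂ) : p.P x *ᵥ v ∈ p.rng x := ⟨v, rfl⟩

theorem isProj (p : PF r X ι) (x : X) : LinearMap.IsProj (p.rng x) (p.P x).mulVecLin where
  map_mem _ := ⟨_, rfl⟩
  map_id _ hv := p.mem_rng.mp hv

theorem finrank_rng (p : PF r X ι) (x : X) : finrank ℂ (p.rng x) = r := by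
  have h := (p.isProj x).trace
  have h2 : LinearMap.trace ℂ (ι → ℂ) (p.P x).mulVecLin = (p.P x).trace := by
    rw [← Matrix.toLin'_apply']
    exact Matrix.trace_toLin'_eq _
  rw [h2, p.tr x] at h
  exact_mod_cast h.symm

/-- A basis of the range. -/
def bas (p : PF r X ι) (x : X) : Basis (Fin r) ℂ (p.rng x) :=
  finBasisOfFinrankEq ℂ (p.rng x) (p.finrank_rng x)

/-- The matrix whose columns are the vectors of the basis. -/
def B (p : PF r X ι) (x : X) : Matrix ι (Fin r) ℂ :=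
  Matrix.of fun a k => ((p.bas x k : p.rng x) : ι → ℂ) a

/-- The linear map of coordinates `v ↦` coordinates of `P x v`. -/
def Clin (p : PF r X ι) (x : X) : (ι → ℂ) →ₗ[ℂ] (Fin r → ℂ) :=
  (p.bas x).equivFun.toLinearMap ∘ₗ (p.isProj x).codRestrict

/-- The matrix of coordinates. -/
def C (p : PF r X ι) (x : X) : Matrix (Fin r) ι ℂ := LinearMap.toMatrix' (p.Clin x)

theorem C_mulVec (p : PF r X ι) (x : X) (v : ι → ℂ) : p.C x *ᵥ v = p.Clin x v := by
  rw [C, LinearMap.toMatrix'_mulVec]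

theorem B_mulVec (p : PF r X ι) (x : X) (w : Fin r → ℂ) :
    p.B x *ᵥ w = (((p.bas x).equivFun.symm w : p.rng x) : ι → ℂ) := by
  rw [Basis.equivFun_symm_apply]
  funext a
  simp only [Matrix.mulVec, dotProduct, B, Matrix.of_apply]
  rw [Submodule.coe_sum, Finset.sum_apply]
  refine Finset.sum_congr rfl (fun k _ => ?_)
  simp [mul_comm]

theorem B_mulVec_mem (p : PF r X ι) (x : X) (w : Fin r → ℂ) : p.B x *ᵥ w ∈ p.rng x := by
  rw [B_mulVec]
  exact Subtype.mem _

theorem C_mulVec_B (p : PF r X ι) (x : X) (w : Fin r → ℂ) : p.C x *ᵥ (p.B x *ᵥ w) = w := by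
  rw [C_mulVec, B_mulVec]
  simp only [Clin, LinearMap.comp_apply, LinearMap.IsProj.codRestrict_apply_cod]
  exact (p.bas x).equivFun.apply_symm_apply w

theorem B_mulVec_C (p : PF r X ι) (x : X) (v : ι → ℂ) : p.B x *ᵥ (p.C x *ᵥ v) = p.P x *ᵥ v := by
  rw [C_mulVec, B_mulVec]
  simp [Clin]

theorem P_mulVec_B (p : PF r X ι) (x : X) (w : Fin r → ℂ) : p.P x *ᵥ (p.B x *ᵥ w) = p.B x *ᵥ w :=
  p.mem_rng.mp (p.B_mulVec_mem x w)

/-- The transition matrix `C_i P(x) B_i`. -/
def N (p : PF r X ι) (i x : X) : Matrix (Fin r) (Fin r) ℂ := p.C i * p.P x * p.B i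

theorem N_self (p : PF r X ι) (i : X) : p.N i i = 1 := by
  apply Matrix.toLin'.injective
  ext1 k
  apply LinearMap.ext
  intro a
  simp only [LinearMap.comp_apply, Matrix.toLin'_apply, N, Matrix.toLin'_one, LinearMap.id_apply]
  rw [← Matrix.mulVec_mulVec, ← Matrix.mulVec_mulVec, P_mulVec_B, C_mulVec_B]

theorem continuous_N (p : PF r X ι) (i : X) : Continuous (p.N i) :=
  (continuous_const.matrix_mul p.cont).matrix_mul continuous_const

/-- The domain of the `i`-th chart. -/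
def dom (p : PF r X ι) (i : X) : Set X := {x | (p.N i x).det ≠ 0}

theorem isOpen_dom (p : PF r X ι) (i : X) : IsOpen (p.dom i) :=
  (isOpen_compl_singleton (x := (0 : ℂ))).preimage (p.continuous_N i).matrix_det

theorem self_mem_dom (p : PF r X ι) (i : X) : i ∈ p.dom i := by
  change (p.N i i).det ≠ 0
  rw [N_self, Matrix.det_one]
  exact one_ne_zero

/-- The local frame of the `i`-th chart. -/
def fr (p : PF r X ι) (i x : X) : Matrix ι (Fin r) ℂ := p.P x * p.B i * (p.N i x)⁻¹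

theorem continuousOn_fr (p : PF r X ι) (i : X) : ContinuousOn (p.fr i) (p.dom i) := by
  have h1 : ContinuousOn (fun x => (p.N i x)⁻¹) (p.dom i) := by
    have : (fun x => (p.N i x)⁻¹) = fun x => ((p.N i x).det)⁻¹ • (p.N i x).adjugate := by
      funext x
      rw [Matrix.inv_def, Ring.inverse_eq_inv']
    rw [this]
    exact ((p.continuous_N i).matrix_det.continuousOn.inv₀ (fun x hx => hx)).smul
      (p.continuous_N i).matrix_adjugate.continuousOn
  have h2 : ContinuousOn (fun x => p.P x * p.B i) (p.dom i) :=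
    (p.cont.matrix_mul continuous_const).continuousOn
  rw [continuousOn_iff_continuous_domRestrict] at h1 h2 ⊢
  exact h2.matrix_mul h1

theorem P_mulVec_fr (p : PF r X ι) (i x : X) (w : Fin r → ℂ) :
    p.P x *ᵥ (p.fr i x *ᵥ w) = p.fr i x *ᵥ w := by
  rw [Matrix.mulVec_mulVec, fr, ← Matrix.mul_assoc, ← Matrix.mul_assoc, p.idem]

theorem fr_mulVec_mem (p : PF r X ι) (i x : X) (w : Fin r → ℂ) : p.fr i x *ᵥ w ∈ p.rng x :=
  p.mem_rng.mpr (p.P_mulVec_fr i x w)

theorem C_mulVec_fr (p : PF r X ι) {i x : X} (hx : x ∈ p.dom i) (w : Fin r → ℂ) :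
    p.C i *ᵥ (p.fr i x *ᵥ w) = w := by
  have hu : IsUnit (p.N i x).det := isUnit_iff_ne_zero.mpr hx
  rw [Matrix.mulVec_mulVec, fr, ← Matrix.mul_assoc, ← Matrix.mul_assoc]
  change (p.N i x * (p.N i x)⁻¹) *ᵥ w = w
  rw [Matrix.mul_nonsing_inv _ hu, Matrix.one_mulVec]

/-- On the domain of the `i`-th chart `C_i` is injective on the range. -/
theorem C_injOn (p : PF r X ι) {i x : X} (hx : x ∈ p.dom i) {v w : ι → ℂ}
    (hv : v ∈ p.rng x) (hw : w ∈ p.rng x) (h : p.C i *ᵥ v = p.C i *ᵥ w) : v = w := by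
  let g : p.rng x →ₗ[ℂ] (Fin r → ℂ) := (p.C i).mulVecLin ∘ₗ (p.rng x).subtype
  have hs : Function.Surjective g := fun w =>
    ⟨⟨p.fr i x *ᵥ w, p.fr_mulVec_mem i x w⟩, p.C_mulVec_fr hx w⟩
  have hi : Function.Injective g := by
    rw [LinearMap.injective_iff_surjective_of_finrank_eq_finrank]
    · exact hs
    · rw [p.finrank_rng x, finrank_fin_fun]
  have := @hi ⟨v, hv⟩ ⟨w, hw⟩ h
  exact congrArg Subtype.val this

theorem fr_mulVec_C (p : PF r X ι) {i x : X} (hx : x ∈ p.dom i) {v : ι → ℂ}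
    (hv : v ∈ p.rng x) : p.fr i x *ᵥ (p.C i *ᵥ v) = v :=
  p.C_injOn hx (p.fr_mulVec_mem i x _) hv (p.C_mulVec_fr hx _)

theorem fr_injective (p : PF r X ι) {i x : X} (hx : x ∈ p.dom i) :
    Function.Injective (fun w : Fin r → ℂ => p.fr i x *ᵥ w) := by
  intro w w' h
  have := congrArg (fun v => p.C i *ᵥ v) h
  simpa only [p.C_mulVec_fr hx] using this

theorem range_fr (p : PF r X ι) {i x : X} (hx : x ∈ p.dom i) :
    Set.range (fun w : Fin r → ℂ => p.fr i x *ᵥ w) = Set.range (fun v => p.P x *ᵥ v) := by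
  ext v
  constructor
  · rintro ⟨w, rfl⟩
    exact ⟨p.fr i x *ᵥ w, p.P_mulVec_fr i x w⟩
  · rintro ⟨w, rfl⟩
    exact ⟨p.C i *ᵥ (p.P x *ᵥ w), p.fr_mulVec_C hx (p.mulVec_mem_rng x w)⟩

end PF

end

end Pool.Agent.Lib.MP_904b2a_gt
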