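import Pool.Agent.Lib.MP_904b2a_gt.H74.Stab
import Pool.Agent.Lib.MP_904b2a_gt.H83.Punct

/-!
# MP_904b2a_gt, module CHE (helper74): the cohomology of `X × S¹` and `X × S²` for the models
`Circle`, `BB (Fin 1)` and `CP1`
-/

open scoped BigOperators Matrix unitInterval
open Set

namespace Pool.Agent.Lib.MP_904b2a_gt

open H83

noncomputable section

/-! ## The circle -/

/-- A point of the circle as a complex number. -/
def cv : C(Circle, ℂ) := ⟨fun z => Circle.coeHom z, continuous_subtype_val⟩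

theorem cv_norm (z : Circle) : ‖cv z‖ = 1 := z.norm_coe

theorem star_cv_mul (z : Circle) : star (cv z) * cv z = 1 := by
  rw [Complex.star_def, Complex.conj_mul', cv_norm]
  simp

/-- The inclusion of the circle into the punctured plane. -/
def circIncl : C(Circle, Cst) where
  toFun z := ⟨(z : ℂ), z.coe_ne_zero⟩
  continuous_toFun := Continuous.subtype_mk continuous_subtype_val _

/-- The retraction to the circle. -/
def circRetr : C(Cst, Circle) where
  toFun z := ⟨(z.1 / (‖z.1‖ : ℂ)), mem_sphere_zero_iff_norm.2 (by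
    rw [norm_div, Complex.norm_real, norm_norm, div_self]
    exact norm_ne_zero_iff.mpr z.2)⟩
  continuous_toFun := by
    refine Continuous.subtype_mk ?_ _
    refine Continuous.div continuous_subtype_val
      (Complex.continuous_ofReal.comp (continuous_norm.comp continuous_subtype_val)) ?_
    intro z
    exact Complex.ofReal_ne_zero.mpr (norm_ne_zero_iff.mpr z.2)

theorem circRetr_circIncl : circRetr.comp circIncl = ContinuousMap.id Circle := by
  ext z
  change (z : ℂ) / (‖(z : ℂ)‖ : ℂ) = z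
  rw [z.norm_coe]
  simp

theorem circIncl_circRetr : (circIncl.comp circRetr).Homotopic (ContinuousMap.id Cst) := by
  have hm : ∀ p : I × Cst, (((1 - (p.1 : ℝ)) / ‖p.2.1‖ + (p.1 : ℝ) : ℝ) : ℂ) * p.2.1 ∈ Cst := by
    intro p
    have h0 : 0 < ‖p.2.1‖ := norm_pos_iff.mpr p.2.2
    have h1 : 0 ≤ (p.1 : ℝ) := p.1.2.1
    have h2 : 0 ≤ 1 - (p.1 : ℝ) := by linarith [p.1.2.2]
    refine mul_ne_zero ?_ p.2.2
    rw [Complex.ofReal_ne_zero]
    apply ne_of_gt
    rcases h1.eq_or_lt with h | h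
    · rw [← h]
      simp only [sub_zero, add_zero]
      positivity
    · positivity
  refine ⟨{ toFun := fun p => ⟨_, hm p⟩
            continuous_toFun := ?_
            map_zero_left := fun z => ?_
            map_one_left := fun z => ?_ }⟩
  · refine Continuous.subtype_mk ?_ _
    refine (Complex.continuous_ofReal.comp ?_).mul (continuous_subtype_val.comp continuous_snd)
    have hp : Continuous fun p : I × Cst => (p.1 : ℝ) := continuous_subtype_val.comp continuous_fst
    refine ((continuous_const.sub hp).div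
      (continuous_norm.comp (continuous_subtype_val.comp continuous_snd)) ?_).add hp
    intro p
    exact norm_ne_zero_iff.mpr p.2.2
  · apply Subtype.ext
    change (((1 - ((0 : I) : ℝ)) / ‖z.1‖ + ((0 : I) : ℝ) : ℝ) : ℂ) * z.1 = z.1 / (‖z.1‖ : ℂ)
    rw [Set.Icc.coe_zero]
    push_cast
    ring
  · apply Subtype.ext
    change (((1 - ((1 : I) : ℝ)) / ‖z.1‖ + ((1 : I) : ℝ) : ℝ) : ℂ) * z.1 = z.1
    rw [Set.Icc.coe_one]
    push_cast
    ring

theorem exists_split_Circle : ∃ θ : H 1 Circle ℤ, Split2 Circle (T.of 1 θ) := by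
  obtain ⟨θ, hθ⟩ := exists_split_Cst
  have h := hθ.of_bij circIncl (fun X _ => idX_bij_of_homotopic (g := circRetr)
    (by rw [circRetr_circIncl]) circIncl_circRetr X)
  rw [T.map_of] at h
  exact ⟨_, h⟩

/-! ## The suspension of `U(1)` -/

/-- `U(1)` and the circle. -/
def circU : C(UGt (Fin 1), Circle) where
  toFun u := ⟨u.1 0 0, mem_sphere_zero_iff_norm.2 (by
    have h : (u.1)ᴴ * u.1 = 1 := Matrix.mem_unitaryGroup_iff'.mp u.2
    have h2 := congrFun (congrFun h 0) 0
    rw [Matrix.mul_apply] at h2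
    simp only [Finset.univ_unique, Fin.default_eq_zero, Fin.isValue, Matrix.conjTranspose_apply,
      Finset.sum_singleton, Matrix.one_apply_eq, Complex.star_def, Complex.conj_mul'] at h2
    have h3 : ‖u.1 0 0‖ ^ 2 = 1 := by exact_mod_cast h2
    nlinarith [norm_nonneg (u.1 0 0)])⟩
  continuous_toFun := by
    refine Continuous.subtype_mk ?_ _
    exact continuous_subtype_val.matrix_elem 0 0

/-- The circle and `U(1)`. -/
def Ucirc : C(Circle, UGt (Fin 1)) where
  toFun z := ⟨Matrix.of fun _ _ => cv z, by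
    rw [Matrix.mem_unitaryGroup_iff']
    ext i j
    have hi := Fin.fin_one_eq_zero i
    have hj := Fin.fin_one_eq_zero j
    subst hi hj
    rw [Matrix.mul_apply]
    simp only [Finset.univ_unique, Fin.default_eq_zero, Fin.isValue, Matrix.star_apply,
      Finset.sum_singleton, Matrix.one_apply_eq, Matrix.of_apply, star_cv_mul]⟩
  continuous_toFun := by
    refine Continuous.subtype_mk ?_ _
    refine continuous_matrix (fun i j => ?_)
    exact cv.continuous

theorem circU_Ucirc : circU.comp Ucirc = ContinuousMap.id Circle := by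
  ext z
  rfl

theorem Ucirc_circU : Ucirc.comp circU = ContinuousMap.id (UGt (Fin 1)) := by
  ext u : 1
  apply Subtype.ext
  ext i j
  have hi := Fin.fin_one_eq_zero i
  have hj := Fin.fin_one_eq_zero j
  subst hi hj
  rfl

theorem exists_split_U1 : ∃ θ : H 1 (UGt (Fin 1)) ℤ, Split2 (UGt (Fin 1)) (T.of 1 θ) := by
  obtain ⟨θ, hθ⟩ := exists_split_Circle
  have h := hθ.of_bij circU (fun X _ => idX_bij_of_homotopic (g := Ucirc)
    (by rw [Ucirc_circU]) (by rw [circU_Ucirc]) X)
  rw [T.map_of] at h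
  exact ⟨_, h⟩

theorem PtLike.of_contractible {U : Type} [TopologicalSpace U] [ContractibleSpace U] : PtLike U := by
  obtain ⟨u₀, hu⟩ := (contractible_iff_id_nullhomotopic U).mp inferInstance
  exact PtLike.of_homotopic u₀ hu.symm

theorem exists_split_BB1 : ∃ c : H 2 (BB (Fin 1)) ℤ, Split2 (BB (Fin 1)) (T.of 2 c) := by
  obtain ⟨θ, hθ⟩ := exists_split_U1
  have h := hθ.of_bij (prU (Fin 1)) (fun X _ => idX_bij_of_homotopic (g := eqU (Fin 1))
    eqU_prU_homotopic (by rw [prU_eqU]) X)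
  rw [T.map_of] at h
  obtain ⟨c, hc⟩ := H83.MV.exists (BB.susp (Fin 1)).sq (H.pb (prU (Fin 1)) θ)
  have := (BB.susp (Fin 1)).contractible_Ap
  have := (BB.susp (Fin 1)).contractible_Am
  exact ⟨c, Split2.susp (BB.susp (Fin 1)).sq PtLike.of_contractible PtLike.of_contractible h
    (MVT.of hc)⟩

/-! ## The projective line -/

/-- The homeomorphism from the suspension of `U(1)` to the projective line. -/
def toCP1 : C(BB (Fin 1), CP1) where
  toFun x := ⟨((bott (Fin 1) 1 rfl).reindex finSumFinEquiv).P x,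
    ((bott (Fin 1) 1 rfl).reindex finSumFinEquiv).herm x,
    ((bott (Fin 1) 1 rfl).reindex finSumFinEquiv).idem x, by
      have := ((bott (Fin 1) 1 rfl).reindex finSumFinEquiv).tr x
      rwa [Nat.cast_one] at this⟩
  continuous_toFun := ((bott (Fin 1) 1 rfl).reindex finSumFinEquiv).cont.subtype_mk _

namespace CP1

/-- The matrix of a point of the projective line. -/
def mat (P : CP1) : Matrix (Fin 2) (Fin 2) ℂ := P.1

theorem continuous_mat : Continuous mat := continuous_subtype_val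

theorem ext' {P Q : CP1} (h : P.mat = Q.mat) : P = Q := Subtype.ext h

theorem herm (P : CP1) : (P.mat)ᴴ = P.mat := P.2.1

theorem idem (P : CP1) : P.mat * P.mat = P.mat := P.2.2.1

theorem tr (P : CP1) : P.mat.trace = 1 := P.2.2.2

theorem star_entry (P : CP1) (i j : Fin 2) : star (P.mat i j) = P.mat j i := by
  have h := congrFun (congrFun P.herm j) i
  rw [Matrix.conjTranspose_apply] at h
  exact h

theorem real_entry (P : CP1) : (((P.mat 0 0).re : ℝ) : ℂ) = P.mat 0 0 := by
  have h := P.star_entry 0 0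
  exact Complex.conj_eq_iff_re.mp h

theorem trace_eq (P : CP1) : P.mat 0 0 + P.mat 1 1 = 1 := by
  have h := P.tr
  rw [Matrix.trace_fin_two] at h
  exact h

theorem sq_entry (P : CP1) : P.mat 0 0 * P.mat 0 0 + P.mat 0 1 * P.mat 1 0 = P.mat 0 0 := by
  have h := congrFun (congrFun P.idem 0) 0
  rw [Matrix.mul_apply, Fin.sum_univ_two] at h
  exact h

theorem norm_entry (P : CP1) :
    star (P.mat 1 0) * P.mat 1 0 = P.mat 0 0 - P.mat 0 0 * P.mat 0 0 := by
  rw [P.star_entry]
  linear_combination P.sq_entry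

end CP1

theorem toCP1_entries (x : BB (Fin 1)) :
    (toCP1 x).mat 0 0 = (1 / 2 : ℂ) * (1 + (x.ht : ℂ)) ∧ (toCP1 x).mat 1 0 = (1 / 2 : ℂ) * x.M 0 0 ∧
    (toCP1 x).mat 0 1 = (1 / 2 : ℂ) * star (x.M 0 0) ∧
      (toCP1 x).mat 1 1 = (1 / 2 : ℂ) * (1 - (x.ht : ℂ)) := by
  have e0 : (finSumFinEquiv : Fin 1 ⊕ Fin 1 ≃ Fin (1 + 1)).symm 0 = Sum.inl 0 := rfl
  have e1 : (finSumFinEquiv : Fin 1 ⊕ Fin 1 ≃ Fin (1 + 1)).symm 1 = Sum.inr 0 := rfl
  refine ⟨?_, ?_, ?_, ?_⟩
  · change BB.bottM x ((finSumFinEquiv : Fin 1 ⊕ Fin 1 ≃ Fin (1 + 1)).symm 0)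
      ((finSumFinEquiv : Fin 1 ⊕ Fin 1 ≃ Fin (1 + 1)).symm 0) = _
    rw [e0, BB.bottM]
    simp
  · change BB.bottM x ((finSumFinEquiv : Fin 1 ⊕ Fin 1 ≃ Fin (1 + 1)).symm 1)
      ((finSumFinEquiv : Fin 1 ⊕ Fin 1 ≃ Fin (1 + 1)).symm 0) = _
    rw [e0, e1, BB.bottM]
    simp
  · change BB.bottM x ((finSumFinEquiv : Fin 1 ⊕ Fin 1 ≃ Fin (1 + 1)).symm 0)
      ((finSumFinEquiv : Fin 1 ⊕ Fin 1 ≃ Fin (1 + 1)).symm 1) = _
    rw [e0, e1, BB.bottM]
    simp
  · change BB.bottM x ((finSumFinEquiv : Fin 1 ⊕ Fin 1 ≃ Fin (1 + 1)).symm 1)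
      ((finSumFinEquiv : Fin 1 ⊕ Fin 1 ≃ Fin (1 + 1)).symm 1) = _
    rw [e1, BB.bottM]
    simp

/-- The inverse homeomorphism. -/
def ofCP1 : C(CP1, BB (Fin 1)) where
  toFun P := ⟨(Matrix.of fun _ _ => 2 * P.mat 1 0, 2 * (P.mat 0 0).re - 1), by
    have h := P.norm_entry
    have h2 := P.real_entry
    constructor
    · ext i j
      have hi := Fin.fin_one_eq_zero i
      have hj := Fin.fin_one_eq_zero j
      subst hi hj
      rw [Matrix.mul_apply]
      have h3 : star (2 : ℂ) = 2 := Complex.conj_ofNat 2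
      simp only [Finset.univ_unique, Fin.default_eq_zero, Fin.isValue, Matrix.conjTranspose_apply,
        Finset.sum_singleton, Matrix.one_apply_eq, Matrix.smul_apply, smul_eq_mul, mul_one,
        Matrix.of_apply, star_mul', h3]
      push_cast
      rw [h2]
      linear_combination 4 * h
    · have h4 : star (P.mat 1 0) * P.mat 1 0 = ((‖P.mat 1 0‖ ^ 2 : ℝ) : ℂ) := by
        rw [Complex.star_def, Complex.conj_mul']
        push_cast
        rfl
      rw [h4, ← h2] at h
      have h5 : ‖P.mat 1 0‖ ^ 2 = (P.mat 0 0).re - (P.mat 0 0).re * (P.mat 0 0).re := by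
        exact_mod_cast h
      change |2 * (P.mat 0 0).re - 1| ≤ 1
      rw [← sq_le_one_iff_abs_le_one]
      nlinarith [sq_nonneg ‖P.mat 1 0‖]⟩
  continuous_toFun := by
    refine Continuous.subtype_mk ?_ _
    have h1 := CP1.continuous_mat
    refine Continuous.prodMk ?_ ?_
    · refine continuous_matrix (fun i j => ?_)
      exact continuous_const.mul (h1.matrix_elem 1 0)
    · exact (continuous_const.mul (Complex.continuous_re.comp (h1.matrix_elem 0 0))).sub
        continuous_const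

theorem ofCP1_toCP1 : ofCP1.comp toCP1 = ContinuousMap.id (BB (Fin 1)) := by
  ext x : 1
  obtain ⟨h1, h2, -, -⟩ := toCP1_entries x
  apply BB.ext
  · ext i j
    have hi := Fin.fin_one_eq_zero i
    have hj := Fin.fin_one_eq_zero j
    subst hi hj
    change 2 * (toCP1 x).mat 1 0 = x.M 0 0
    rw [h2]
    ring
  · change 2 * ((toCP1 x).mat 0 0).re - 1 = x.ht
    rw [h1]
    simp

theorem toCP1_ofCP1 : toCP1.comp ofCP1 = ContinuousMap.id CP1 := by
  ext P : 1
  obtain ⟨h1, h2, h3, h4⟩ := toCP1_entries (ofCP1 P)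
  have e1 : ((ofCP1 P).ht : ℂ) = 2 * P.mat 0 0 - 1 := by
    change ((2 * (P.mat 0 0).re - 1 : ℝ) : ℂ) = _
    push_cast
    rw [P.real_entry]
  have e2 : (ofCP1 P).M 0 0 = 2 * P.mat 1 0 := rfl
  apply CP1.ext'
  ext i j
  change (toCP1 (ofCP1 P)).mat i j = P.mat i j
  fin_cases i <;> fin_cases j
  · refine h1.trans ?_
    rw [e1]
    change _ = P.mat 0 0
    ring
  · refine h3.trans ?_
    have h5 : star (2 : ℂ) = 2 := Complex.conj_ofNat 2
    rw [e2, star_mul', P.star_entry, h5]
    change _ = P.mat 0 1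
    ring
  · refine h2.trans ?_
    rw [e2]
    change _ = P.mat 1 0
    ring
  · refine h4.trans ?_
    rw [e1]
    change _ = P.mat 1 1
    linear_combination (-1) * P.trace_eq

end

end Pool.Agent.Lib.MP_904b2a_gt
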