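import Pool.Agent.Lib.MP_904b2a_gt.H74.CheData
import Pool.Agent.Lib.MP_904b2a_gt.H78.Blk

/-!
# MP_904b2a_gt, module CHE (helper74): stability (C3)
-/

open scoped BigOperators Matrix
open Set

namespace Pool.Agent.Lib.MP_904b2a_gt

open H83

noncomputable section

variable (𝒞 : ChernTheory) {n m l : Type} [Fintype n] [DecidableEq n] [Fintype m] [DecidableEq m]
  [Fintype l] [DecidableEq l]

/-- A height preserving map of suspensions which preserves the total Chern class. -/
theorem xU_of_map (D : C(BB n, BB l)) (hht : ∀ x, (D x).ht = x.ht)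
    (hc : cB 𝒞 D = cU 𝒞 n) (e : C(UGt n, UGt l))
    (he : ∀ u : UGt n, (e u).1 = (D (eqU n u).1).M) (k : ℕ) :
    H.pb e (xU 𝒞 l k) = xU 𝒞 n k := by
  have h := xU_mv 𝒞 (n := l) k
  have g1 : MapsTo D (BB.susp n).Ap (BB.susp l).Ap := fun x hx => by
    change -1 < (D x).ht
    rw [hht]
    exact hx
  have g2 : MapsTo D (BB.susp n).Am (BB.susp l).Am := fun x hx => by
    change (D x).ht < 1
    rw [hht]
    exact hx
  have h1 := h.pb D g1 g2
  have h2 : H.pb D (cU' 𝒞 l k) = cU' 𝒞 n k := by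
    have h3 := congrFun (cB_eq_map 𝒞 D) (2 * k + 1 + 1)
    rw [hc] at h3
    exact h3.symm
  rw [h2] at h1
  have h3 := xU_eq 𝒞 h1
  rw [h3, H.pb_comp, H.pb_comp]
  congr 2
  ext u : 1
  apply Subtype.ext
  change (e u).1 = (((BB.rad (D (eqU n u).1).ht)⁻¹ : ℝ) : ℂ) • (D (eqU n u).1).M
  rw [he, hht]
  change _ = (((BB.rad 0)⁻¹ : ℝ) : ℂ) • _
  rw [BB.rad_zero]
  simp

/-- The classes of degree greater than the rank vanish. -/
theorem xU_eq_zero {k : ℕ} (h : Fintype.card n ≤ k) : xU 𝒞 n k = 0 := by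
  have h1 : cU' 𝒞 n k = 0 := by
    rw [cU'_eq]
    exact cP_gt 𝒞 _ (by omega)
  have h2 : MV (BB.susp n).Ap (BB.susp n).Am (2 * k + 1) (cU' 𝒞 n k) 0 := by
    rw [h1]
    exact MV.zero
  rw [xU_eq 𝒞 h2, map_zero]

/-- The map of suspensions induced by the block inclusion. -/
def blkB (e : n ⊕ m ≃ l) : C(BB n, BB l) :=
  BB.lift (fun x => Matrix.reindex e e (Matrix.fromBlocks x.M 0 0
    (((BB.rad x.ht : ℝ) : ℂ) • (1 : Matrix m m ℂ)))) BB.ht
    ((Continuous.matrix_fromBlocks BB.continuous_M continuous_const continuous_const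
      ((Complex.continuous_ofReal.comp (BB.continuous_rad.comp BB.continuous_ht)).smul
        continuous_const)).matrix_reindex e e) BB.continuous_ht
    (fun x => by
      rw [Matrix.conjTranspose_reindex, Matrix.fromBlocks_conjTranspose]
      simp only [Matrix.reindex_apply]
      rw [Matrix.submatrix_mul_equiv, Matrix.fromBlocks_multiply]
      simp only [Matrix.conjTranspose_zero, Matrix.zero_mul, Matrix.mul_zero, add_zero, zero_add,
        Matrix.conjTranspose_smul, Matrix.conjTranspose_one, Matrix.smul_mul, Matrix.mul_smul,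
        Matrix.one_mul, x.MhM, smul_smul, Complex.star_def, Complex.conj_ofReal]
      rw [← Complex.ofReal_mul, BB.rad_sq x.abs_ht, ← Matrix.submatrix_one_equiv e.symm,
        ← Matrix.fromBlocks_one]
      have hs : ∀ (c : ℂ) (A : Matrix (n ⊕ m) (n ⊕ m) ℂ),
          c • A.submatrix e.symm e.symm = (c • A).submatrix e.symm e.symm := fun _ _ => rfl
      rw [hs, Matrix.fromBlocks_smul]
      simp) BB.abs_ht

theorem blkB_ht (e : n ⊕ m ≃ l) (x : BB n) : (blkB e x).ht = x.ht := rfl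

theorem blkB_M (e : n ⊕ m ≃ l) (x : BB n) : (blkB e x).M =
    Matrix.reindex e e (Matrix.fromBlocks x.M 0 0 (((BB.rad x.ht : ℝ) : ℂ) • (1 : Matrix m m ℂ))) :=
  rfl

theorem cB_blkB (e : n ⊕ m ≃ l) : cB 𝒞 (blkB e) = cU 𝒞 n := by
  have h := cB_diag 𝒞 (ContinuousMap.id (BB n)) (BB.unit m (ContinuousMap.id (BB n)))
    (fun x => (BB.unit_ht _ x).symm)
  rw [cB_unit, mul_one] at h
  have h2 := cB_reindex 𝒞 e (BB.diag (ContinuousMap.id (BB n)) (BB.unit m
    (ContinuousMap.id (BB n))) (fun x => (BB.unit_ht _ x).symm)) (blkB e) (fun x => rfl)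
    (fun x => rfl)
  rw [h2, h]
  rfl

/-- **Stability**: the restriction of `x_k` along the block inclusion. -/
theorem xU_blk (e : n ⊕ m ≃ l) (k : ℕ) :
    H.pb (blkC e) (xU 𝒞 l k) = xU 𝒞 n k := by
  refine xU_of_map 𝒞 (blkB e) (blkB_ht e) (cB_blkB 𝒞 e) _ (fun u => ?_) k
  rw [blkB_M]
  change Matrix.reindex e e (Matrix.fromBlocks u.1 0 0 1) =
    Matrix.reindex e e (Matrix.fromBlocks u.1 0 0 (((BB.rad 0 : ℝ) : ℂ) • 1))
  rw [BB.rad_zero]
  simp

/-- **Stability** for an arbitrary map to the unitary group which is given by the block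
inclusion up to conjugation by a fixed unitary matrix (more generally: if `g` is homotopic to the
block inclusion then the same formula holds). -/
theorem xU_of_homotopic (e : n ⊕ m ≃ l) (k : ℕ) {g : C(UGt n, UGt l)}
    (h : g.Homotopic (blkC e)) : H.pb g (xU 𝒞 l k) = xU 𝒞 n k := by
  rw [H.pb_eq_of_homotopic h, xU_blk]

/-- Conjugation by a fixed unitary matrix does not change the class. -/
theorem xU_conj {Y : Type} [TopologicalSpace Y] (g : C(Y, UGt n)) (a : UGt n) (k : ℕ) :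
    H.pb (⟨fun y => a * g y * a⁻¹, by fun_prop⟩ : C(Y, UGt n)) (xU 𝒞 n k) =
      H.pb g (xU 𝒞 n k) := by
  have e : (⟨fun y => a * g y * a⁻¹, by fun_prop⟩ : C(Y, UGt n)) =
      ContinuousMap.const Y a * g * (ContinuousMap.const Y a)⁻¹ := by
    ext y : 1
    rfl
  rw [e, xU_mul, xU_mul, xU_inv]
  abel

/-- The classes of the unitary group of `Fin r`. -/
theorem xr_blk {r s : ℕ} {m : Type} [Fintype m] [DecidableEq m] (e : Fin s ⊕ m ≃ Fin r) (k : ℕ) :
    H.pb (blkC e) (xr 𝒞 r k) = xr 𝒞 s k := xU_blk 𝒞 e k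

theorem xr_eq_zero {r k : ℕ} (h : r ≤ k) : xr 𝒞 r k = 0 :=
  xU_eq_zero 𝒞 (by rwa [Fintype.card_fin])

/-- Left multiplication with a fixed unitary matrix does not change the class. -/
theorem xU_const_mul {Y : Type} [TopologicalSpace Y] (g : C(Y, UGt n)) (a : UGt n) (k : ℕ) :
    H.pb (ContinuousMap.const Y a * g) (xU 𝒞 n k) = H.pb g (xU 𝒞 n k) := by
  have h : H.pb (ContinuousMap.const Y a) (xU 𝒞 n k) = 0 := by
    have e : ContinuousMap.const Y a =
        (ContinuousMap.const Unit a).comp (ContinuousMap.const Y ()) := rfl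
    rw [e, ← H.pb_comp, H.eq_zero_of_subsingleton (2 * k) (H.pb (ContinuousMap.const Unit a)
      (xU 𝒞 n k)), map_zero]
  rw [xU_mul, h, zero_add]

end

end Pool.Agent.Lib.MP_904b2a_gt
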