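import Mathlib

/-!
# MP_904b2a_gt, module CHE (helper74): unreduced suspensions

A space `X` with coordinates `v : X → E` and `s : X → ℝ`, `|s| ≤ 1`, closed under the rescalings
`(v, s) ↦ (c v, s')`, `c² (1 - s²) = 1 - s'²`. The open sets `s > -1` and `s < 1` are contractible
and their intersection is homotopy equivalent to `{s = 0}`.
-/

open scoped BigOperators unitInterval

namespace Pool.Agent.Lib.MP_904b2a_gt

noncomputable section

/-- A model of an unreduced suspension. -/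
structure Susp (X : Type) [TopologicalSpace X] (E : Type) [AddCommGroup E] [Module ℝ E]
    [TopologicalSpace E] where
  v : X → E
  s : X → ℝ
  emb : Topology.IsEmbedding (fun x => (v x, s x))
  abs_s : ∀ x, |s x| ≤ 1
  scale : ∀ x c s', 0 ≤ c → |s'| ≤ 1 → c ^ 2 * (1 - s x ^ 2) = 1 - s' ^ 2 →
    ∃ y, v y = c • v x ∧ s y = s'

namespace Susp

variable {X : Type} [TopologicalSpace X] {E : Type} [AddCommGroup E] [Module ℝ E]
    [TopologicalSpace E] (D : Susp X E)

theorem ext {x y : X} (h1 : D.v x = D.v y) (h2 : D.s x = D.s y) : x = y :=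
  D.emb.injective (Prod.ext h1 h2)

theorem continuous_v : Continuous D.v := continuous_fst.comp D.emb.continuous

theorem continuous_s : Continuous D.s := continuous_snd.comp D.emb.continuous

theorem le_one (x : X) : D.s x ≤ 1 := (abs_le.mp (D.abs_s x)).2

theorem neg_one_le (x : X) : -1 ≤ D.s x := (abs_le.mp (D.abs_s x)).1

open Classical in
/-- Rescaling. -/
def mv (x : X) (c s' : ℝ) : X :=
  if h : ∃ y, D.v y = c • D.v x ∧ D.s y = s' then h.choose else x

theorem mv_v {x : X} {c s' : ℝ} (h0 : 0 ≤ c) (h1 : |s'| ≤ 1)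
    (h2 : c ^ 2 * (1 - D.s x ^ 2) = 1 - s' ^ 2) : D.v (D.mv x c s') = c • D.v x := by
  have h := D.scale x c s' h0 h1 h2
  rw [mv, dif_pos h]
  exact h.choose_spec.1

theorem mv_s {x : X} {c s' : ℝ} (h0 : 0 ≤ c) (h1 : |s'| ≤ 1)
    (h2 : c ^ 2 * (1 - D.s x ^ 2) = 1 - s' ^ 2) : D.s (D.mv x c s') = s' := by
  have h := D.scale x c s' h0 h1 h2
  rw [mv, dif_pos h]
  exact h.choose_spec.2

theorem mv_one (x : X) : D.mv x 1 (D.s x) = x := by
  apply D.ext
  · rw [D.mv_v zero_le_one (D.abs_s x) (by ring), one_smul]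
  · rw [D.mv_s zero_le_one (D.abs_s x) (by ring)]

/-- Continuity of rescalings. -/
theorem continuous_mv [ContinuousSMul ℝ E] {T : Type*} [TopologicalSpace T] {f : T → X} {c s' : T → ℝ}
    (hf : Continuous f) (hc : Continuous c) (hs : Continuous s') (h0 : ∀ t, 0 ≤ c t)
    (h1 : ∀ t, |s' t| ≤ 1) (h2 : ∀ t, c t ^ 2 * (1 - D.s (f t) ^ 2) = 1 - s' t ^ 2) :
    Continuous fun t => D.mv (f t) (c t) (s' t) := by
  rw [D.emb.continuous_iff]
  have : (fun x => (D.v x, D.s x)) ∘ (fun t => D.mv (f t) (c t) (s' t)) =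
      fun t => (c t • D.v (f t), s' t) := by
    funext t
    exact Prod.ext (D.mv_v (h0 t) (h1 t) (h2 t)) (D.mv_s (h0 t) (h1 t) (h2 t))
  rw [this]
  exact (hc.smul (D.continuous_v.comp hf)).prodMk hs

/-- The open set `s > -1`. -/
def Ap : Set X := {x | -1 < D.s x}

/-- The open set `s < 1`. -/
def Am : Set X := {x | D.s x < 1}

theorem isOpen_Ap : IsOpen D.Ap := isOpen_lt continuous_const D.continuous_s

theorem isOpen_Am : IsOpen D.Am := isOpen_lt D.continuous_s continuous_const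

theorem Ap_union_Am : D.Ap ∪ D.Am = Set.univ := by
  ext x
  simp only [Set.mem_union, Set.mem_univ, iff_true]
  by_cases h : -1 < D.s x
  · exact Or.inl h
  · right
    have : D.s x ≤ -1 := not_lt.mp h
    change D.s x < 1
    linarith

/-- The scaling factor of the contraction. -/
def cf (s t : ℝ) : ℝ := Real.sqrt ((1 - t) * (1 + s + t * (1 - s)) / (1 + s))

theorem cf_nonneg (s t : ℝ) : 0 ≤ cf s t := Real.sqrt_nonneg _

theorem cf_sq {s t : ℝ} (hs : -1 < s) (hs' : s ≤ 1) (ht : 0 ≤ t) (ht' : t ≤ 1) :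
    cf s t ^ 2 * (1 - s ^ 2) = 1 - (s + t * (1 - s)) ^ 2 := by
  have h1 : 0 < 1 + s := by linarith
  rw [cf, Real.sq_sqrt]
  · field_simp
    ring
  · apply div_nonneg _ h1.le
    apply mul_nonneg (by linarith)
    have := mul_nonneg ht (show 0 ≤ 1 - s by linarith)
    linarith

theorem abs_target {s t : ℝ} (hs : -1 < s) (hs' : s ≤ 1) (ht : 0 ≤ t) (ht' : t ≤ 1) :
    |s + t * (1 - s)| ≤ 1 := by
  rw [abs_le]
  have h1 := mul_nonneg ht (show 0 ≤ 1 - s by linarith)
  have h2 := mul_nonneg (show 0 ≤ 1 - t by linarith) (show 0 ≤ 1 - s by linarith)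
  constructor <;> nlinarith

theorem contractible_Ap [ContinuousSMul ℝ E] [Nonempty X] : ContractibleSpace D.Ap := by
  have hne : Nonempty D.Ap := by
    obtain ⟨x⟩ := (inferInstance : Nonempty X)
    refine ⟨⟨D.mv x 0 1, ?_⟩⟩
    change -1 < D.s (D.mv x 0 1)
    have : ∃ y, D.v y = (0 : ℝ) • D.v x ∧ D.s y = 1 := D.scale x 0 1 le_rfl (by simp) (by ring)
    rw [mv, dif_pos this, this.choose_spec.2]
    norm_num
  obtain ⟨x₀⟩ := hne
  rw [contractible_iff_id_nullhomotopic]
  have hpole : ∀ x : D.Ap, D.v (D.mv x.1 (cf (D.s x.1) 1) (D.s x.1 + 1 * (1 - D.s x.1))) = 0 := by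
    intro x
    rw [D.mv_v (cf_nonneg _ _) (abs_target x.2 (D.le_one _) zero_le_one le_rfl)
      (cf_sq x.2 (D.le_one _) zero_le_one le_rfl)]
    simp [cf]
  let K : C(I × D.Ap, D.Ap) :=
    { toFun := fun p => ⟨D.mv p.2.1 (cf (D.s p.2.1) p.1)
        (D.s p.2.1 + p.1 * (1 - D.s p.2.1)), by
          change -1 < D.s _
          rw [D.mv_s (cf_nonneg _ _) (abs_target p.2.2 (D.le_one _) p.1.2.1 p.1.2.2)
            (cf_sq p.2.2 (D.le_one _) p.1.2.1 p.1.2.2)]
          have h1 := mul_nonneg p.1.2.1 (show 0 ≤ 1 - D.s p.2.1 by linarith [D.le_one p.2.1])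
          have h2 : -1 < D.s p.2.1 := p.2.2
          linarith⟩
      continuous_toFun := by
        refine Continuous.subtype_mk ?_ _
        have hs : Continuous fun p : I × D.Ap => D.s p.2.1 :=
          D.continuous_s.comp (continuous_subtype_val.comp continuous_snd)
        have ht : Continuous fun p : I × D.Ap => (p.1 : ℝ) :=
          continuous_subtype_val.comp continuous_fst
        refine D.continuous_mv (continuous_subtype_val.comp continuous_snd) ?_
          (hs.add (ht.mul (continuous_const.sub hs))) (fun _ => cf_nonneg _ _)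
          (fun p => abs_target p.2.2 (D.le_one _) p.1.2.1 p.1.2.2)
          (fun p => cf_sq p.2.2 (D.le_one _) p.1.2.1 p.1.2.2)
        refine Real.continuous_sqrt.comp (Continuous.div ?_ (continuous_const.add hs) ?_)
        · exact (continuous_const.sub ht).mul
            ((continuous_const.add hs).add (ht.mul (continuous_const.sub hs)))
        · intro p
          have : -1 < D.s p.2.1 := p.2.2
          change 1 + D.s p.2.1 ≠ 0
          linarith }
  refine ⟨K (1, x₀), ⟨⟨K, fun x => ?_, fun x => ?_⟩⟩⟩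
  · apply Subtype.ext
    change D.mv x.1 (cf (D.s x.1) ((0 : I) : ℝ)) (D.s x.1 + ((0 : I) : ℝ) * (1 - D.s x.1)) = x.1
    have h1 : (1 + D.s x.1) ≠ 0 := by
      have : -1 < D.s x.1 := x.2
      linarith
    have h2 : cf (D.s x.1) ((0 : I) : ℝ) = 1 := by
      simp [cf, h1]
    rw [h2]
    simp only [Set.Icc.coe_zero, zero_mul, add_zero]
    exact D.mv_one x.1
  · apply Subtype.ext
    change D.mv x.1 (cf (D.s x.1) ((1 : I) : ℝ)) (D.s x.1 + ((1 : I) : ℝ) * (1 - D.s x.1)) =
      D.mv x₀.1 (cf (D.s x₀.1) ((1 : I) : ℝ)) (D.s x₀.1 + ((1 : I) : ℝ) * (1 - D.s x₀.1))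
    simp only [Set.Icc.coe_one]
    apply D.ext
    · rw [hpole x, hpole x₀]
    · rw [D.mv_s (cf_nonneg _ _) (abs_target x.2 (D.le_one _) zero_le_one le_rfl)
        (cf_sq x.2 (D.le_one _) zero_le_one le_rfl),
        D.mv_s (cf_nonneg _ _) (abs_target x₀.2 (D.le_one _) zero_le_one le_rfl)
        (cf_sq x₀.2 (D.le_one _) zero_le_one le_rfl)]
      ring

/-- Reflection of the height. -/
def neg : Susp X E where
  v := D.v
  s x := - D.s x
  emb := by
    have h : Topology.IsEmbedding (Prod.map (id : E → E) (fun r : ℝ => -r)) :=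
      ((Homeomorph.refl E).prodCongr (Homeomorph.neg ℝ)).isEmbedding
    exact h.comp D.emb
  abs_s x := by rw [abs_neg]; exact D.abs_s x
  scale x c s' h0 h1 h2 := by
    obtain ⟨y, hy1, hy2⟩ := D.scale x c (-s') h0 (by rwa [abs_neg]) (by
      have e : (-(D.s x)) ^ 2 = D.s x ^ 2 := by ring
      rw [e] at h2
      rw [h2]
      ring)
    exact ⟨y, hy1, by rw [hy2, neg_neg]⟩

theorem neg_Ap : D.neg.Ap = D.Am := by
  ext x
  change -1 < - D.s x ↔ D.s x < 1
  constructor <;> intro h <;> linarith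

theorem contractible_Am [ContinuousSMul ℝ E] [Nonempty X] : ContractibleSpace D.Am := by
  rw [← D.neg_Ap]
  exact D.neg.contractible_Ap

/-- The open set `|s| < 1`. -/
def A0 : Set X := D.Ap ∩ D.Am

theorem mem_A0 {x : X} : x ∈ D.A0 ↔ D.s x ^ 2 < 1 := by
  rw [sq_lt_one_iff_abs_lt_one, abs_lt]
  rfl

/-- The equator. -/
def Eqt : Set X := {x | D.s x = 0}

theorem Eqt_sub : D.Eqt ⊆ D.A0 := by
  intro x hx
  have h : D.s x = 0 := hx
  rw [mem_A0, h]
  norm_num

/-- The inclusion of the equator. -/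
def eqIncl : C(D.Eqt, D.A0) where
  toFun x := ⟨x.1, D.Eqt_sub x.2⟩
  continuous_toFun := continuous_subtype_val.subtype_mk _

/-- The factor of the retraction to the equator. -/
def ef (s t : ℝ) : ℝ := Real.sqrt ((1 - ((1 - t) * s) ^ 2) / (1 - s ^ 2))

theorem abs_target' {s t : ℝ} (hs : s ^ 2 < 1) (ht : 0 ≤ t) (ht' : t ≤ 1) :
    |(1 - t) * s| ≤ 1 := by
  rw [abs_mul, abs_of_nonneg (show 0 ≤ 1 - t by linarith)]
  have : |s| ≤ 1 := ((sq_lt_one_iff_abs_lt_one s).mp hs).le
  calc (1 - t) * |s| ≤ 1 * 1 := mul_le_mul (by linarith) this (abs_nonneg _) zero_le_one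
    _ = 1 := one_mul _

theorem ef_nonneg (s t : ℝ) : 0 ≤ ef s t := Real.sqrt_nonneg _

theorem ef_sq {s t : ℝ} (hs : s ^ 2 < 1) (ht : 0 ≤ t) (ht' : t ≤ 1) :
    ef s t ^ 2 * (1 - s ^ 2) = 1 - ((1 - t) * s) ^ 2 := by
  have h1 : 0 < 1 - s ^ 2 := by linarith
  rw [ef, Real.sq_sqrt]
  · field_simp
  · apply div_nonneg _ h1.le
    have := abs_target' hs ht ht'
    rw [← sq_le_one_iff_abs_le_one] at this
    linarith

/-- The deformation of `|s| < 1` to the equator. -/
def defo [ContinuousSMul ℝ E] : C(I × D.A0, D.A0) where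
  toFun p := ⟨D.mv p.2.1 (ef (D.s p.2.1) p.1) ((1 - p.1) * D.s p.2.1), by
    have hs := D.mem_A0.mp p.2.2
    rw [mem_A0, D.mv_s (ef_nonneg _ _) (abs_target' hs p.1.2.1 p.1.2.2)
      (ef_sq hs p.1.2.1 p.1.2.2), mul_pow]
    have h1 : (1 - (p.1 : ℝ)) ^ 2 ≤ 1 := by
      rw [sq_le_one_iff_abs_le_one, abs_le]
      constructor <;> linarith [p.1.2.1, p.1.2.2]
    nlinarith [sq_nonneg (D.s p.2.1)]⟩
  continuous_toFun := by
    refine Continuous.subtype_mk ?_ _
    have hs : Continuous fun p : I × D.A0 => D.s p.2.1 :=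
      D.continuous_s.comp (continuous_subtype_val.comp continuous_snd)
    have ht : Continuous fun p : I × D.A0 => (p.1 : ℝ) :=
      continuous_subtype_val.comp continuous_fst
    refine D.continuous_mv (continuous_subtype_val.comp continuous_snd) ?_
      ((continuous_const.sub ht).mul hs) (fun _ => ef_nonneg _ _)
      (fun p => abs_target' (D.mem_A0.mp p.2.2) p.1.2.1 p.1.2.2)
      (fun p => ef_sq (D.mem_A0.mp p.2.2) p.1.2.1 p.1.2.2)
    refine Real.continuous_sqrt.comp (Continuous.div ?_ (continuous_const.sub (hs.pow 2)) ?_)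
    · exact continuous_const.sub (((continuous_const.sub ht).mul hs).pow 2)
    · intro p
      have := D.mem_A0.mp p.2.2
      change 1 - D.s p.2.1 ^ 2 ≠ 0
      linarith

/-- The retraction to the equator. -/
def eqRetr [ContinuousSMul ℝ E] : C(D.A0, D.Eqt) where
  toFun x := ⟨D.mv x.1 (ef (D.s x.1) 1) 0, by
    have hs := D.mem_A0.mp x.2
    have h := D.mv_s (x := x.1) (c := ef (D.s x.1) 1) (s' := 0) (ef_nonneg _ _) (by simp) (by
      have := ef_sq hs zero_le_one (le_refl (1 : ℝ))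
      rw [this]
      ring)
    exact h⟩
  continuous_toFun := by
    refine Continuous.subtype_mk ?_ _
    have := (continuous_subtype_val.comp D.defo.continuous).comp
      (continuous_const.prodMk continuous_id : Continuous fun x : D.A0 => ((1 : I), x))
    convert this using 2 with x
    simp [defo]

theorem eqRetr_eqIncl [ContinuousSMul ℝ E] : D.eqRetr.comp D.eqIncl = ContinuousMap.id _ := by
  ext x
  apply D.ext
  · have hs : D.s x.1 = 0 := x.2
    change D.v (D.mv x.1 (ef (D.s x.1) 1) 0) = D.v x.1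
    rw [hs]
    have h1 : ef 0 1 = 1 := by simp [ef]
    rw [h1]
    have := D.mv_one x.1
    rw [hs] at this
    rw [this]
  · rw [show D.s (((ContinuousMap.id D.Eqt) x : D.Eqt) : X) = 0 from x.2]
    exact ((D.eqRetr.comp D.eqIncl) x).2

theorem eqIncl_eqRetr [ContinuousSMul ℝ E] : (D.eqIncl.comp D.eqRetr).Homotopic (ContinuousMap.id D.A0) := by
  refine (ContinuousMap.Homotopic.symm ?_)
  refine ⟨⟨D.defo, fun x => ?_, fun x => ?_⟩⟩
  · apply Subtype.ext
    change D.mv x.1 (ef (D.s x.1) ((0 : I) : ℝ)) ((1 - ((0 : I) : ℝ)) * D.s x.1) = x.1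
    have h1 : (1 - D.s x.1 ^ 2) ≠ 0 := by
      have := D.mem_A0.mp x.2
      linarith
    have h2 : ef (D.s x.1) ((0 : I) : ℝ) = 1 := by
      simp [ef, h1]
    rw [h2]
    simp only [Set.Icc.coe_zero, sub_zero, one_mul]
    exact D.mv_one x.1
  · apply Subtype.ext
    change D.mv x.1 (ef (D.s x.1) ((1 : I) : ℝ)) ((1 - ((1 : I) : ℝ)) * D.s x.1) =
      D.mv x.1 (ef (D.s x.1) 1) 0
    simp

end Susp

end

end Pool.Agent.Lib.MP_904b2a_gt
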