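import Pool.Agent.Lib.MP_904b2a_gt.H74.Susp
import Pool.Agent.Lib.MP_904b2a_gt.SmallC
import Pool.Agent.Lib.MP_904b2a_gt.H83.Form

/-!
# MP_904b2a_gt, module CHE (helper74): Mayer–Vietoris for suspensions
-/

open scoped BigOperators unitInterval
open Set

namespace Pool.Agent.Lib.MP_904b2a_gt

open H83

noncomputable section

/-- The square of an open cover. -/
theorem sq_of_cover {X : Type} [TopologicalSpace X] {U V : Set X} (hU : IsOpen U) (hV : IsOpen V)
    (h : U ∪ V = univ) : MVSq (iL U V) (iR U V) (incl U) (incl V) where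
  comm := rfl
  openU := hU.isOpenEmbedding_subtypeVal
  openW := hV.isOpenEmbedding_subtypeVal
  embI := Topology.IsEmbedding.subtypeVal
  cover y := by
    have hy : y ∈ U ∪ V := by rw [h]; trivial
    rcases hy with hy | hy
    · exact Or.inl ⟨⟨y, hy⟩, rfl⟩
    · exact Or.inr ⟨⟨y, hy⟩, rfl⟩
  inter := by
    rintro _ ⟨⟨⟨x, hx⟩, rfl⟩, ⟨⟨x', hx'⟩, h⟩⟩
    have h' : x' = x := h
    subst h'
    exact ⟨⟨x', hx, hx'⟩, rfl⟩

/-- The two Mayer–Vietoris relations agree. -/
theorem mv_iff {X : Type} [TopologicalSpace X] {A : Type*} [AddCommGroup A] {U V : Set X} {n : ℕ}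
    {c : H (n + 1) X A} {a : H n ↥(U ∩ V) A} :
    MV U V n c a ↔ H83.MV (iL U V) (iR U V) (incl U) (incl V) n c a := by
  constructor
  · rintro ⟨γ, α, η, θ, h1, h2, h3, h4, h5⟩
    exact ⟨γ, η, θ, α, h1, h2, h3.symm, h4.symm, h5.symm⟩
  · rintro ⟨γ, η, θ, α, h1, h2, h3, h4, h5⟩
    exact ⟨γ, α, η, θ, h1, h2, h3.symm, h4.symm, h5.symm⟩

namespace Susp

variable {X : Type} [TopologicalSpace X] {E : Type} [AddCommGroup E] [Module ℝ E]
    [TopologicalSpace E] (D : Susp X E)

theorem sq : MVSq (iL D.Ap D.Am) (iR D.Ap D.Am) (incl D.Ap) (incl D.Am) :=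
  sq_of_cover D.isOpen_Ap D.isOpen_Am D.Ap_union_Am

theorem small (A : Type*) [AddCommGroup A] : SmallC D.Ap D.Am A :=
  smallC D.isOpen_Ap D.isOpen_Am D.Ap_union_Am

variable [ContinuousSMul ℝ E] [Nonempty X]

include D in
/-- Products of elements of positive degree vanish. -/
theorem mul_eq_zero {a b : T X} (ha : a 0 = 0) (hb : b 0 = 0) : a * b = 0 := by
  have := D.contractible_Ap
  have := D.contractible_Am
  refine T.mul_eq_zero_of D.sq ?_ ?_
  · ext n
    cases n with
    | zero => rw [T.map_apply, ha, map_zero, T.zero_apply]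
    | succ n => exact H.eq_zero_of_contractible n _
  · ext n
    cases n with
    | zero => rw [T.map_apply, hb, map_zero, T.zero_apply]
    | succ n => exact H.eq_zero_of_contractible n _

/-- Positive-degree classes on the whole space come from the intersection. -/
theorem exists_mv {A : Type*} [AddCommGroup A] (n : ℕ) (c : H (n + 1) X A) :
    ∃ a : H n ↥(D.Ap ∩ D.Am) A, MV D.Ap D.Am n c a := by
  have := D.contractible_Ap
  have := D.contractible_Am
  exact MV.exists_of_res (H.eq_zero_of_contractible n _) (H.eq_zero_of_contractible n _)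

/-- The class on the intersection is unique. -/
theorem mv_inj {A : Type*} [AddCommGroup A] {n : ℕ} {c : H (n + 1 + 1) X A}
    {a a' : H (n + 1) ↥(D.Ap ∩ D.Am) A} (h : MV D.Ap D.Am (n + 1) c a)
    (h' : MV D.Ap D.Am (n + 1) c a') : a = a' := by
  have := D.contractible_Ap
  have := D.contractible_Am
  obtain ⟨p, q, hpq⟩ := h.ambiguity h'
  rw [H.eq_zero_of_contractible n p, H.eq_zero_of_contractible n q, map_zero, map_zero,
    sub_zero] at hpq
  exact sub_eq_zero.mp hpq

end Susp

end

end Pool.Agent.Lib.MP_904b2a_gt
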