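import Pool.Agent.Lib.MP_904b2a_gt.H74.Lines

/-!
# MP_904b2a_gt, module CHE (helper74): the clutching functions `u π + c (1 - π)`
-/

open scoped BigOperators Matrix Kronecker
open Set

namespace Pool.Agent.Lib.MP_904b2a_gt

open H83

noncomputable section

section

variable {X Y : Type} [TopologicalSpace X] [TopologicalSpace Y] {ι : Type} [Fintype ι]
  [DecidableEq ι] {r s : ℕ}

/-- The coordinate `u` of a point `(u, s)` of the suspension of `U(1)`. -/
def BB.u (x : BB (Fin 1)) : ℂ := x.M 0 0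

theorem BB.continuous_u : Continuous BB.u := BB.continuous_M.matrix_elem 0 0

theorem BB.star_u_mul (x : BB (Fin 1)) : star x.u * x.u = ((1 - x.ht ^ 2 : ℝ) : ℂ) := by
  have h := congrFun (congrFun x.MhM 0) 0
  rw [Matrix.mul_apply] at h
  simp only [Finset.univ_unique, Fin.default_eq_zero, Fin.isValue, Matrix.conjTranspose_apply,
    Finset.sum_singleton, Matrix.smul_apply, Matrix.one_apply_eq, smul_eq_mul, mul_one] at h
  exact h

/-- The tensor product of the clutching bundle of `f : X → BB (Fin 1)` with the family `p`. -/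
def tw (f : C(X, BB (Fin 1))) (p : PF r X ι) : PF r X (ι ⊕ ι) where
  P x := (1 / 2 : ℂ) • Matrix.fromBlocks ((1 + ((f x).ht : ℂ)) • p.P x) (star (f x).u • p.P x)
    ((f x).u • p.P x) ((1 - ((f x).ht : ℂ)) • p.P x)
  cont := by
    have h1 : Continuous fun x : X => ((f x).ht : ℂ) :=
      Complex.continuous_ofReal.comp (BB.continuous_ht.comp f.continuous)
    have h2 : Continuous fun x : X => (f x).u := BB.continuous_u.comp f.continuous
    have h3 : Continuous fun x : X => star (f x).u := continuous_star.comp h2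
    have h4 : Continuous fun x : X => Matrix.fromBlocks ((1 + ((f x).ht : ℂ)) • p.P x)
        (star (f x).u • p.P x) ((f x).u • p.P x) ((1 - ((f x).ht : ℂ)) • p.P x) :=
      Continuous.matrix_fromBlocks ((continuous_const.add h1).smul p.cont) (h3.smul p.cont)
        (h2.smul p.cont) ((continuous_const.sub h1).smul p.cont)
    exact h4.const_smul (1 / 2 : ℂ)
  herm x := by
    rw [Matrix.conjTranspose_smul, Matrix.fromBlocks_conjTranspose]
    simp [Matrix.conjTranspose_smul, p.herm]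
  idem x := by
    have e := (f x).star_u_mul
    push_cast at e
    have e' : (f x).u * star (f x).u = 1 - ((f x).ht : ℂ) ^ 2 := by rw [mul_comm, e]
    rw [Matrix.smul_mul, Matrix.mul_smul, Matrix.fromBlocks_multiply, smul_smul]
    simp only [Matrix.smul_mul, Matrix.mul_smul, p.idem, smul_smul, ← add_smul]
    rw [Matrix.fromBlocks_smul, Matrix.fromBlocks_smul]
    simp only [smul_smul]
    congr 1
    · congr 1
      rw [e']
      ring
    · congr 1
      ring
    · congr 1
      ring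
    · congr 1
      rw [e]
      ring
  tr x := by
    rw [Matrix.trace_smul, trace_fromBlocks', Matrix.trace_smul, Matrix.trace_smul, p.tr]
    simp only [smul_eq_mul]
    ring

theorem tw_P (f : C(X, BB (Fin 1))) (p : PF r X ι) (x : X) : (tw f p).P x =
    (1 / 2 : ℂ) • Matrix.fromBlocks ((1 + ((f x).ht : ℂ)) • p.P x) (star (f x).u • p.P x)
    ((f x).u • p.P x) ((1 - ((f x).ht : ℂ)) • p.P x) := rfl

theorem tw_mulVec (f : C(X, BB (Fin 1))) (p : PF r X ι) (x : X) (a b : ℂ) (v : ι → ℂ)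
    (hv : p.P x *ᵥ v = v) : (tw f p).P x *ᵥ Sum.elim (a • v) (b • v) =
      Sum.elim (((1 / 2 : ℂ) * ((1 + ((f x).ht : ℂ)) * a + star (f x).u * b)) • v)
        (((1 / 2 : ℂ) * ((f x).u * a + (1 - ((f x).ht : ℂ)) * b)) • v) := by
  rw [tw_P, Matrix.smul_mulVec, Matrix.fromBlocks_mulVec, Sum.elim_comp_inl, Sum.elim_comp_inr]
  simp only [Matrix.smul_mulVec, Matrix.mulVec_smul, hv]
  funext i
  rcases i with i | i
  · simp only [Pi.smul_apply, Sum.elim_inl, Pi.add_apply, smul_eq_mul]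
    ring
  · simp only [Pi.smul_apply, Sum.elim_inr, Pi.add_apply, smul_eq_mul]
    ring

theorem bottM_mulVec_one (x : BB (Fin 1)) (v : Fin 1 ⊕ Fin 1 → ℂ) (hv : x.bottM *ᵥ v = v) :
    (1 / 2 : ℂ) * ((1 + (x.ht : ℂ)) * v (Sum.inl 0) + star x.u * v (Sum.inr 0)) = v (Sum.inl 0) ∧
      (1 / 2 : ℂ) * (x.u * v (Sum.inl 0) + (1 - (x.ht : ℂ)) * v (Sum.inr 0)) = v (Sum.inr 0) := by
  rw [BB.bottM_mulVec] at hv
  constructor
  · have h := congrFun hv (Sum.inl 0)
    simp only [Sum.elim_inl, Pi.smul_apply, Pi.add_apply, smul_eq_mul, Matrix.mulVec, dotProduct,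
      Finset.univ_unique, Fin.default_eq_zero, Finset.sum_singleton, Matrix.conjTranspose_apply,
      Function.comp_apply] at h
    exact h
  · have h := congrFun hv (Sum.inr 0)
    simp only [Sum.elim_inr, Pi.smul_apply, Pi.add_apply, smul_eq_mul, Matrix.mulVec, dotProduct,
      Finset.univ_unique, Fin.default_eq_zero, Finset.sum_singleton,
      Function.comp_apply] at h
    exact h

variable (𝒞 : ChernTheory)

/-- Twisting with the trivial clutching function does not change the Chern class. -/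
theorem cT_tw_trivial (f : C(X, BB (Fin 1))) (hf : ∀ x, (f x).u = ((BB.rad (f x).ht : ℝ) : ℂ))
    (p : PF r X ι) : cT 𝒞 (tw f p) = cT 𝒞 p := by
  symm
  have hht : Continuous fun x => (f x).ht := BB.continuous_ht.comp f.continuous
  refine cT_congr 𝒞 p (tw f p) (fun x =>
    Matrix.fromRows (((Real.sqrt (1 + (f x).ht) : ℝ) : ℂ) • (1 : Matrix ι ι ℂ))
      (((Real.sqrt (1 - (f x).ht) : ℝ) : ℂ) • (1 : Matrix ι ι ℂ))) ?_ ?_ ?_
  · have c1 : Continuous fun x => ((Real.sqrt (1 + (f x).ht) : ℝ) : ℂ) :=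
      Complex.continuous_ofReal.comp (Real.continuous_sqrt.comp (continuous_const.add hht))
    have c2 : Continuous fun x => ((Real.sqrt (1 - (f x).ht) : ℝ) : ℂ) :=
      Complex.continuous_ofReal.comp (Real.continuous_sqrt.comp (continuous_const.sub hht))
    have c3 : Continuous fun x => ((Real.sqrt (1 + (f x).ht) : ℝ) : ℂ) • (1 : Matrix ι ι ℂ) :=
      c1.smul continuous_const
    have c4 : Continuous fun x => ((Real.sqrt (1 - (f x).ht) : ℝ) : ℂ) • (1 : Matrix ι ι ℂ) :=
      c2.smul continuous_const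
    refine continuous_matrix (fun a b => ?_)
    rcases a with a | a
    · exact c3.matrix_elem a b
    · exact c4.matrix_elem a b
  · intro x v hv
    have e : Matrix.fromRows (((Real.sqrt (1 + (f x).ht) : ℝ) : ℂ) • (1 : Matrix ι ι ℂ))
        (((Real.sqrt (1 - (f x).ht) : ℝ) : ℂ) • (1 : Matrix ι ι ℂ)) *ᵥ v =
        Sum.elim (((Real.sqrt (1 + (f x).ht) : ℝ) : ℂ) • v)
          (((Real.sqrt (1 - (f x).ht) : ℝ) : ℂ) • v) := by
      rw [Matrix.fromRows_mulVec, Matrix.smul_mulVec, Matrix.one_mulVec, Matrix.smul_mulVec,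
        Matrix.one_mulVec]
    rw [e, tw_mulVec f p x _ _ v hv, hf]
    set σ : ℝ := (f x).ht with hσ
    have hp : 0 ≤ 1 + σ := by linarith [(f x).le_ht]
    have hm : 0 ≤ 1 - σ := by linarith [(f x).ht_le]
    have hsq : ((BB.rad σ : ℝ) : ℂ) =
        ((Real.sqrt (1 + σ) : ℝ) : ℂ) * ((Real.sqrt (1 - σ) : ℝ) : ℂ) := by
      rw [← Complex.ofReal_mul, ← Real.sqrt_mul hp, BB.rad]
      congr 2
      ring
    have hpp : ((Real.sqrt (1 + σ) : ℝ) : ℂ) * ((Real.sqrt (1 + σ) : ℝ) : ℂ) = 1 + (σ : ℂ) := by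
      rw [← Complex.ofReal_mul, Real.mul_self_sqrt hp]
      push_cast
      ring
    have hmm : ((Real.sqrt (1 - σ) : ℝ) : ℂ) * ((Real.sqrt (1 - σ) : ℝ) : ℂ) = 1 - (σ : ℂ) := by
      rw [← Complex.ofReal_mul, Real.mul_self_sqrt hm]
      push_cast
      ring
    have hst : star ((BB.rad σ : ℝ) : ℂ) = ((BB.rad σ : ℝ) : ℂ) := Complex.conj_ofReal _
    rw [hst, hsq]
    set P : ℂ := ((Real.sqrt (1 + σ) : ℝ) : ℂ) with hP
    set Q : ℂ := ((Real.sqrt (1 - σ) : ℝ) : ℂ) with hQ
    have a1 : (1 / 2 : ℂ) * ((1 + (σ : ℂ)) * P + P * Q * Q) = P := by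
      linear_combination (1 / 2 : ℂ) * P * hmm
    have a2 : (1 / 2 : ℂ) * (P * Q * P + (1 - (σ : ℂ)) * Q) = Q := by
      linear_combination (1 / 2 : ℂ) * Q * hpp
    rw [a1, a2]
  · intro x v _ h0
    rw [Matrix.fromRows_mulVec, Matrix.smul_mulVec, Matrix.one_mulVec, Matrix.smul_mulVec,
      Matrix.one_mulVec] at h0
    have h1 : ((Real.sqrt (1 + (f x).ht) : ℝ) : ℂ) • v = 0 := by
      funext i
      exact congrFun h0 (Sum.inl i)
    have h2 : ((Real.sqrt (1 - (f x).ht) : ℝ) : ℂ) • v = 0 := by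
      funext i
      exact congrFun h0 (Sum.inr i)
    by_contra hv
    have h3 := (smul_eq_zero.mp h1).resolve_right hv
    have h4 := (smul_eq_zero.mp h2).resolve_right hv
    rw [Complex.ofReal_eq_zero, Real.sqrt_eq_zero'] at h3 h4
    linarith

/-- The first Chern class of the twist of a family of lines. -/
theorem c1_tw (L : PF 1 Y ι) : c1 𝒞 (tw (pr2 Y (BB (Fin 1))) (L.pb (pr1 Y (BB (Fin 1))))) =
    T.map (pr1 Y (BB (Fin 1))) (c1 𝒞 L) +
      T.map (pr2 Y (BB (Fin 1))) (c1 𝒞 (bott (Fin 1) 1 rfl)) := by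
  let i₀ : BB (Fin 1) := ⟨((0 : Matrix (Fin 1) (Fin 1) ℂ), (1 : ℝ)), by simp, by simp⟩
  have hi1 : i₀.ht = 1 := rfl
  have hi2 : i₀.u = 0 := rfl
  refine c1_of_slices 𝒞 (split_BB1 𝒞) i₀ _ L ?_ ?_
  · symm
    refine cP_congr 𝒞 _ _ (fun _ => Matrix.fromRows (1 : Matrix ι ι ℂ) (0 : Matrix ι ι ℂ))
      continuous_const ?_ ?_ 1
    · intro y v hv
      have e : Matrix.fromRows (1 : Matrix ι ι ℂ) (0 : Matrix ι ι ℂ) *ᵥ v =
          Sum.elim ((1 : ℂ) • v) ((0 : ℂ) • v) := by
        rw [Matrix.fromRows_mulVec, Matrix.one_mulVec, Matrix.zero_mulVec, one_smul, zero_smul]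
      rw [e]
      refine (tw_mulVec (pr2 Y (BB (Fin 1))) (L.pb (pr1 Y (BB (Fin 1)))) (y, i₀) _ _ v hv).trans ?_
      change Sum.elim (((1 / 2 : ℂ) * ((1 + (i₀.ht : ℂ)) * 1 + star i₀.u * 0)) • v)
        (((1 / 2 : ℂ) * (i₀.u * 1 + (1 - (i₀.ht : ℂ)) * 0)) • v) = _
      rw [hi1, hi2]
      norm_num
    · intro y v _ h0
      rw [Matrix.fromRows_mulVec, Matrix.one_mulVec] at h0
      funext i
      exact congrFun h0 (Sum.inl i)
  · intro y
    obtain ⟨v, hv0, hv⟩ := exists_vec (L.P y) (L.idem y) (PF.ne_zero L y)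
    symm
    refine cP_congr 𝒞 _ _ (fun _ => Matrix.fromBlocks (Matrix.of fun i _ => v i) 0 0
      (Matrix.of fun i _ => v i)) continuous_const ?_ ?_ 1
    · intro x w hw
      have e : Matrix.fromBlocks (Matrix.of fun (i : ι) (_ : Fin 1) => v i) 0 0
          (Matrix.of fun (i : ι) (_ : Fin 1) => v i) *ᵥ w =
          Sum.elim (w (Sum.inl 0) • v) (w (Sum.inr 0) • v) := by
        rw [Matrix.fromBlocks_mulVec, Matrix.zero_mulVec, Matrix.zero_mulVec, add_zero, zero_add]
        funext i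
        rcases i with i | i <;>
        simp [Matrix.mulVec, dotProduct, mul_comm]
      rw [e]
      refine (tw_mulVec (pr2 Y (BB (Fin 1))) (L.pb (pr1 Y (BB (Fin 1)))) (y, x) _ _ v hv).trans ?_
      obtain ⟨h1, h2⟩ := bottM_mulVec_one x w hw
      change Sum.elim (((1 / 2 : ℂ) * ((1 + (x.ht : ℂ)) * w (Sum.inl 0) +
        star x.u * w (Sum.inr 0))) • v)
        (((1 / 2 : ℂ) * (x.u * w (Sum.inl 0) + (1 - (x.ht : ℂ)) * w (Sum.inr 0))) • v) = _
      rw [h1, h2]
    · intro x w _ h0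
      have e : Matrix.fromBlocks (Matrix.of fun (i : ι) (_ : Fin 1) => v i) 0 0
          (Matrix.of fun (i : ι) (_ : Fin 1) => v i) *ᵥ w =
          Sum.elim (w (Sum.inl 0) • v) (w (Sum.inr 0) • v) := by
        rw [Matrix.fromBlocks_mulVec, Matrix.zero_mulVec, Matrix.zero_mulVec, add_zero, zero_add]
        funext i
        rcases i with i | i <;>
        simp [Matrix.mulVec, dotProduct, mul_comm]
      rw [e] at h0
      have h1 : w (Sum.inl 0) • v = 0 := by
        funext i
        exact congrFun h0 (Sum.inl i)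
      have h2 : w (Sum.inr 0) • v = 0 := by
        funext i
        exact congrFun h0 (Sum.inr i)
      have h3 := (smul_eq_zero.mp h1).resolve_right hv0
      have h4 := (smul_eq_zero.mp h2).resolve_right hv0
      funext i
      rcases i with i | i
      · rw [Fin.fin_one_eq_zero i, h3]
        rfl
      · rw [Fin.fin_one_eq_zero i, h4]
        rfl

end

end

end Pool.Agent.Lib.MP_904b2a_gt
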