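import Pool.Agent.Lib.MP_904b2a_gt.H74.SuspMV
import Pool.Agent.Lib.MP_904b2a_gt.H74.CT

/-!
# MP_904b2a_gt, module CHE (helper74): the classes `x_i ∈ H^{2i-1}(U(n))`; primitivity
-/

open scoped BigOperators Matrix ComplexOrder unitInterval
open Set

namespace Pool.Agent.Lib.MP_904b2a_gt

open H83

noncomputable section

/-- The unitary group. -/
abbrev UGt (n : Type) [Fintype n] [DecidableEq n] : Type := Matrix.unitaryGroup n ℂ

namespace BB

variable {n m : Type} [Fintype n] [DecidableEq n] [Fintype m] [DecidableEq m]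

theorem isEmbedding_coord : Topology.IsEmbedding (fun x : BB n => (x.M, x.ht)) :=
  Topology.IsEmbedding.subtypeVal

theorem exists_scale (x : BB n) (c s' : ℝ) (h1 : |s'| ≤ 1)
    (h2 : c ^ 2 * (1 - x.ht ^ 2) = 1 - s' ^ 2) : ∃ y : BB n, y.M = c • x.M ∧ y.ht = s' := by
  refine ⟨⟨(c • x.M, s'), ?_, h1⟩, rfl, rfl⟩
  have e : (c • x.M)ᴴ * (c • x.M) = ((c ^ 2 : ℝ) : ℂ) • (x.Mᴴ * x.M) := by
    have : (c • x.M : Matrix n n ℂ) = (c : ℂ) • x.M := by
      ext i j
      simp [Matrix.smul_apply]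
    rw [this, Matrix.conjTranspose_smul, Complex.star_def, Complex.conj_ofReal, Matrix.smul_mul,
      Matrix.mul_smul, smul_smul]
    push_cast
    rw [pow_two]
  change (c • x.M)ᴴ * (c • x.M) = _
  rw [e, x.MhM, smul_smul, ← Complex.ofReal_mul, h2]

/-- `BB n` as a suspension. -/
def susp (n : Type) [Fintype n] [DecidableEq n] : Susp (BB n) (Matrix n n ℂ) where
  v := BB.M
  s := BB.ht
  emb := isEmbedding_coord
  abs_s := BB.abs_ht
  scale x c s' _ h1 h2 := x.exists_scale c s' h1 h2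

instance : Nonempty (BB n) := ⟨⟨((0 : Matrix n n ℂ), (1 : ℝ)), by simp, by simp⟩⟩

end BB

/-- Pairs of points of `BB n` with the same height: the unreduced suspension of `U(n) × U(n)`. -/
def BB2 (n : Type) [Fintype n] [DecidableEq n] : Type := {p : BB n × BB n // p.1.ht = p.2.ht}

namespace BB2

variable {n : Type} [Fintype n] [DecidableEq n]

instance : TopologicalSpace (BB2 n) := inferInstanceAs (TopologicalSpace {p : BB n × BB n //
  p.1.ht = p.2.ht})

/-- The first projection. -/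
def p1 (n : Type) [Fintype n] [DecidableEq n] : C(BB2 n, BB n) :=
  ⟨fun x => x.1.1, continuous_fst.comp continuous_subtype_val⟩

/-- The second projection. -/
def p2 (n : Type) [Fintype n] [DecidableEq n] : C(BB2 n, BB n) :=
  ⟨fun x => x.1.2, continuous_snd.comp continuous_subtype_val⟩

theorem ht_eq (x : BB2 n) : (p1 n x).ht = (p2 n x).ht := x.2

/-- The product map. -/
def mu (n : Type) [Fintype n] [DecidableEq n] : C(BB2 n, BB n) := BB.mul (p1 n) (p2 n) ht_eq

/-- Constructor. -/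
def pair {X : Type} [TopologicalSpace X] (f g : C(X, BB n)) (h : ∀ x, (f x).ht = (g x).ht) :
    C(X, BB2 n) :=
  ⟨fun x => ⟨(f x, g x), h x⟩, (f.continuous.prodMk g.continuous).subtype_mk _⟩

instance : Nonempty (BB2 n) := by
  obtain ⟨x⟩ := (inferInstance : Nonempty (BB n))
  exact ⟨⟨(x, x), rfl⟩⟩

/-- `BB2 n` as a suspension. -/
def susp (n : Type) [Fintype n] [DecidableEq n] :
    Susp (BB2 n) (Matrix n n ℂ × Matrix n n ℂ) where
  v x := ((p1 n x).M, (p2 n x).M)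
  s x := (p1 n x).ht
  emb := by
    refine Topology.IsEmbedding.of_comp (Y := (Matrix n n ℂ × Matrix n n ℂ) × ℝ)
      (Z := (Matrix n n ℂ × ℝ) × (Matrix n n ℂ × ℝ)) ?_ ?_
      (g := fun q => ((q.1.1, q.2), (q.1.2, q.2))) ?_
    · exact ((BB.continuous_M.comp (p1 n).continuous).prodMk
        (BB.continuous_M.comp (p2 n).continuous)).prodMk
        (BB.continuous_ht.comp (p1 n).continuous)
    · fun_prop
    · have h1 : Topology.IsEmbedding (Prod.map (fun x : BB n => (x.M, x.ht))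
          (fun x : BB n => (x.M, x.ht))) := BB.isEmbedding_coord.prodMap BB.isEmbedding_coord
      have h2 := h1.comp (Topology.IsEmbedding.subtypeVal (p := fun p : BB n × BB n =>
        p.1.ht = p.2.ht))
      have h3 : ((fun q : (Matrix n n ℂ × Matrix n n ℂ) × ℝ => ((q.1.1, q.2), (q.1.2, q.2))) ∘
          fun x : BB2 n => (((p1 n x).M, (p2 n x).M), (p1 n x).ht)) =
          (Prod.map (fun x : BB n => (x.M, x.ht)) (fun x : BB n => (x.M, x.ht))) ∘
            (Subtype.val : BB2 n → BB n × BB n) := by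
        funext x
        change (((p1 n x).M, (p1 n x).ht), ((p2 n x).M, (p1 n x).ht)) =
          (((p1 n x).M, (p1 n x).ht), ((p2 n x).M, (p2 n x).ht))
        rw [ht_eq x]
      rw [h3]
      exact h2
  abs_s x := (p1 n x).abs_ht
  scale x c s' _ h1 h2 := by
    obtain ⟨y, hy1, hy2⟩ := (p1 n x).exists_scale c s' h1 h2
    obtain ⟨z, hz1, hz2⟩ := (p2 n x).exists_scale c s' h1 (by rw [← ht_eq x]; exact h2)
    refine ⟨⟨(y, z), hy2.trans hz2.symm⟩, ?_, hy2⟩
    exact Prod.ext hy1 hz1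

end BB2

section

variable (𝒞 : ChernTheory) {n : Type} [Fintype n] [DecidableEq n]

/-- The universal total Chern class over the suspension of `U(n)`. -/
def cU (n : Type) [Fintype n] [DecidableEq n] : T (BB n) := cB 𝒞 (ContinuousMap.id (BB n))

theorem cB_eq_map {X : Type} [TopologicalSpace X] (f : C(X, BB n)) :
    cB 𝒞 f = T.map f (cU 𝒞 n) := by
  rw [cU, ← cB_comp]
  rfl

/-- The class `c_{k+1}` of the universal clutching bundle. -/
def cU' (n : Type) [Fintype n] [DecidableEq n] (k : ℕ) : H (2 * k + 1 + 1) (BB n) ℤ :=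
  cU 𝒞 n (2 * k + 1 + 1)

/-- Additivity over the suspension of `U(n) × U(n)`. -/
theorem cU_mu (k : ℕ) : H.pb (BB2.mu n) (cU' 𝒞 n k) =
    H.pb (BB2.p1 n) (cU' 𝒞 n k) + H.pb (BB2.p2 n) (cU' 𝒞 n k) := by
  have h := cB_mul 𝒞 (BB2.p1 n) (BB2.p2 n) BB2.ht_eq
  set a : T (BB2 n) := cB 𝒞 (BB2.p1 n) - 1 with ha
  set b : T (BB2 n) := cB 𝒞 (BB2.p2 n) - 1 with hb
  have ha0 : a 0 = 0 := by
    rw [ha, T.sub_apply, cB, cT_zero, T.one_def, T.of_self, sub_self]
  have hb0 : b 0 = 0 := by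
    rw [hb, T.sub_apply, cB, cT_zero, T.one_def, T.of_self, sub_self]
  have hab := (BB2.susp n).mul_eq_zero ha0 hb0
  have e : cB 𝒞 (BB2.p1 n) * cB 𝒞 (BB2.p2 n) = cB 𝒞 (BB2.p1 n) + cB 𝒞 (BB2.p2 n) - 1 := by
    have e1 : cB 𝒞 (BB2.p1 n) * cB 𝒞 (BB2.p2 n) = (a + 1) * (b + 1) := by
      rw [ha, hb, sub_add_cancel, sub_add_cancel]
    have e2 : (a + 1) * (b + 1) = a * b + a + b + 1 := by noncomm_ring
    rw [e1, e2, hab, ha, hb]
    abel
  rw [e] at h
  have h2 := congrFun h (2 * k + 1 + 1)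
  rw [T.sub_apply, T.add_apply, T.one_def, T.of_ne (by omega), sub_zero, cB_eq_map, cB_eq_map,
    cB_eq_map] at h2
  exact h2

/-! ### The classes on the unitary group -/

/-- The inclusion of the unitary group as the equator. -/
def eqU (n : Type) [Fintype n] [DecidableEq n] : C(UGt n, ↥((BB.susp n).Ap ∩ (BB.susp n).Am)) where
  toFun u := ⟨⟨(u.1, 0), by
    have h : (u.1)ᴴ * u.1 = 1 := Matrix.mem_unitaryGroup_iff'.mp u.2
    simp [h], by simp⟩, by
      change (-1 : ℝ) < 0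
      norm_num, by
      change (0 : ℝ) < 1
      norm_num⟩
  continuous_toFun := by
    refine Continuous.subtype_mk ?_ _
    exact (continuous_subtype_val.prodMk continuous_const).subtype_mk _

theorem rad_pos {s : ℝ} (h : -1 < s) (h' : s < 1) : 0 < BB.rad s := by
  apply Real.sqrt_pos.mpr
  nlinarith

/-- The projection of the open part of the suspension to the unitary group. -/
def prU (n : Type) [Fintype n] [DecidableEq n] : C(↥((BB.susp n).Ap ∩ (BB.susp n).Am), UGt n) where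
  toFun x := ⟨(((BB.rad x.1.ht)⁻¹ : ℝ) : ℂ) • x.1.M, by
    rw [Matrix.mem_unitaryGroup_iff', Matrix.star_eq_conjTranspose, Matrix.conjTranspose_smul,
      Complex.star_def, Complex.conj_ofReal, Matrix.smul_mul, Matrix.mul_smul, smul_smul,
      x.1.MhM', smul_smul, smul_smul]
    have h0 : ((BB.rad x.1.ht : ℝ) : ℂ) ≠ 0 := by
      exact_mod_cast (rad_pos x.2.1 x.2.2).ne'
    have hk : ∀ c : ℂ, c ≠ 0 → c⁻¹ * c⁻¹ * c * c = 1 := by
      intro c hc
      field_simp
    push_cast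
    rw [hk _ h0, one_smul]⟩
  continuous_toFun := by
    refine Continuous.subtype_mk ?_ _
    have h1 : Continuous fun x : ↥((BB.susp n).Ap ∩ (BB.susp n).Am) =>
        (((BB.rad x.1.ht)⁻¹ : ℝ) : ℂ) := by
      refine Complex.continuous_ofReal.comp (Continuous.inv₀ ?_ (fun x =>
        (rad_pos x.2.1 x.2.2).ne'))
      exact BB.continuous_rad.comp (BB.continuous_ht.comp continuous_subtype_val)
    exact h1.smul (BB.continuous_M.comp continuous_subtype_val)

theorem prU_val (x : ↥((BB.susp n).Ap ∩ (BB.susp n).Am)) :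
    (prU n x).1 = (((BB.rad x.1.ht)⁻¹ : ℝ) : ℂ) • x.1.M := rfl

theorem prU_eqU : (prU n).comp (eqU n) = ContinuousMap.id _ := by
  ext u : 1
  apply Subtype.ext
  change (((BB.rad 0)⁻¹ : ℝ) : ℂ) • u.1 = u.1
  rw [BB.rad_zero]
  simp

theorem eqU_prU_homotopic : ((eqU n).comp (prU n)).Homotopic (ContinuousMap.id _) := by
  have h := (BB.susp n).eqIncl_eqRetr
  have e : (eqU n).comp (prU n) = (BB.susp n).eqIncl.comp (BB.susp n).eqRetr := by
    ext x : 1
    apply Subtype.ext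
    have hs := (BB.susp n).mem_A0.mp x.2
    apply BB.ext
    · have h1 := (BB.susp n).mv_v (x := x.1) (Susp.ef_nonneg x.1.ht 1)
        (show |(0 : ℝ)| ≤ 1 by simp) (by
          have := Susp.ef_sq hs zero_le_one (le_refl (1 : ℝ))
          change Susp.ef x.1.ht 1 ^ 2 * (1 - x.1.ht ^ 2) = 1 - 0 ^ 2
          have e1 : Susp.ef x.1.ht 1 ^ 2 * (1 - x.1.ht ^ 2) = 1 - ((1 - 1) * x.1.ht) ^ 2 := this
          rw [e1]
          ring)
      change (((BB.rad x.1.ht)⁻¹ : ℝ) : ℂ) • x.1.M =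
        (BB.susp n).v ((BB.susp n).mv x.1 (Susp.ef x.1.ht 1) 0)
      rw [h1]
      have e2 : Susp.ef x.1.ht 1 = (BB.rad x.1.ht)⁻¹ := by
        rw [Susp.ef, BB.rad, ← Real.sqrt_inv]
        congr 1
        ring
      rw [e2]
      ext i j
      change _ = ((BB.rad x.1.ht)⁻¹ : ℝ) • x.1.M i j
      simp [Matrix.smul_apply]
    · change (0 : ℝ) = (BB.susp n).s (((BB.susp n).eqRetr x : (BB.susp n).Eqt) : BB n)
      exact (((BB.susp n).eqRetr x : (BB.susp n).Eqt).2).symm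
  rw [e]
  exact h

variable (n) in
/-- The class `x_{k+1} ∈ H^{2k+1}(U(n))` (in degree `2k+1`). -/
def xU (k : ℕ) : H (2 * k + 1) (UGt n) ℤ :=
  H.pb (eqU n) ((BB.susp n).exists_mv (2 * k + 1) (cU' 𝒞 n k)).choose

/-- **The relation between `x` and `c`.** -/
theorem xU_mv (k : ℕ) :
    MV (BB.susp n).Ap (BB.susp n).Am (2 * k + 1) (cU' 𝒞 n k) (H.pb (prU n) (xU 𝒞 n k)) := by
  have h := ((BB.susp n).exists_mv (2 * k + 1) (cU' 𝒞 n k)).choose_spec
  rw [xU, H.pb_comp, H.pb_eq_of_homotopic eqU_prU_homotopic, H.pb_id]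
  exact h

theorem xU_eq {k : ℕ} {a : H (2 * k + 1) ↥((BB.susp n).Ap ∩ (BB.susp n).Am) ℤ}
    (h : MV (BB.susp n).Ap (BB.susp n).Am (2 * k + 1) (cU' 𝒞 n k) a) :
    xU 𝒞 n k = H.pb (eqU n) a := by
  have h2 := (BB.susp n).mv_inj h (xU_mv 𝒞 k)
  rw [h2, H.pb_comp, prU_eqU, H.pb_id]

/-- The inclusion of `U(n) × U(n)` as the equator. -/
def eqU2 (n : Type) [Fintype n] [DecidableEq n] :
    C(UGt n × UGt n, ↥((BB2.susp n).Ap ∩ (BB2.susp n).Am)) where
  toFun u := ⟨⟨((eqU n u.1).1, (eqU n u.2).1), rfl⟩, by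
      change (-1 : ℝ) < 0
      norm_num, by
      change (0 : ℝ) < 1
      norm_num⟩
  continuous_toFun := by
    refine Continuous.subtype_mk ?_ _
    refine Continuous.subtype_mk ?_ _
    exact (continuous_subtype_val.comp ((eqU n).continuous.comp continuous_fst)).prodMk
      (continuous_subtype_val.comp ((eqU n).continuous.comp continuous_snd))

variable (n) in
/-- Multiplication of the unitary group. -/
def mulU : C(UGt n × UGt n, UGt n) := ⟨fun p => p.1 * p.2, continuous_mul⟩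

theorem xU_mulU (k : ℕ) : H.pb (mulU n) (xU 𝒞 n k) =
    H.pb ⟨Prod.fst, continuous_fst⟩ (xU 𝒞 n k) + H.pb ⟨Prod.snd, continuous_snd⟩ (xU 𝒞 n k) := by
  have h := xU_mv 𝒞 (n := n) k
  have g1 : MapsTo (BB2.p1 n) (BB2.susp n).Ap (BB.susp n).Ap := fun x hx => hx
  have g1' : MapsTo (BB2.p1 n) (BB2.susp n).Am (BB.susp n).Am := fun x hx => hx
  have g2 : MapsTo (BB2.p2 n) (BB2.susp n).Ap (BB.susp n).Ap := fun x hx => by
    change -1 < (BB2.p2 n x).ht
    rw [← BB2.ht_eq]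
    exact hx
  have g2' : MapsTo (BB2.p2 n) (BB2.susp n).Am (BB.susp n).Am := fun x hx => by
    change (BB2.p2 n x).ht < 1
    rw [← BB2.ht_eq]
    exact hx
  have g3 : MapsTo (BB2.mu n) (BB2.susp n).Ap (BB.susp n).Ap := fun x hx => hx
  have g3' : MapsTo (BB2.mu n) (BB2.susp n).Am (BB.susp n).Am := fun x hx => hx
  have h1 := h.pb (BB2.p1 n) g1 g1'
  have h2 := h.pb (BB2.p2 n) g2 g2'
  have h3 := h.pb (BB2.mu n) g3 g3'
  rw [cU_mu] at h3
  have h4 := (BB2.susp n).mv_inj h3 (h1.add h2)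
  have h5 := congrArg (H.pb (eqU2 n)) h4
  rw [map_add, H.pb_comp, H.pb_comp, H.pb_comp, H.pb_comp, H.pb_comp, H.pb_comp] at h5
  have e1 : (prU n).comp ((resMap (BB2.p1 n) (g1.inter_inter g1')).comp (eqU2 n)) =
      ⟨Prod.fst, continuous_fst⟩ := by
    ext u : 1
    exact congrArg (fun f : C(UGt n, UGt n) => f u.1) prU_eqU
  have e2 : (prU n).comp ((resMap (BB2.p2 n) (g2.inter_inter g2')).comp (eqU2 n)) =
      ⟨Prod.snd, continuous_snd⟩ := by
    ext u : 1
    exact congrArg (fun f : C(UGt n, UGt n) => f u.2) prU_eqU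
  have e3 : (prU n).comp ((resMap (BB2.mu n) (g3.inter_inter g3')).comp (eqU2 n)) = mulU n := by
    ext u : 1
    apply Subtype.ext
    change (((BB.rad 0)⁻¹ : ℝ) : ℂ) • (((BB.rad 0 : ℝ) : ℂ)⁻¹ • (u.1.1 * u.2.1)) = u.1.1 * u.2.1
    rw [BB.rad_zero]
    simp
  rw [e1, e2, e3] at h5
  exact h5

/-- **The classes `x` are primitive**: additivity for products of maps to the unitary group. -/
theorem xU_mul {Y : Type} [TopologicalSpace Y] (g h : C(Y, UGt n)) (k : ℕ) :
    H.pb (g * h) (xU 𝒞 n k) = H.pb g (xU 𝒞 n k) + H.pb h (xU 𝒞 n k) := by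
  have e := congrArg (H.pb (g.prodMk h)) (xU_mulU 𝒞 (n := n) k)
  rw [map_add, H.pb_comp, H.pb_comp, H.pb_comp] at e
  exact e

theorem xU_one {Y : Type} [TopologicalSpace Y] (k : ℕ) :
    H.pb (1 : C(Y, UGt n)) (xU 𝒞 n k) = 0 := by
  have h := xU_mul 𝒞 (1 : C(Y, UGt n)) 1 k
  rw [one_mul] at h
  exact left_eq_add.mp h

theorem xU_inv {Y : Type} [TopologicalSpace Y] (g : C(Y, UGt n)) (k : ℕ) :
    H.pb (g⁻¹) (xU 𝒞 n k) = - H.pb g (xU 𝒞 n k) := by
  have h := xU_mul 𝒞 g⁻¹ g k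
  rw [inv_mul_cancel, xU_one] at h
  exact eq_neg_of_add_eq_zero_left h.symm

theorem xU_pow {Y : Type} [TopologicalSpace Y] (g : C(Y, UGt n)) (k m : ℕ) :
    H.pb (g ^ m) (xU 𝒞 n k) = m • H.pb g (xU 𝒞 n k) := by
  induction m with
  | zero => rw [pow_zero, xU_one, zero_smul]
  | succ m ih => rw [pow_succ, xU_mul, ih, succ_nsmul]

theorem xU_zpow {Y : Type} [TopologicalSpace Y] (g : C(Y, UGt n)) (k : ℕ) (m : ℤ) :
    H.pb (g ^ m) (xU 𝒞 n k) = m • H.pb g (xU 𝒞 n k) := by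
  rcases Int.eq_nat_or_neg m with ⟨j, rfl | rfl⟩
  · rw [zpow_natCast, xU_pow, natCast_zsmul]
  · rw [zpow_neg, zpow_natCast, xU_inv, xU_pow, neg_zsmul, natCast_zsmul]

end

end

end Pool.Agent.Lib.MP_904b2a_gt
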